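import Mathlib
import Pool.Agent.MP_939d63_gt.Defs

-- part MP_939d63_gt.Cantor
section

/-! The periodic base four Cantor set with digits 0 and 3, and its gaps. -/

set_option autoImplicit false

namespace Pool.Agent.MP_939d63_gt

open Set

def KK : Set ℝ := {x | ∀ n : ℕ, ∃ k : ℤ, |4 ^ n * x - k| ≤ 1 / 4}

noncomputable def cen (n : ℕ) (k : ℤ) : ℝ := (k + 1 / 2) / 4 ^ n

noncomputable def rad (n : ℕ) : ℝ := 1 / 4 ^ (n + 1)

def Good (n : ℕ) (k : ℤ) : Prop := ∀ m < n, ∃ j : ℤ, |4 ^ m * cen n k - j| ≤ 1 / 4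

lemma rad_pos (n : ℕ) : 0 < rad n := by unfold rad; positivity

lemma rad_zero : rad 0 = 1 / 4 := by unfold rad; norm_num

lemma rad_le (n : ℕ) : rad n ≤ 1 / 4 := by
  unfold rad
  apply one_div_le_one_div_of_le (by norm_num)
  have : (1 : ℝ) ≤ 4 ^ n := one_le_pow₀ (by norm_num)
  rw [pow_succ]; linarith

lemma pow_mul_rad (n : ℕ) : 4 ^ n * rad n = 1 / 4 := by
  unfold rad; rw [pow_succ]; field_simp

lemma pow_mul_cen (n : ℕ) (k : ℤ) : 4 ^ n * cen n k = k + 1 / 2 := by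
  unfold cen; field_simp

lemma rad_mul_rad (n m : ℕ) : rad n * rad m = rad (n + 1 + m) := by
  unfold rad; rw [show n + 1 + m + 1 = (n + 1) + (m + 1) by ring, pow_add 4 (n + 1) (m + 1)]
  field_simp

lemma rad_mul_cen (n m : ℕ) (k : ℤ) : rad n * cen m k = cen (n + 1 + m) k := by
  unfold rad cen; rw [pow_add 4 (n + 1) m]; field_simp

lemma rad_lt_rad {n m : ℕ} (h : n < m) : rad m < rad n := by
  unfold rad
  apply one_div_lt_one_div_of_lt (by positivity)
  exact pow_lt_pow_right₀ (by norm_num) (by omega)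

lemma KK_neg {x : ℝ} (hx : x ∈ KK) : -x ∈ KK := by
  intro n
  obtain ⟨k, hk⟩ := hx n
  refine ⟨-k, ?_⟩
  rw [← abs_neg]; convert hk using 2; push_cast; ring

lemma KK_add_int {x : ℝ} (hx : x ∈ KK) (i : ℤ) : x + i ∈ KK := by
  intro n
  obtain ⟨k, hk⟩ := hx n
  refine ⟨k + 4 ^ n * i, ?_⟩
  convert hk using 2; push_cast; ring

lemma KK_int_sub {x : ℝ} (hx : x ∈ KK) (i : ℤ) : i - x ∈ KK := by
  have := KK_add_int (KK_neg hx) i
  convert this using 1; ring

lemma KK_sub_int {x : ℝ} (hx : x ∈ KK) (i : ℤ) : x - i ∈ KK := by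
  have := KK_add_int hx (-i)
  convert this using 1; push_cast; ring

lemma KK_abs {x : ℝ} (hx : x ∈ KK) : |x| ∈ KK := by
  rcases abs_choice x with h | h <;> rw [h]
  · exact hx
  · exact KK_neg hx

lemma KK_pow_mul {x : ℝ} (hx : x ∈ KK) (m : ℕ) : 4 ^ m * x ∈ KK := by
  intro n
  obtain ⟨k, hk⟩ := hx (n + m)
  exact ⟨k, by rw [← mul_assoc, ← pow_add]; exact hk⟩

lemma int_mem_KK (i : ℤ) : (i : ℝ) ∈ KK := by
  intro n
  refine ⟨4 ^ n * i, ?_⟩
  push_cast; simp

lemma zero_mem_KK : (0 : ℝ) ∈ KK := by simpa using int_mem_KK 0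

lemma one_mem_KK : (1 : ℝ) ∈ KK := by simpa using int_mem_KK 1

/-- If `4 x` is in the set and `x` is close to an integer then `x` is in the set. -/
lemma KK_of_four_mul {x : ℝ} (hx : 4 * x ∈ KK) (k : ℤ) (hk : |x - k| ≤ 1 / 4) : x ∈ KK := by
  intro n
  rcases n with _ | n
  · exact ⟨k, by simpa using hk⟩
  · obtain ⟨j, hj⟩ := hx n
    exact ⟨j, by rw [pow_succ, mul_assoc]; exact hj⟩

lemma isClosed_KK : IsClosed KK := by
  have : KK = ⋂ n : ℕ, {x : ℝ | |4 ^ n * x - round (4 ^ n * x)| ≤ 1 / 4} := by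
    ext x
    simp only [KK, mem_setOf_eq, mem_iInter]
    refine forall_congr' fun n => ⟨fun ⟨k, hk⟩ => (round_le _ k).trans hk, fun h => ⟨_, h⟩⟩
  rw [this]
  refine isClosed_iInter fun n => ?_
  have h1 : Continuous fun y : ℝ => |y - round y| := by
    have : (fun y : ℝ => |y - round y|) = fun y : ℝ => ‖(y : UnitAddCircle)‖ := by
      ext y; rw [UnitAddCircle.norm_eq]
    rw [this]
    exact continuous_norm.comp (AddCircle.continuous_mk' 1)
  exact isClosed_le (h1.comp (continuous_const.mul continuous_id)) continuous_const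

lemma not_mem_KK_of_abs_lt {x : ℝ} {n : ℕ} {k : ℤ} (h : |x - cen n k| < rad n) : x ∉ KK := by
  intro hx
  obtain ⟨j, hj⟩ := hx n
  have h4 : (0 : ℝ) < 4 ^ n := by positivity
  have h1 : |4 ^ n * x - (k + 1 / 2)| < 1 / 4 := by
    rw [← pow_mul_cen n k, ← pow_mul_rad n, ← mul_sub, abs_mul, abs_of_pos h4]
    exact mul_lt_mul_of_pos_left h h4
  rw [abs_lt] at h1
  rw [abs_le] at hj
  have h2 : (k : ℝ) < j := by linarith [h1.1, hj.2]
  have h3 : (j : ℝ) < k + 1 := by linarith [h1.2, hj.1]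
  have h2' : k < j := by exact_mod_cast h2
  have h3' : j < k + 1 := by exact_mod_cast h3
  omega

lemma cell_lemma {x y : ℝ} {m n : ℕ} {j k : ℤ} (hmn : m < n) (hx : |4 ^ m * x - j| ≤ 1 / 4)
    (hx1 : k < 4 ^ n * x) (hx2 : 4 ^ n * x < k + 1) (hy1 : k ≤ 4 ^ n * y)
    (hy2 : 4 ^ n * y ≤ k + 1) : |4 ^ m * y - j| ≤ 1 / 4 := by
  obtain ⟨d, rfl⟩ : ∃ d, n = m + 1 + d := ⟨n - m - 1, by omega⟩
  have hN : (0 : ℝ) < 4 ^ d := by positivity
  have e : ∀ z : ℝ, (4 : ℝ) ^ (m + 1 + d) * z = 4 * 4 ^ d * (4 ^ m * z) := by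
    intro z; rw [pow_add, pow_add]; ring
  rw [e] at hx1 hx2 hy1 hy2
  rw [abs_le] at hx ⊢
  have a1 : (4 * 4 ^ d * j - 4 ^ d : ℝ) < k + 1 := by nlinarith [hx.1]
  have a2 : (k : ℝ) < 4 * 4 ^ d * j + 4 ^ d := by nlinarith [hx.2]
  have a1' : (4 * 4 ^ d * j - 4 ^ d : ℤ) < k + 1 := by exact_mod_cast a1
  have a2' : (k : ℤ) < 4 * 4 ^ d * j + 4 ^ d := by exact_mod_cast a2
  have b1' : (4 * 4 ^ d * j - 4 ^ d : ℤ) ≤ k := by omega
  have b2' : (k + 1 : ℤ) ≤ 4 * 4 ^ d * j + 4 ^ d := by omega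
  have b1 : (4 * 4 ^ d * j - 4 ^ d : ℝ) ≤ k := by exact_mod_cast b1'
  have b2 : (k + 1 : ℝ) ≤ 4 * 4 ^ d * j + 4 ^ d := by exact_mod_cast b2'
  constructor
  · by_contra hc
    push Not at hc
    nlinarith
  · by_contra hc
    push Not at hc
    nlinarith

lemma Good.add_mem {n : ℕ} {k : ℤ} (h : Good n k) {s : ℝ} (hs : s = 1 ∨ s = -1) :
    cen n k + s * rad n ∈ KK := by
  intro m
  have e : 4 ^ n * (cen n k + s * rad n) = k + 1 / 2 + s / 4 := by
    rw [mul_add, pow_mul_cen, mul_left_comm, pow_mul_rad]; ring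
  rcases lt_trichotomy m n with hm | hm | hm
  · obtain ⟨j, hj⟩ := h m hm
    refine ⟨j, cell_lemma (k := k) hm hj ?_ ?_ ?_ ?_⟩
    · rw [pow_mul_cen]; linarith
    · rw [pow_mul_cen]; linarith
    · rw [e]; rcases hs with rfl | rfl <;> linarith
    · rw [e]; rcases hs with rfl | rfl <;> linarith
  · subst hm
    rw [e]
    rcases hs with rfl | rfl
    · exact ⟨k + 1, by push_cast; rw [abs_le]; constructor <;> linarith⟩
    · exact ⟨k, by rw [abs_le]; constructor <;> linarith⟩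
  · obtain ⟨d, rfl⟩ : ∃ d, m = d + 1 + n := ⟨m - n - 1, by omega⟩
    rw [pow_add, mul_assoc, e]
    rcases hs with rfl | rfl
    · refine ⟨4 ^ d * (4 * k + 3), ?_⟩
      have : (4 : ℝ) ^ (d + 1) * (k + 1 / 2 + 1 / 4) - ((4 ^ d * (4 * k + 3) : ℤ) : ℝ) = 0 := by
        push_cast; rw [pow_succ]; ring
      rw [this]; norm_num
    · refine ⟨4 ^ d * (4 * k + 1), ?_⟩
      have : (4 : ℝ) ^ (d + 1) * (k + 1 / 2 + -1 / 4) - ((4 ^ d * (4 * k + 1) : ℤ) : ℝ) = 0 := by
        push_cast; rw [pow_succ]; ring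
      rw [this]; norm_num

lemma Good.add_rad_mem {n : ℕ} {k : ℤ} (h : Good n k) : cen n k + rad n ∈ KK := by
  simpa using h.add_mem (s := 1) (Or.inl rfl)

lemma Good.sub_rad_mem {n : ℕ} {k : ℤ} (h : Good n k) : cen n k - rad n ∈ KK := by
  have := h.add_mem (s := -1) (Or.inr rfl)
  convert this using 1; ring

lemma exists_good_of_not_mem {x : ℝ} (hx : x ∉ KK) :
    ∃ n k, Good n k ∧ |x - cen n k| < rad n := by
  classical
  have hex : ∃ n : ℕ, ¬ ∃ k : ℤ, |4 ^ n * x - k| ≤ 1 / 4 := by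
    by_contra hc
    push Not at hc
    exact hx hc
  set n := Nat.find hex with hn
  have h1 : ¬ ∃ k : ℤ, |4 ^ n * x - k| ≤ 1 / 4 := Nat.find_spec hex
  push Not at h1
  have h4 : (0 : ℝ) < 4 ^ n := by positivity
  set k := ⌊4 ^ n * x⌋ with hk
  have f1 : (k : ℝ) ≤ 4 ^ n * x := Int.floor_le _
  have f2 : 4 ^ n * x < k + 1 := Int.lt_floor_add_one _
  have g1 := h1 k
  have g2 := h1 (k + 1)
  rw [abs_of_nonneg (by linarith)] at g1
  push_cast at g2
  rw [abs_of_neg (by linarith)] at g2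
  refine ⟨n, k, ?_, ?_⟩
  · intro m hm
    have := Nat.find_min hex hm
    push Not at this
    obtain ⟨j, hj⟩ := this
    refine ⟨j, cell_lemma (k := k) hm hj (by linarith) f2 ?_ ?_⟩
    · rw [pow_mul_cen]; linarith
    · rw [pow_mul_cen]; linarith
  · have : |4 ^ n * x - 4 ^ n * cen n k| < 4 ^ n * rad n := by
      rw [pow_mul_cen, pow_mul_rad, abs_lt]; constructor <;> linarith
    rw [← mul_sub, abs_mul, abs_of_pos h4] at this
    exact lt_of_mul_lt_mul_left this h4.le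

lemma good_of_mem {e : ℝ} {n : ℕ} {k : ℤ} (he : e ∈ KK) (h1 : k < 4 ^ n * e)
    (h2 : 4 ^ n * e < k + 1) : Good n k := by
  intro m hm
  obtain ⟨j, hj⟩ := he m
  refine ⟨j, cell_lemma (k := k) hm hj h1 h2 ?_ ?_⟩
  · rw [pow_mul_cen]; linarith
  · rw [pow_mul_cen]; linarith

lemma exists_cen_between {x y : ℝ} (hxy : x < y) :
    ∃ n k, x < cen n k - rad n ∧ cen n k + rad n < y := by
  obtain ⟨n, hn⟩ := pow_unbounded_of_one_lt (2 / (y - x)) (show (1 : ℝ) < 4 by norm_num)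
  have h4 : (0 : ℝ) < 4 ^ n := by positivity
  have hd : 0 < y - x := by linarith
  rw [div_lt_iff₀ hd] at hn
  refine ⟨n, ⌈4 ^ n * x⌉, ?_, ?_⟩
  · have : 4 ^ n * x < 4 ^ n * (cen n ⌈4 ^ n * x⌉ - rad n) := by
      rw [mul_sub, pow_mul_cen, pow_mul_rad]; linarith [Int.le_ceil (4 ^ n * x)]
    exact lt_of_mul_lt_mul_left this h4.le
  · have : 4 ^ n * (cen n ⌈4 ^ n * x⌉ + rad n) < 4 ^ n * y := by
      rw [mul_add, pow_mul_cen, pow_mul_rad]; nlinarith [Int.ceil_lt_add_one (4 ^ n * x)]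
    exact lt_of_mul_lt_mul_left this h4.le

lemma exists_not_mem_between {x y : ℝ} (hxy : x < y) : ∃ z, x < z ∧ z < y ∧ z ∉ KK := by
  obtain ⟨n, k, h1, h2⟩ := exists_cen_between hxy
  have := rad_pos n
  exact ⟨cen n k, by linarith, by linarith,
    not_mem_KK_of_abs_lt (n := n) (k := k) (by simpa using this)⟩

lemma cen_inj {n n' : ℕ} {k k' : ℤ} (h : cen n k = cen n' k') : n = n' ∧ k = k' := by
  have key : ∀ {n n' : ℕ} {k k' : ℤ}, cen n k = cen n' k' → ¬ n < n' := by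
    intro n n' k k' h hlt
    obtain ⟨d, rfl⟩ : ∃ d, n' = d + 1 + n := ⟨n' - n - 1, by omega⟩
    have h1 := pow_mul_cen (d + 1 + n) k'
    rw [← h, pow_add, mul_assoc, pow_mul_cen] at h1
    have h2 : ((4 ^ d * (8 * k + 4) : ℤ) : ℝ) = ((2 * k' + 1 : ℤ) : ℝ) := by
      push_cast; rw [pow_succ] at h1; linarith
    have h3 : (4 ^ d * (8 * k + 4) : ℤ) = 2 * k' + 1 := by exact_mod_cast h2
    have h4 : (4 ^ d * (8 * k + 4) : ℤ) = 2 * (4 ^ d * (4 * k + 2)) := by ring
    omega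
  have hn : n = n' := by
    have a := key h
    have b := key h.symm
    omega
  subst hn
  refine ⟨rfl, ?_⟩
  have h1 := pow_mul_cen n k
  rw [h, pow_mul_cen] at h1
  have : (k' : ℝ) = k := by linarith
  exact_mod_cast this.symm

lemma endpoints_ne (n n' : ℕ) (k k' : ℤ) : cen n k + rad n ≠ cen n' k' - rad n' := by
  intro h
  have e1 : 4 ^ (n + 1) * (cen n k + rad n) = 4 * k + 3 := by
    rw [pow_succ', mul_assoc, mul_add, pow_mul_cen, pow_mul_rad]; ring
  have e2 : 4 ^ (n' + 1) * (cen n' k' - rad n') = 4 * k' + 1 := by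
    rw [pow_succ', mul_assoc, mul_sub, pow_mul_cen, pow_mul_rad]; ring
  rw [h] at e1
  rcases lt_trichotomy n n' with hlt | heq | hlt
  · obtain ⟨d, rfl⟩ : ∃ d, n' = d + 1 + n := ⟨n' - n - 1, by omega⟩
    rw [show d + 1 + n + 1 = (d + 1) + (n + 1) by ring, pow_add, mul_assoc, e1] at e2
    have h3 : (4 ^ (d + 1) * (4 * k + 3) : ℤ) = 4 * k' + 1 := by exact_mod_cast e2
    have h4 : (4 ^ (d + 1) * (4 * k + 3) : ℤ) = 4 * (4 ^ d * (4 * k + 3)) := by ring
    omega
  · subst heq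
    rw [e1] at e2
    have h3 : (4 * k + 3 : ℤ) = 4 * k' + 1 := by exact_mod_cast e2
    omega
  · obtain ⟨d, rfl⟩ : ∃ d, n = d + 1 + n' := ⟨n - n' - 1, by omega⟩
    rw [show d + 1 + n' + 1 = (d + 1) + (n' + 1) by ring, pow_add, mul_assoc, e2] at e1
    have h3 : (4 ^ (d + 1) * (4 * k' + 1) : ℤ) = 4 * k + 3 := by exact_mod_cast e1
    have h4 : (4 ^ (d + 1) * (4 * k' + 1) : ℤ) = 4 * (4 ^ d * (4 * k' + 1)) := by ring
    omega

lemma Good.sep {n n' : ℕ} {k k' : ℤ} (h : Good n k) (h' : Good n' k')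
    (hlt : cen n k < cen n' k') : cen n k + rad n < cen n' k' - rad n' := by
  by_contra hc
  push Not at hc
  have hne := endpoints_ne n n' k k'
  have hc' : cen n' k' - rad n' < cen n k + rad n := lt_of_le_of_ne hc hne.symm
  have a : ¬ |cen n k + rad n - cen n' k'| < rad n' := fun hh =>
    not_mem_KK_of_abs_lt hh h.add_rad_mem
  have b : ¬ |cen n' k' - rad n' - cen n k| < rad n := fun hh =>
    not_mem_KK_of_abs_lt hh h'.sub_rad_mem
  rw [abs_lt] at a b
  push Not at a b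
  have a' := a (by linarith)
  by_cases hb : -rad n < cen n' k' - rad n' - cen n k
  · have := b hb; linarith
  · push Not at hb; linarith

/-- The gaps inside the unit interval. -/
def Gap0 : Type := {q : ℕ × ℤ // Good q.1 q.2 ∧ 0 < cen q.1 q.2 ∧ cen q.1 q.2 < 1}

namespace Gap0

noncomputable def c (q : Gap0) : ℝ := cen q.1.1 q.1.2
noncomputable def r (q : Gap0) : ℝ := rad q.1.1

lemma c_inj : Function.Injective c := by
  intro q q' h
  obtain ⟨h1, h2⟩ := cen_inj h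
  exact Subtype.ext (Prod.ext h1 h2)

noncomputable instance : LinearOrder Gap0 := LinearOrder.lift' c c_inj

instance : Countable Gap0 := by unfold Gap0; infer_instance

lemma lt_iff {q q' : Gap0} : q < q' ↔ c q < c q' := Iff.rfl

lemma r_pos (q : Gap0) : 0 < q.r := rad_pos _

lemma r_le (q : Gap0) : q.r ≤ 1 / 4 := rad_le _

lemma good (q : Gap0) : Good q.1.1 q.1.2 := q.2.1

lemma add_mem (q : Gap0) : q.c + q.r ∈ KK := q.good.add_rad_mem

lemma sub_mem (q : Gap0) : q.c - q.r ∈ KK := q.good.sub_rad_mem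

lemma sep {q q' : Gap0} (h : q < q') : q.c + q.r < q'.c - q'.r := q.good.sep q'.good h

lemma sub_pos (q : Gap0) : 0 < q.c - q.r := by
  have h4 : (0 : ℝ) < 4 ^ q.1.1 := by positivity
  have h1 : 0 < 4 ^ q.1.1 * cen q.1.1 q.1.2 := mul_pos h4 q.2.2.1
  rw [pow_mul_cen] at h1
  have h2 : (-1 : ℝ) < q.1.2 := by linarith
  have h3 : (-1 : ℤ) < q.1.2 := by exact_mod_cast h2
  have h5 : (0 : ℝ) ≤ q.1.2 := by exact_mod_cast (show (0 : ℤ) ≤ q.1.2 by omega)
  have : 4 ^ q.1.1 * 0 < 4 ^ q.1.1 * (q.c - q.r) := by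
    unfold c r; rw [mul_sub, pow_mul_cen, pow_mul_rad]; linarith
  exact lt_of_mul_lt_mul_left this h4.le

lemma add_lt_one (q : Gap0) : q.c + q.r < 1 := by
  have h4 : (0 : ℝ) < 4 ^ q.1.1 := by positivity
  have h1 : 4 ^ q.1.1 * cen q.1.1 q.1.2 < 4 ^ q.1.1 * 1 := mul_lt_mul_of_pos_left q.2.2.2 h4
  rw [pow_mul_cen] at h1
  have h2 : (q.1.2 : ℝ) < ((4 ^ q.1.1 : ℤ) : ℝ) := by push_cast; linarith
  have h3 : q.1.2 < (4 ^ q.1.1 : ℤ) := by exact_mod_cast h2
  have h5 : ((q.1.2 + 1 : ℤ) : ℝ) ≤ ((4 ^ q.1.1 : ℤ) : ℝ) := by exact_mod_cast h3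
  push_cast at h5
  have : 4 ^ q.1.1 * (q.c + q.r) < 4 ^ q.1.1 * 1 := by
    unfold c r; rw [mul_add, pow_mul_cen, pow_mul_rad]; linarith
  exact lt_of_mul_lt_mul_left this h4.le

lemma not_mem {x : ℝ} (q : Gap0) (h : |x - q.c| < q.r) : x ∉ KK := not_mem_KK_of_abs_lt h

lemma exists_of_not_mem {x : ℝ} (hx : x ∉ KK) (h0 : 0 ≤ x) (h1 : x ≤ 1) :
    ∃ q : Gap0, |x - q.c| < q.r := by
  obtain ⟨n, k, hg, hk⟩ := exists_good_of_not_mem hx
  have a : ¬ |0 - cen n k| < rad n := fun hh => not_mem_KK_of_abs_lt hh zero_mem_KK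
  have b : ¬ |1 - cen n k| < rad n := fun hh => not_mem_KK_of_abs_lt hh one_mem_KK
  rw [abs_lt] at a b hk
  push Not at a b
  have := rad_pos n
  refine ⟨⟨(n, k), hg, ?_, ?_⟩, by rw [abs_lt]; exact hk⟩
  · by_contra hc
    push Not at hc
    have := a (by simp only at hc; linarith)
    linarith
  · by_contra hc
    push Not at hc
    simp only at hc
    by_cases hb : -rad n < 1 - cen n k
    · have := b hb; linarith
    · push Not at hb; linarith

/-- Between two points of the Cantor set there is a gap. -/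
lemma exists_between {x y : ℝ} (hx : x ∈ KK) (hy : y ∈ KK) (h0 : 0 ≤ x) (h1 : y ≤ 1)
    (hxy : x < y) : ∃ q : Gap0, x ≤ q.c - q.r ∧ q.c + q.r ≤ y := by
  obtain ⟨z, hz1, hz2, hz⟩ := exists_not_mem_between hxy
  obtain ⟨q, hq⟩ := exists_of_not_mem hz (by linarith) (by linarith)
  have a : ¬ |x - q.c| < q.r := fun hh => q.not_mem hh hx
  have b : ¬ |y - q.c| < q.r := fun hh => q.not_mem hh hy
  rw [abs_lt] at a b hq
  push Not at a b
  refine ⟨q, ?_, ?_⟩
  · by_contra hc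
    push Not at hc
    have := a (by linarith); linarith
  · have := b (by linarith); linarith

instance : DenselyOrdered Gap0 := ⟨fun q q' h => by
  obtain ⟨p, h1, h2⟩ := exists_between q.add_mem q'.sub_mem
    (by linarith [q.sub_pos, q.r_pos]) (by linarith [q'.add_lt_one, q'.r_pos]) (sep h)
  refine ⟨p, lt_iff.2 ?_, lt_iff.2 ?_⟩ <;> linarith [q.r_pos, q'.r_pos, p.r_pos]⟩

instance : NoMinOrder Gap0 := ⟨fun q => by
  obtain ⟨p, h1, h2⟩ := exists_between zero_mem_KK q.sub_mem le_rfl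
    (by linarith [q.add_lt_one, q.r_pos]) q.sub_pos
  exact ⟨p, lt_iff.2 (by linarith [q.r_pos, p.r_pos])⟩⟩

instance : NoMaxOrder Gap0 := ⟨fun q => by
  obtain ⟨p, h1, h2⟩ := exists_between q.add_mem one_mem_KK
    (by linarith [q.sub_pos, q.r_pos]) le_rfl q.add_lt_one
  exact ⟨p, lt_iff.2 (by linarith [q.r_pos, p.r_pos])⟩⟩

/-- The middle gap. -/
def mid : Gap0 := ⟨(0, 0), fun m hm => absurd hm (by simp), by simp [cen], by
  simp only [cen]; norm_num⟩

lemma mid_c : mid.c = 1 / 2 := by simp [mid, c, cen]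

lemma mid_r : mid.r = 1 / 4 := by simp [mid, r, rad]

instance : Nonempty Gap0 := ⟨mid⟩

end Gap0

end Pool.Agent.MP_939d63_gt

end

-- part MP_939d63_gt.Extend
section

/-! Extension of order automorphisms from a dense subset of the line; descent to the circle. -/

set_option autoImplicit false

namespace Pool.Agent.MP_939d63_gt

open Set

lemma exists_between_of_denseRange {I : Type*} {j : I → ℝ} (hj : DenseRange j) {x y : ℝ}
    (hxy : x < y) : ∃ a, x < j a ∧ j a < y := by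
  obtain ⟨a, ha⟩ := hj.exists_mem_open isOpen_Ioo (nonempty_Ioo.2 hxy)
  exact ⟨a, ha.1, ha.2⟩

lemma exists_orderIso_extend {I : Type*} (j : I → ℝ) (hj : DenseRange j) (Φ : I ≃ I)
    (hΦ : ∀ a b, j (Φ a) < j (Φ b) ↔ j a < j b) : ∃ F : ℝ ≃o ℝ, ∀ a, F (j a) = j (Φ a) := by
  have hle : ∀ a b, j a ≤ j b → j (Φ a) ≤ j (Φ b) := by
    intro a b h
    by_contra hc
    push Not at hc
    exact absurd ((hΦ _ _).1 hc) (not_lt.2 h)
  let f : ℝ → ℝ := fun x => sSup ((fun a => j (Φ a)) '' {a | j a ≤ x})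
  have hne : ∀ x, ((fun a => j (Φ a)) '' {a | j a ≤ x}).Nonempty := by
    intro x
    obtain ⟨a, -, h2⟩ := exists_between_of_denseRange hj (show x - 1 < x by linarith)
    exact ⟨_, a, h2.le, rfl⟩
  have hub : ∀ x b, x ≤ j b → j (Φ b) ∈ upperBounds ((fun a => j (Φ a)) '' {a | j a ≤ x}) := by
    rintro x b hb _ ⟨a, ha, rfl⟩
    exact hle _ _ (le_trans ha hb)
  have hbdd : ∀ x, BddAbove ((fun a => j (Φ a)) '' {a | j a ≤ x}) := by
    intro x
    obtain ⟨b, h1, -⟩ := exists_between_of_denseRange hj (show x < x + 1 by linarith)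
    exact ⟨_, hub x b h1.le⟩
  have h1 : ∀ x b, x ≤ j b → f x ≤ j (Φ b) := fun x b hb => csSup_le (hne x) (hub x b hb)
  have h2 : ∀ x a, j a ≤ x → j (Φ a) ≤ f x := fun x a ha => le_csSup (hbdd x) ⟨a, ha, rfl⟩
  have hf : ∀ a, f (j a) = j (Φ a) := fun a => le_antisymm (h1 _ a le_rfl) (h2 _ a le_rfl)
  have hmono : StrictMono f := by
    intro x y hxy
    obtain ⟨a, ha1, ha2⟩ := exists_between_of_denseRange hj hxy
    obtain ⟨b, hb1, hb2⟩ := exists_between_of_denseRange hj ha2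
    calc f x ≤ j (Φ a) := h1 x a ha1.le
      _ < j (Φ b) := (hΦ _ _).2 hb1
      _ ≤ f y := h2 y b hb2.le
  have hdense : DenseRange f := by
    refine hj.mono ?_
    rintro _ ⟨a, rfl⟩
    exact ⟨j (Φ.symm a), by rw [hf]; simp⟩
  have hcont : Continuous f := hmono.monotone.continuous_of_denseRange hdense
  have hsurj : Function.Surjective f := by
    intro y
    obtain ⟨a, -, ha⟩ := exists_between_of_denseRange hdense (show y - 1 < y by linarith)
    obtain ⟨b, hb, -⟩ := exists_between_of_denseRange hdense (show y < y + 1 by linarith)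
    have hab : a ≤ b := (hmono.lt_iff_lt.1 (ha.trans hb)).le
    obtain ⟨x, -, hx⟩ := intermediate_value_Icc hab hcont.continuousOn ⟨ha.le, hb.le⟩
    exact ⟨x, hx⟩
  exact ⟨hmono.orderIsoOfSurjective f hsurj, fun a => by simpa using hf a⟩

/-- The covering of the circle with period 2. -/
noncomputable def EE (x : ℝ) : Circle := Circle.exp (Real.pi * x)

lemma EE_eq_iff {x y : ℝ} : EE x = EE y ↔ ∃ m : ℤ, x = y + 2 * m := by
  unfold EE
  rw [Circle.exp_eq_exp]
  refine exists_congr fun m => ⟨fun h => ?_, fun h => by rw [h]; ring⟩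
  have := Real.pi_pos
  have h2 : Real.pi * x = Real.pi * (y + 2 * m) := by rw [h]; ring
  exact mul_left_cancel₀ this.ne' h2

lemma EE_add_two_mul (x : ℝ) (m : ℤ) : EE (x + 2 * m) = EE x := EE_eq_iff.2 ⟨m, rfl⟩

lemma EE_add_two (x : ℝ) : EE (x + 2) = EE x := by simpa using EE_add_two_mul x 1

lemma EE_div_pi (x : ℝ) : EE (x / Real.pi) = Circle.exp x := by
  unfold EE; congr 1; field_simp

lemma EE_surjective : Function.Surjective EE := fun z =>
  ⟨Complex.arg z / Real.pi, by rw [EE_div_pi, Circle.exp_arg]⟩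

lemma continuous_EE : Continuous EE :=
  Circle.exp.continuous.comp (continuous_const.mul continuous_id)

lemma isOpenMap_EE : IsOpenMap EE :=
  isLocalHomeomorph_circleExp.isOpenMap.comp
    (Homeomorph.mulLeft₀ Real.pi Real.pi_pos.ne').isOpenMap

lemma isQuotientMap_EE : Topology.IsQuotientMap EE :=
  isOpenMap_EE.isQuotientMap continuous_EE EE_surjective

lemma EE_re (x : ℝ) : (EE x : ℂ).re = Real.cos (Real.pi * x) := by
  unfold EE; rw [Circle.coe_exp, Complex.exp_ofReal_mul_I_re]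

lemma EE_im (x : ℝ) : (EE x : ℂ).im = Real.sin (Real.pi * x) := by
  unfold EE; rw [Circle.coe_exp, Complex.exp_ofReal_mul_I_im]

lemma EE_add (x y : ℝ) : EE (x + y) = EE x * EE y := by
  unfold EE; rw [mul_add, Circle.exp_add]

/-- Order automorphisms of the line commuting with the translation by 2. -/
def Lift : Subgroup (ℝ ≃o ℝ) where
  carrier := {F | ∀ x, F (x + 2) = F x + 2}
  one_mem' := fun _ => rfl
  mul_mem' := by
    intro F G hF hG x
    change F (G (x + 2)) = F (G x) + 2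
    rw [hG, hF]
  inv_mem' := by
    intro F hF x
    apply F.injective
    change F (F.symm (x + 2)) = F (F.symm x + 2)
    rw [hF]; simp

lemma Lift.add_int (F : Lift) (x : ℝ) (m : ℤ) : F.1 (x + 2 * m) = F.1 x + 2 * m := by
  induction m using Int.induction_on generalizing x with
  | zero => simp
  | succ n ih =>
    have := F.2 (x + 2 * (n : ℤ))
    rw [ih] at this
    push_cast at this ⊢
    rw [show x + 2 * ((n : ℝ) + 1) = x + 2 * n + 2 by ring, this]; ring
  | pred n ih =>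
    have := F.2 (x + 2 * ((-(n : ℤ) - 1 : ℤ) : ℝ))
    have h2 := ih x
    push_cast at this h2 ⊢
    rw [show x + 2 * (-(n : ℝ) - 1) + 2 = x + 2 * (-n) by ring, h2] at this
    linarith

noncomputable def descFun (F : Lift) (z : Circle) : Circle := EE (F.1 (Complex.arg z / Real.pi))

lemma descFun_EE (F : Lift) (x : ℝ) : descFun F (EE x) = EE (F.1 x) := by
  have : EE (Complex.arg (EE x) / Real.pi) = EE x := by rw [EE_div_pi, Circle.exp_arg]
  obtain ⟨m, hm⟩ := EE_eq_iff.1 this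
  unfold descFun
  rw [hm, Lift.add_int, EE_add_two_mul]

lemma continuous_descFun (F : Lift) : Continuous (descFun F) := by
  rw [isQuotientMap_EE.continuous_iff]
  have : descFun F ∘ EE = EE ∘ F.1 := by ext x; simp [descFun_EE]
  rw [this]
  exact continuous_EE.comp F.1.continuous

noncomputable def descHomeo (F : Lift) : Circle ≃ₜ Circle where
  toFun := descFun F
  invFun := descFun F⁻¹
  left_inv := by
    intro z
    obtain ⟨x, rfl⟩ := EE_surjective z
    rw [descFun_EE, descFun_EE]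
    congr 1
    exact RelIso.inv_apply_self F.1 x
  right_inv := by
    intro z
    obtain ⟨x, rfl⟩ := EE_surjective z
    rw [descFun_EE, descFun_EE]
    congr 1
    exact RelIso.apply_inv_self F.1 x
  continuous_toFun := continuous_descFun F
  continuous_invFun := continuous_descFun F⁻¹

noncomputable def desc : Lift →* (Circle ≃ₜ Circle) :=
  MonoidHom.mk' descHomeo (by
    intro F G
    ext z
    obtain ⟨x, rfl⟩ := EE_surjective z
    change (descFun (F * G) (EE x) : ℂ) = descFun F (descFun G (EE x))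
    rw [descFun_EE, descFun_EE, descFun_EE]
    rfl)

lemma desc_EE (F : Lift) (x : ℝ) : desc F (EE x) = EE (F.1 x) := descFun_EE F x

lemma orientationPreserving_desc (F : Lift) : OrientationPreserving (desc F) := by
  have hpi := Real.pi_pos
  refine ⟨fun x => Real.pi * F.1 (x / Real.pi), ?_, ?_, ?_, ?_⟩
  · exact continuous_const.mul (F.1.continuous.comp (continuous_id.div_const _))
  · intro x y hxy
    exact mul_lt_mul_of_pos_left (F.1.strictMono (div_lt_div_of_pos_right hxy hpi)) hpi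
  · intro x
    have : (x + 2 * Real.pi) / Real.pi = x / Real.pi + 2 := by field_simp
    simp only
    rw [this, F.2]; ring
  · intro x
    rw [← EE_div_pi, desc_EE]; rfl

end Pool.Agent.MP_939d63_gt

end

-- part MP_939d63_gt.Spine
section

/-! Order automorphisms of the set of gaps act on the line, affinely on each gap. -/

set_option autoImplicit false

namespace Pool.Agent.MP_939d63_gt

open Set

noncomputable def uu (q : Gap0) (s : ℝ) : ℝ := q.c + s * q.r

lemma uu_ge (q : Gap0) {s : ℝ} (hs : s ∈ Icc (-1 : ℝ) 1) : q.c - q.r ≤ uu q s := by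
  unfold uu; nlinarith [hs.1, q.r_pos]

lemma uu_le (q : Gap0) {s : ℝ} (hs : s ∈ Icc (-1 : ℝ) 1) : uu q s ≤ q.c + q.r := by
  unfold uu; nlinarith [hs.2, q.r_pos]

lemma uu_pos (q : Gap0) {s : ℝ} (hs : s ∈ Icc (-1 : ℝ) 1) : 0 < uu q s :=
  q.sub_pos.trans_le (uu_ge q hs)

lemma uu_lt_one (q : Gap0) {s : ℝ} (hs : s ∈ Icc (-1 : ℝ) 1) : uu q s < 1 :=
  (uu_le q hs).trans_lt q.add_lt_one

lemma uu_lt_iff {q q' : Gap0} {s s' : ℝ} (hs : s ∈ Icc (-1 : ℝ) 1) (hs' : s' ∈ Icc (-1 : ℝ) 1) :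
    uu q s < uu q' s' ↔ q < q' ∨ (q = q' ∧ s < s') := by
  rcases lt_trichotomy q q' with h | h | h
  · refine ⟨fun _ => Or.inl h, fun _ => ?_⟩
    linarith [uu_le q hs, uu_ge q' hs', Gap0.sep h]
  · subst h
    simp only [lt_self_iff_false, true_and, false_or]
    unfold uu
    constructor
    · intro h
      by_contra hc
      push Not at hc
      nlinarith [q.r_pos]
    · intro h; nlinarith [q.r_pos]
  · constructor
    · intro h2
      linarith [uu_ge q hs, uu_le q' hs', Gap0.sep h]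
    · rintro (h2 | ⟨h2, -⟩)
      · exact absurd h2 (not_lt.2 h.le)
      · exact absurd h2 h.ne'

abbrev Idx : Type := ℤ × Gap0 × Icc (-1 : ℝ) 1

noncomputable def jj (a : Idx) : ℝ :=
  if Even a.1 then a.1 + uu a.2.1 a.2.2 else a.1 + 1 - uu a.2.1 a.2.2

lemma jj_gt (a : Idx) : (a.1 : ℝ) < jj a := by
  unfold jj
  split_ifs
  · linarith [uu_pos a.2.1 a.2.2.2]
  · linarith [uu_lt_one a.2.1 a.2.2.2]

lemma jj_lt (a : Idx) : jj a < a.1 + 1 := by
  unfold jj
  split_ifs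
  · linarith [uu_lt_one a.2.1 a.2.2.2]
  · linarith [uu_pos a.2.1 a.2.2.2]

lemma jj_lt_of_lt {a b : Idx} (h : a.1 < b.1) : jj a < jj b := by
  have : ((a.1 + 1 : ℤ) : ℝ) ≤ b.1 := by exact_mod_cast h
  push_cast at this
  linarith [jj_lt a, jj_gt b]

def idxEquiv (φ : Gap0 ≃o Gap0) : Idx ≃ Idx :=
  Equiv.prodCongr (Equiv.refl _) (Equiv.prodCongr φ.toEquiv (Equiv.refl _))

lemma idxEquiv_apply (φ : Gap0 ≃o Gap0) (i : ℤ) (q : Gap0) (s : Icc (-1 : ℝ) 1) :
    idxEquiv φ (i, q, s) = (i, φ q, s) := rfl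

lemma jj_idxEquiv_lt (φ : Gap0 ≃o Gap0) (a b : Idx) :
    jj (idxEquiv φ a) < jj (idxEquiv φ b) ↔ jj a < jj b := by
  obtain ⟨i, q, s⟩ := a
  obtain ⟨i', q', s'⟩ := b
  rw [idxEquiv_apply, idxEquiv_apply]
  rcases lt_trichotomy i i' with h | h | h
  · exact ⟨fun _ => jj_lt_of_lt h, fun _ => jj_lt_of_lt h⟩
  · subst h
    unfold jj
    simp only
    split_ifs
    · rw [add_lt_add_iff_left, add_lt_add_iff_left, uu_lt_iff s.2 s'.2, uu_lt_iff s.2 s'.2]
      simp
    · rw [sub_lt_sub_iff_left, sub_lt_sub_iff_left, uu_lt_iff s'.2 s.2, uu_lt_iff s'.2 s.2]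
      simp
  · constructor
    · intro h2
      exact absurd h2 (not_lt.2 (jj_lt_of_lt (a := (i', φ q', s')) (b := (i, φ q, s)) h).le)
    · intro h2
      exact absurd h2 (not_lt.2 (jj_lt_of_lt (a := (i', q', s')) (b := (i, q, s)) h).le)

lemma exists_uu_of_not_mem {x : ℝ} (hx : x ∉ KK) (h0 : 0 ≤ x) (h1 : x ≤ 1) :
    ∃ (q : Gap0) (s : ℝ), |s| < 1 ∧ x = uu q s := by
  obtain ⟨q, hq⟩ := Gap0.exists_of_not_mem hx h0 h1
  have := q.r_pos
  refine ⟨q, (x - q.c) / q.r, ?_, ?_⟩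
  · rw [abs_div, abs_of_pos this, div_lt_one this]; exact hq
  · unfold uu; field_simp; ring

lemma exists_jj_of_not_mem {x : ℝ} (hx : x ∉ KK) : ∃ a : Idx, |(a.2.2 : ℝ)| < 1 ∧ x = jj a := by
  have f1 : (⌊x⌋ : ℝ) ≤ x := Int.floor_le _
  have f2 : x < ⌊x⌋ + 1 := Int.lt_floor_add_one _
  by_cases he : Even ⌊x⌋
  · have : x - ⌊x⌋ ∉ KK := fun h => hx (by simpa using KK_add_int h ⌊x⌋)
    obtain ⟨q, s, hs, h⟩ := exists_uu_of_not_mem this (by linarith) (by linarith)
    refine ⟨(⌊x⌋, q, ⟨s, (abs_lt.1 hs).1.le, (abs_lt.1 hs).2.le⟩), hs, ?_⟩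
    unfold jj; simp only [he, if_true]; linarith
  · have : ((⌊x⌋ + 1 : ℤ) : ℝ) - x ∉ KK := fun h => hx (by simpa using KK_int_sub h (⌊x⌋ + 1))
    push_cast at this
    obtain ⟨q, s, hs, h⟩ := exists_uu_of_not_mem this (by linarith) (by linarith)
    refine ⟨(⌊x⌋, q, ⟨s, (abs_lt.1 hs).1.le, (abs_lt.1 hs).2.le⟩), hs, ?_⟩
    unfold jj; simp only [he, if_false]; linarith

lemma uu_not_mem (q : Gap0) {s : ℝ} (hs : |s| < 1) : uu q s ∉ KK := by
  apply q.not_mem
  unfold uu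
  rw [add_sub_cancel_left, abs_mul, abs_of_pos q.r_pos]
  nlinarith [q.r_pos]

lemma jj_not_mem (a : Idx) (ha : |(a.2.2 : ℝ)| < 1) : jj a ∉ KK := by
  intro h
  apply uu_not_mem a.2.1 ha
  unfold jj at h
  split_ifs at h
  · simpa using KK_sub_int h a.1
  · have := KK_int_sub h (a.1 + 1)
    push_cast at this
    simpa using this

lemma denseRange_jj : DenseRange jj := by
  apply dense_of_exists_between
  intro x y hxy
  obtain ⟨z, h1, h2, hz⟩ := exists_not_mem_between hxy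
  obtain ⟨a, -, rfl⟩ := exists_jj_of_not_mem hz
  exact ⟨_, ⟨a, rfl⟩, h1, h2⟩

noncomputable def spine (φ : Gap0 ≃o Gap0) : ℝ ≃o ℝ :=
  (exists_orderIso_extend jj denseRange_jj (idxEquiv φ) (jj_idxEquiv_lt φ)).choose

lemma spine_jj (φ : Gap0 ≃o Gap0) (i : ℤ) (q : Gap0) (s : Icc (-1 : ℝ) 1) :
    spine φ (jj (i, q, s)) = jj (i, φ q, s) :=
  (exists_orderIso_extend jj denseRange_jj (idxEquiv φ) (jj_idxEquiv_lt φ)).choose_spec _

lemma jj_add_two (i : ℤ) (b : Gap0 × Icc (-1 : ℝ) 1) : jj (i, b) + 2 = jj (i + 2, b) := by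
  unfold jj
  have : Even (i + 2) ↔ Even i := by simp [Int.even_add]
  simp only [this]
  split_ifs <;> push_cast <;> ring

lemma jj_neg (i : ℤ) (b : Gap0 × Icc (-1 : ℝ) 1) : -jj (i, b) = jj (-i - 1, b) := by
  unfold jj
  have : Even (-i - 1) ↔ ¬ Even i := by simp [Int.even_sub]
  simp only [this]
  by_cases h : Even i
  · simp only [h, if_true, not_true, if_false]; push_cast; ring
  · simp only [h, if_false, not_false_iff, if_true]; push_cast; ring

lemma spine_add_two (φ : Gap0 ≃o Gap0) (x : ℝ) : spine φ (x + 2) = spine φ x + 2 := by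
  refine denseRange_jj.induction_on (p := fun x => spine φ (x + 2) = spine φ x + 2) x ?_ ?_
  · exact isClosed_eq ((spine φ).continuous.comp (continuous_add_const 2))
      ((spine φ).continuous.add continuous_const)
  · rintro ⟨i, q, s⟩
    rw [jj_add_two, spine_jj, spine_jj, jj_add_two]

lemma spine_neg (φ : Gap0 ≃o Gap0) (x : ℝ) : spine φ (-x) = -spine φ x := by
  refine denseRange_jj.induction_on (p := fun x => spine φ (-x) = -spine φ x) x ?_ ?_
  · exact isClosed_eq ((spine φ).continuous.comp continuous_neg) (spine φ).continuous.neg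
  · rintro ⟨i, q, s⟩
    rw [jj_neg, spine_jj, spine_jj, jj_neg]

lemma spine_mul (φ ψ : Gap0 ≃o Gap0) : spine (φ * ψ) = spine φ * spine ψ := by
  ext x
  refine denseRange_jj.induction_on (p := fun x => spine (φ * ψ) x = (spine φ * spine ψ) x) x ?_ ?_
  · exact isClosed_eq (spine _).continuous (spine φ * spine ψ).continuous
  · rintro ⟨i, q, s⟩
    rw [RelIso.mul_apply, spine_jj, spine_jj, spine_jj]; rfl

noncomputable def spineHom : (Gap0 ≃o Gap0) →* Lift :=
  MonoidHom.mk' (fun φ => ⟨spine φ, spine_add_two φ⟩) (fun φ ψ => Subtype.ext (spine_mul φ ψ))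

lemma spineHom_apply (φ : Gap0 ≃o Gap0) (x : ℝ) : (spineHom φ).1 x = spine φ x := rfl

lemma spine_inv_apply (φ : Gap0 ≃o Gap0) (x : ℝ) : spine φ⁻¹ (spine φ x) = x := by
  have : spineHom φ⁻¹ * spineHom φ = 1 := by rw [← map_mul]; simp
  exact congrArg (fun F : Lift => F.1 x) this

lemma spine_reflect (φ : Gap0 ≃o Gap0) (i : ℤ) (x : ℝ) :
    spine φ (2 * i - x) = 2 * i - spine φ x := by
  have := Lift.add_int (spineHom φ) (-x) i
  rw [spineHom_apply, spineHom_apply, spine_neg] at this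
  rw [show 2 * i - x = -x + 2 * i by ring, this]; ring

lemma spine_zero (φ : Gap0 ≃o Gap0) : spine φ 0 = 0 := by
  have := spine_neg φ 0
  rw [neg_zero] at this
  linarith

lemma spine_int (φ : Gap0 ≃o Gap0) (i : ℤ) : spine φ i = i := by
  have := spine_reflect φ i i
  rw [show 2 * (i : ℝ) - i = i by ring] at this
  linarith

lemma spine_mem_KK (φ : Gap0 ≃o Gap0) {x : ℝ} (hx : x ∈ KK) : spine φ x ∈ KK := by
  by_contra hc
  obtain ⟨⟨i, q, s⟩, hs, h⟩ := exists_jj_of_not_mem hc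
  have := spine_inv_apply φ x
  rw [h, spine_jj] at this
  exact jj_not_mem (i, φ⁻¹ q, s) hs (this ▸ hx)

lemma spine_uu (φ : Gap0 ≃o Gap0) (q : Gap0) {s : ℝ} (hs : s ∈ Icc (-1 : ℝ) 1) :
    spine φ (uu q s) = uu (φ q) s := by
  have := spine_jj φ 0 q ⟨s, hs⟩
  simpa [jj] using this

end Pool.Agent.MP_939d63_gt

end

-- part MP_939d63_gt.Lam
section

/-! The lamination. -/

set_option autoImplicit false

namespace Pool.Agent.MP_939d63_gt

open Set

def IsCen (n : ℕ) (c : ℝ) : Prop := ∃ k : ℤ, c = cen n k ∨ (n = 0 ∧ c = k)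

def Lam : Set (Circle × Circle) :=
  {p | ∃ (n : ℕ) (c x : ℝ), IsCen n c ∧ x ∈ KK ∧ x ≠ 0 ∧ |x| ≤ 1 ∧
    p = (EE (c - rad n * x), EE (c + rad n * x))}

lemma cen_add_int (n : ℕ) (k i : ℤ) : cen n k + i = cen n (k + 4 ^ n * i) := by
  unfold cen; push_cast; field_simp; ring

lemma cen_neg (n : ℕ) (k : ℤ) : -cen n k = cen n (-k - 1) := by
  unfold cen; push_cast; field_simp; ring

lemma isCen_cen (n : ℕ) (k : ℤ) : IsCen n (cen n k) := ⟨k, Or.inl rfl⟩

lemma isCen_int (k : ℤ) : IsCen 0 k := ⟨k, Or.inr ⟨rfl, rfl⟩⟩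

lemma IsCen.add_int {n : ℕ} {c : ℝ} (h : IsCen n c) (i : ℤ) : IsCen n (c + i) := by
  obtain ⟨k, rfl | ⟨rfl, rfl⟩⟩ := h
  · rw [cen_add_int]; exact isCen_cen _ _
  · exact ⟨k + i, Or.inr ⟨rfl, by push_cast; ring⟩⟩

lemma IsCen.add_two_mul {n : ℕ} {c : ℝ} (h : IsCen n c) (i : ℤ) : IsCen n (c + 2 * i) := by
  have := h.add_int (2 * i)
  push_cast at this; exact this

lemma IsCen.neg {n : ℕ} {c : ℝ} (h : IsCen n c) : IsCen n (-c) := by
  obtain ⟨k, rfl | ⟨rfl, rfl⟩⟩ := h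
  · rw [cen_neg]; exact isCen_cen _ _
  · exact ⟨-k, Or.inr ⟨rfl, by push_cast; ring⟩⟩

lemma isCen_zero_iff {c : ℝ} : IsCen 0 c ↔ ∃ i : ℤ, c = i / 2 := by
  constructor
  · rintro ⟨k, rfl | ⟨-, rfl⟩⟩
    · exact ⟨2 * k + 1, by unfold cen; push_cast; ring⟩
    · exact ⟨2 * k, by push_cast; ring⟩
  · rintro ⟨i, rfl⟩
    rcases Int.even_or_odd' i with ⟨k, rfl | rfl⟩
    · exact ⟨k, Or.inr ⟨rfl, by push_cast; ring⟩⟩
    · exact ⟨k, Or.inl (by unfold cen; push_cast; ring)⟩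

lemma IsCen.add_half {n : ℕ} {c : ℝ} (h : IsCen n c) (i : ℤ) : IsCen n (c + i / 2) := by
  rcases n with _ | n
  · obtain ⟨j, rfl⟩ := isCen_zero_iff.1 h
    exact isCen_zero_iff.2 ⟨j + i, by push_cast; ring⟩
  · obtain ⟨k, rfl | ⟨h0, -⟩⟩ := h
    · refine ⟨k + 2 * 4 ^ n * i, Or.inl ?_⟩
      unfold cen; push_cast; rw [pow_succ]; field_simp; ring
    · omega

lemma IsCen.even {n : ℕ} {c : ℝ} (h : IsCen n c) : ∃ j : ℤ, 4 ^ (n + 1) * c = 2 * j := by
  obtain ⟨k, rfl | ⟨rfl, rfl⟩⟩ := h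
  · exact ⟨2 * k + 1, by rw [pow_succ', mul_assoc, pow_mul_cen]; push_cast; ring⟩
  · exact ⟨2 * k, by push_cast; ring⟩

lemma pow_succ_mul_rad (n : ℕ) : 4 ^ (n + 1) * rad n = 1 := by
  unfold rad; field_simp

lemma IsCen.sep {n : ℕ} {c c' : ℝ} (h : IsCen n c) (h' : IsCen n c') (hne : c ≠ c') :
    2 * rad n ≤ |c - c'| := by
  obtain ⟨j, hj⟩ := h.even
  obtain ⟨j', hj'⟩ := h'.even
  have h4 : (0 : ℝ) < 4 ^ (n + 1) := by positivity
  have hjj : j ≠ j' := by
    rintro rfl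
    exact hne (mul_left_cancel₀ h4.ne' (hj.trans hj'.symm))
  have h1 : (1 : ℤ) ≤ |j - j'| := Int.one_le_abs (sub_ne_zero.2 hjj)
  have h2 : (1 : ℝ) ≤ |(j : ℝ) - j'| := by exact_mod_cast h1
  have : 4 ^ (n + 1) * (2 * rad n) ≤ 4 ^ (n + 1) * |c - c'| := by
    rw [mul_left_comm, pow_succ_mul_rad, ← abs_of_pos h4, ← abs_mul, mul_sub, hj, hj', ← mul_sub,
      abs_mul]
    norm_num; exact h2
  exact le_of_mul_le_mul_left this h4

lemma IsCen.endpoint_mem {n : ℕ} {c x : ℝ} (h : IsCen n c) (hx : x ∈ KK) :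
    4 ^ (n + 1) * (c + rad n * x) ∈ KK := by
  obtain ⟨j, hj⟩ := h.even
  rw [mul_add, hj, ← mul_assoc, pow_succ_mul_rad, one_mul, add_comm]
  have := KK_add_int hx (2 * j)
  push_cast at this; exact this

lemma IsCen.not_inside {m n : ℕ} {c v : ℝ} (h : IsCen m c) (hn : n ≤ m) (hm : 0 < m)
    (hv : 4 ^ n * v ∈ KK) : ¬ |v - c| < rad m := by
  obtain ⟨k, rfl | ⟨h0, -⟩⟩ := h
  · intro hlt
    obtain ⟨d, rfl⟩ : ∃ d, m = d + n := ⟨m - n, by omega⟩
    have h1 := KK_pow_mul hv d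
    rw [← mul_assoc, ← pow_add] at h1
    have h4 : (0 : ℝ) < 4 ^ (d + n) := by positivity
    refine not_mem_KK_of_abs_lt (n := 0) (k := k) ?_ h1
    have : cen 0 k = 4 ^ (d + n) * cen (d + n) k := by rw [pow_mul_cen]; simp [cen]
    rw [this, rad_zero, ← pow_mul_rad (d + n), ← mul_sub, abs_mul, abs_of_pos h4]
    exact mul_lt_mul_of_pos_left hlt h4
  · omega

lemma endpoint_not_inside {n n' : ℕ} {c c' x x' : ℝ} (h : IsCen n c) (h' : IsCen n' c')
    (hx : x ∈ KK) (hx1 : |x| ≤ 1) (hx1' : |x'| ≤ 1)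
    (hle : n < n' ∨ (n = n' ∧ |x'| ≤ |x|)) : ¬ |c + rad n * x - c'| < rad n' * |x'| := by
  intro hlt
  have hr := rad_pos n'
  rcases hle with hle | ⟨rfl, hle⟩
  · exact h'.not_inside (n := n + 1) hle (by omega) (h.endpoint_mem hx) (by nlinarith)
  · by_cases hc : c = c'
    · subst hc
      rw [add_sub_cancel_left, abs_mul, abs_of_pos hr] at hlt
      nlinarith
    · have h2 := h.sep h' hc
      have h3 : |c - c'| ≤ |c + rad n * x - c'| + |rad n * x| := by
        have := abs_sub (c + rad n * x - c') (rad n * x)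
        rwa [show c + rad n * x - c' - rad n * x = c - c' by ring] at this
      rw [abs_mul, abs_of_pos hr] at h3
      nlinarith

lemma unlinked_core {n n' : ℕ} {c c' x x' : ℝ} (h : IsCen n c) (h' : IsCen n' c')
    (hx : x ∈ KK) (hx1 : |x| ≤ 1) (hx1' : |x'| ≤ 1) (hx0' : x' ≠ 0)
    (hle : n < n' ∨ (n = n' ∧ |x'| ≤ |x|)) {s t u v : ℝ} (hst : s < t) (htu : t < u) (huv : u < v)
    (hvs : v < s + 2) (hs : EE s = EE (c' - rad n' * x')) (hu : EE u = EE (c' + rad n' * x'))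
    (ht : EE t = EE (c - rad n * x) ∨ EE t = EE (c + rad n * x))
    (hv : EE v = EE (c - rad n * x) ∨ EE v = EE (c + rad n * x)) : False := by
  have key : ∀ w : ℝ, (EE w = EE (c - rad n * x) ∨ EE w = EE (c + rad n * x)) → ∀ j : ℤ,
      ¬ |w - (c' + 2 * j)| < rad n' * |x'| := by
    intro w hw j
    rcases hw with hw | hw
    · obtain ⟨m, rfl⟩ := EE_eq_iff.1 hw
      have := endpoint_not_inside (h.add_two_mul m) (h'.add_two_mul j) (KK_neg hx)
        (by rwa [abs_neg]) hx1' (by rwa [abs_neg])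
      convert this using 3; ring
    · obtain ⟨m, rfl⟩ := EE_eq_iff.1 hw
      have := endpoint_not_inside (h.add_two_mul m) (h'.add_two_mul j) hx hx1 hx1' hle
      convert this using 3; ring
  obtain ⟨i, hi⟩ := EE_eq_iff.1 hs
  obtain ⟨i', hi'⟩ := EE_eq_iff.1 hu
  have hr := rad_pos n'
  have hr' := rad_le n'
  have hb : rad n' * |x'| ≤ 1 / 4 := by nlinarith
  rcases lt_or_gt_of_ne hx0' with hneg | hpos
  · rw [abs_of_neg hneg] at key hb
    have hy : 0 < rad n' * -x' := mul_pos hr (by linarith)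
    have a1 : (i : ℝ) < i' := by linarith
    have a2 : (i' : ℝ) < i + 2 := by linarith
    have a1' : i < i' := by exact_mod_cast a1
    have a2' : i' < i + 2 := by exact_mod_cast a2
    have a3 : i' = i + 1 := by omega
    subst a3
    apply key v hv (i + 1)
    rw [abs_lt]; push_cast at hi' ⊢; constructor <;> linarith
  · rw [abs_of_pos hpos] at key hb
    have hy : 0 < rad n' * x' := mul_pos hr hpos
    have a1 : (i : ℝ) - 1 < i' := by linarith
    have a2 : (i' : ℝ) < i + 1 := by linarith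
    have a1' : i - 1 < i' := by exact_mod_cast a1
    have a2' : i' < i + 1 := by exact_mod_cast a2
    have a3 : i' = i := by omega
    subst a3
    apply key t ht i'
    rw [abs_lt]; constructor <;> linarith

lemma Lam_unlinked {s t u v : ℝ} (hst : s < t) (htu : t < u) (huv : u < v) (hvs : v < s + 2)
    (h1 : (EE s, EE u) ∈ Lam) (h2 : (EE t, EE v) ∈ Lam) : False := by
  obtain ⟨n', c', x', h', hx', hx0', hx1', e'⟩ := h1
  obtain ⟨n, c, x, h, hx, hx0, hx1, e⟩ := h2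
  simp only [Prod.mk.injEq] at e e'
  by_cases hle : n < n' ∨ (n = n' ∧ |x'| ≤ |x|)
  · exact unlinked_core h h' hx hx1 hx1' hx0' hle hst htu huv hvs e'.1 e'.2 (Or.inl e.1)
      (Or.inr e.2)
  · have hle' : n' < n ∨ (n' = n ∧ |x| ≤ |x'|) := by
      push Not at hle
      rcases lt_or_eq_of_le hle.1 with h3 | h3
      · exact Or.inl h3
      · exact Or.inr ⟨h3, (hle.2 h3.symm).le⟩
    exact unlinked_core h' h hx' hx1' hx1 hx0 hle' htu huv hvs (by linarith) e.1 e.2
      (Or.inr e'.2) (Or.inl (by rw [EE_add_two]; exact e'.1))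

lemma mem_Lam {n : ℕ} {c x : ℝ} (h : IsCen n c) (hx : x ∈ KK) (hx0 : x ≠ 0) (hx1 : |x| ≤ 1) :
    (EE (c - rad n * x), EE (c + rad n * x)) ∈ Lam := ⟨n, c, x, h, hx, hx0, hx1, rfl⟩

lemma Lam_swap {p : Circle × Circle} (hp : p ∈ Lam) : p.swap ∈ Lam := by
  obtain ⟨n, c, x, h, hx, hx0, hx1, rfl⟩ := hp
  have := mem_Lam h (KK_neg hx) (neg_ne_zero.2 hx0) (by rwa [abs_neg])
  simpa [sub_eq_add_neg] using this

lemma Lam_ne {p : Circle × Circle} (hp : p ∈ Lam) : p.1 ≠ p.2 := by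
  obtain ⟨n, c, x, h, hx, hx0, hx1, rfl⟩ := hp
  intro he
  obtain ⟨m, hm⟩ := EE_eq_iff.1 he
  have hr := rad_pos n
  have hr' := rad_le n
  have h1 : (m : ℝ) = -(rad n * x) := by linarith
  have h2 : |(m : ℝ)| < 1 := by
    rw [h1, abs_neg, abs_mul, abs_of_pos hr]; nlinarith
  have h3 : |m| < 1 := by exact_mod_cast h2
  have h4 : m = 0 := by rwa [Int.abs_lt_one_iff] at h3
  subst h4
  have : rad n * x = 0 := by push_cast at h1; linarith
  exact hx0 ((mul_eq_zero.1 this).resolve_left hr.ne')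

lemma circle_dist_eq (a b : Circle) : dist a b = ‖(a : ℂ) - b‖ := by
  rw [← dist_eq_norm]; rfl

lemma dist_EE_le (x y : ℝ) : dist (EE x) (EE y) ≤ Real.pi * |x - y| := by
  have e : EE x = EE y * EE (x - y) := by rw [← EE_add]; congr 1; ring
  rw [e, circle_dist_eq]
  rw [Circle.coe_mul, ← mul_sub_one, norm_mul, Circle.norm_coe, one_mul]
  have := Real.norm_exp_I_mul_ofReal_sub_one_le (x := Real.pi * (x - y))
  rw [Real.norm_eq_abs, abs_mul, abs_of_pos Real.pi_pos, mul_comm Complex.I] at this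
  exact this

def Fam (n : ℕ) : Set (Circle × Circle) :=
  {p | ∃ c x : ℝ, IsCen n c ∧ x ∈ KK ∧ |x| ≤ 1 ∧ p = (EE (c - rad n * x), EE (c + rad n * x))}

lemma finite_cen (n : ℕ) : {c : ℝ | IsCen n c ∧ 0 ≤ c ∧ c ≤ 2}.Finite := by
  refine ((Set.finite_Icc (0 : ℤ) (4 ^ (n + 1))).image
    (fun j : ℤ => 2 * (j : ℝ) / 4 ^ (n + 1))).subset ?_
  rintro c ⟨h, h0, h2⟩
  obtain ⟨j, hj⟩ := h.even
  have h4 : (0 : ℝ) < 4 ^ (n + 1) := by positivity
  refine ⟨j, ⟨?_, ?_⟩, ?_⟩
  · have : (0 : ℝ) ≤ j := by nlinarith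
    exact_mod_cast this
  · have : (j : ℝ) ≤ 4 ^ (n + 1) := by nlinarith
    exact_mod_cast this
  · simp only; rw [← hj]; field_simp

lemma IsCen.reduce {n : ℕ} {c : ℝ} (h : IsCen n c) :
    ∃ (c' : ℝ) (m : ℤ), IsCen n c' ∧ 0 ≤ c' ∧ c' ≤ 2 ∧ c = c' + 2 * m := by
  refine ⟨c + 2 * (-⌊c / 2⌋ : ℤ), ⌊c / 2⌋, h.add_two_mul _, ?_, ?_, by push_cast; ring⟩
  · push_cast; linarith [Int.floor_le (c / 2)]
  · push_cast; linarith [Int.lt_floor_add_one (c / 2)]

lemma isClosed_Fam (n : ℕ) : IsClosed (Fam n) := by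
  have hc : IsCompact ({c : ℝ | IsCen n c ∧ 0 ≤ c ∧ c ≤ 2} ×ˢ (KK ∩ Icc (-1 : ℝ) 1)) :=
    (finite_cen n).isCompact.prod (isCompact_Icc.inter_left isClosed_KK)
  have hf : Continuous fun q : ℝ × ℝ => (EE (q.1 - rad n * q.2), EE (q.1 + rad n * q.2)) :=
    (continuous_EE.comp (by fun_prop)).prodMk (continuous_EE.comp (by fun_prop))
  have := (hc.image hf).isClosed
  convert this using 1
  ext p
  constructor
  · rintro ⟨c, x, h, hx, hx1, rfl⟩
    obtain ⟨c', m, h', h0, h2, rfl⟩ := h.reduce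
    refine ⟨(c', x), ⟨⟨h', h0, h2⟩, hx, abs_le.1 hx1⟩, ?_⟩
    simp only [Prod.mk.injEq]
    constructor
    · rw [← EE_add_two_mul _ m]; congr 1; ring
    · rw [← EE_add_two_mul _ m]; congr 1; ring
  · rintro ⟨⟨c, x⟩, ⟨⟨h, -, -⟩, hx, hx1⟩, rfl⟩
    exact ⟨c, x, h, hx, abs_le.2 hx1, rfl⟩

lemma exists_rad_lt {δ : ℝ} (hδ : 0 < δ) : ∃ N : ℕ, ∀ n, N ≤ n → rad n < δ := by
  obtain ⟨N, hN⟩ := pow_unbounded_of_one_lt (1 / δ) (show (1 : ℝ) < 4 by norm_num)
  refine ⟨N, fun n hn => ?_⟩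
  unfold rad
  rw [one_div_lt (by positivity) hδ]
  exact hN.trans_le (pow_le_pow_right₀ (by norm_num) (by omega))

lemma Lam_closed {p : Circle × Circle} (hp : p ∈ closure Lam) (hne : p.1 ≠ p.2) : p ∈ Lam := by
  have hδ : 0 < dist p.1 p.2 := dist_pos.2 hne
  have hpi := Real.pi_pos
  obtain ⟨N, hN⟩ := exists_rad_lt (show 0 < dist p.1 p.2 / (4 * Real.pi) by positivity)
  have hcl : IsClosed ((⋃ n ∈ Finset.range N, Fam n) ∪
      {q : Circle × Circle | dist q.1 q.2 ≤ dist p.1 p.2 / 2}) :=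
    (isClosed_biUnion_finset fun n _ => isClosed_Fam n).union
      (isClosed_le (continuous_fst.dist continuous_snd) continuous_const)
  have hsub : Lam ⊆ (⋃ n ∈ Finset.range N, Fam n) ∪
      {q : Circle × Circle | dist q.1 q.2 ≤ dist p.1 p.2 / 2} := by
    rintro _ ⟨n, c, x, h, hx, hx0, hx1, rfl⟩
    by_cases hn : n < N
    · left
      simp only [mem_iUnion]
      exact ⟨n, Finset.mem_range.2 hn, c, x, h, hx, hx1, rfl⟩
    · right
      have h1 := hN n (not_lt.1 hn)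
      rw [lt_div_iff₀ (by positivity)] at h1
      have hr := rad_pos n
      refine (dist_EE_le _ _).trans ?_
      rw [show c - rad n * x - (c + rad n * x) = -2 * rad n * x by ring, abs_mul, abs_mul,
        abs_of_pos hr, abs_neg, abs_two]
      have : Real.pi * (2 * rad n * |x|) ≤ Real.pi * (2 * rad n) := by
        apply mul_le_mul_of_nonneg_left _ hpi.le
        nlinarith
      linarith
  rcases closure_minimal hsub hcl hp with h | h
  · simp only [mem_iUnion] at h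
    obtain ⟨n, -, c, x, h, hx, hx1, rfl⟩ := h
    refine ⟨n, c, x, h, hx, ?_, hx1, rfl⟩
    rintro rfl
    simp at hne
  · simp only [mem_ofPred_eq] at h
    linarith

theorem isLamination_Lam : IsLamination Lam := by
  refine ⟨⟨_, mem_Lam (isCen_int 0) one_mem_KK one_ne_zero (by simp)⟩, fun p hp => Lam_ne hp,
    fun p hp => Lam_swap hp, fun p hp hne => Lam_closed hp hne, ?_⟩
  rintro s t u v hst htu huv hvs ⟨h1, h2⟩
  have hpi := Real.pi_pos
  rw [← EE_div_pi, ← EE_div_pi] at h1 h2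
  refine Lam_unlinked (div_lt_div_of_pos_right hst hpi) (div_lt_div_of_pos_right htu hpi)
    (div_lt_div_of_pos_right huv hpi) ?_ h1 h2
  rw [div_lt_iff₀ hpi, add_mul, div_mul_cancel₀ _ hpi.ne']
  exact hvs

/-! Invariance -/

lemma sym_mem_Lam (i : ℤ) {y : ℝ} (hy : y ∈ KK) (h0 : 0 < y) (h1 : y < 1) :
    (EE (i - y), EE (i + y)) ∈ Lam := by
  have hm : ¬ |y - cen 0 0| < rad 0 := fun h => not_mem_KK_of_abs_lt h hy
  rw [rad_zero, abs_lt] at hm
  simp only [cen, Int.cast_zero, pow_zero, div_one, zero_add] at hm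
  push Not at hm
  by_cases h2 : y ≤ 1 / 4
  · have := mem_Lam (isCen_int i) (x := 4 * y) (by simpa using KK_pow_mul hy 1) (by linarith)
      (by rw [abs_le]; constructor <;> linarith)
    rw [rad_zero] at this
    convert this using 3 <;> ring
  · push Not at h2
    have h3 := hm (by linarith)
    have hy' : 4 * (y - 1) ∈ KK := by simpa using KK_pow_mul (KK_sub_int hy 1) 1
    have := mem_Lam (isCen_int (i + 1)) (x := 4 * (y - 1)) hy' (by linarith)
      (by rw [abs_le]; constructor <;> linarith)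
    rw [rad_zero] at this
    convert this using 2
    · rw [← EE_add_two]; congr 1; push_cast; ring
    · congr 1; push_cast; ring

/-- An interval of a family with centre outside the Cantor set lies in a closed gap. -/
lemma cen_subset_gap {n ν : ℕ} {k κ : ℤ} (hg : Good ν κ) (h : |cen n k - cen ν κ| < rad ν) :
    ν ≤ n ∧ |cen n k - cen ν κ| + rad n ≤ rad ν := by
  have a : ¬ |cen ν κ + rad ν - cen n k| < rad n := fun hh =>
    not_mem_KK_of_abs_lt hh hg.add_rad_mem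
  have b : ¬ |cen ν κ - rad ν - cen n k| < rad n := fun hh =>
    not_mem_KK_of_abs_lt hh hg.sub_rad_mem
  have h' := abs_lt.1 h
  rw [abs_of_pos (by linarith)] at a
  rw [abs_of_neg (by linarith)] at b
  push Not at a b
  have h2 : |cen n k - cen ν κ| + rad n ≤ rad ν := by
    rcases abs_choice (cen n k - cen ν κ) with e | e <;> rw [e] <;> linarith
  refine ⟨?_, h2⟩
  by_contra hc
  push Not at hc
  linarith [rad_lt_rad hc, abs_nonneg (cen n k - cen ν κ)]

/-- An affine map from one gap to another sends families to families. -/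
lemma affine_cen {n ν ν' : ℕ} (k κ κ' : ℤ) (hle : ν ≤ n) :
    ∃ (n' : ℕ) (k' : ℤ), cen ν' κ' + (cen n k - cen ν κ) / rad ν * rad ν' = cen n' k' ∧
      rad n / rad ν * rad ν' = rad n' := by
  obtain ⟨d, rfl⟩ : ∃ d, n = d + ν := ⟨n - ν, by omega⟩
  refine ⟨d + ν', k + 4 ^ d * (κ' - κ) , ?_, ?_⟩
  · rcases d with _ | d
    · unfold cen rad; push_cast; simp only [zero_add, pow_succ]; field_simp; ring
    · unfold cen rad; push_cast; simp only [pow_succ, pow_add]; field_simp; ring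
  · unfold rad; simp only [pow_succ, pow_add]; field_simp

end Pool.Agent.MP_939d63_gt

end

-- part MP_939d63_gt.Inv
section

/-! Invariance of the lamination. -/

set_option autoImplicit false

namespace Pool.Agent.MP_939d63_gt

open Set

lemma exists_reduce (c : ℝ) :
    ∃ j : ℤ, (0 ≤ c - 2 * j ∧ c - 2 * j ≤ 1) ∨ (0 ≤ 2 * j - c ∧ 2 * j - c ≤ 1) := by
  refine ⟨⌊(c + 1) / 2⌋, ?_⟩
  have h1 := Int.floor_le ((c + 1) / 2)
  have h2 := Int.lt_floor_add_one ((c + 1) / 2)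
  by_cases h : 0 ≤ c - 2 * (⌊(c + 1) / 2⌋ : ℤ)
  · left; constructor <;> linarith
  · right; push Not at h; constructor <;> linarith

lemma spine_add_two_mul (φ : Gap0 ≃o Gap0) (x : ℝ) (j : ℤ) :
    spine φ (x + 2 * j) = spine φ x + 2 * j := Lift.add_int (spineHom φ) x j

lemma spine_family0 (φ : Gap0 ≃o Gap0) {n : ℕ} {k : ℤ} (h0 : 0 ≤ cen n k) (h1 : cen n k ≤ 1) :
    ∃ (n' : ℕ) (k' : ℤ), ∀ x : ℝ, |x| ≤ 1 →
      spine φ (cen n k + rad n * x) = cen n' k' + rad n' * x := by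
  have hc : cen n k ∉ KK := not_mem_KK_of_abs_lt (n := n) (k := k) (by simpa using rad_pos n)
  obtain ⟨q, hq⟩ := Gap0.exists_of_not_mem hc h0 h1
  obtain ⟨hle, hsub⟩ := cen_subset_gap q.good hq
  obtain ⟨n', k', e1, e2⟩ := affine_cen (ν' := (φ q).1.1) k q.1.2 (φ q).1.2 hle
  refine ⟨n', k', fun x hx => ?_⟩
  have hr := q.r_pos
  have hrn := rad_pos n
  have hs : (cen n k + rad n * x - q.c) / q.r ∈ Icc (-1 : ℝ) 1 := by
    rw [mem_Icc, ← abs_le, abs_div, abs_of_pos hr, div_le_one hr]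
    have : |cen n k + rad n * x - q.c| ≤ |cen n k - q.c| + |rad n * x| := by
      rw [show cen n k + rad n * x - q.c = (cen n k - q.c) + rad n * x by ring]
      exact abs_add_le _ _
    rw [abs_mul, abs_of_pos hrn] at this
    change |cen n k - q.c| + rad n ≤ q.r at hsub
    nlinarith
  have e : cen n k + rad n * x = uu q ((cen n k + rad n * x - q.c) / q.r) := by
    unfold uu; field_simp; ring
  rw [e, spine_uu φ q hs, ← e1, ← e2]
  unfold uu Gap0.c Gap0.r
  have := rad_pos q.1.1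
  field_simp; ring

lemma spine_family (φ : Gap0 ≃o Gap0) (n : ℕ) (k : ℤ) :
    ∃ (n' : ℕ) (c' : ℝ), IsCen n' c' ∧ ∀ x : ℝ, |x| ≤ 1 →
      spine φ (cen n k + rad n * x) = c' + rad n' * x := by
  obtain ⟨j, h | h⟩ := exists_reduce (cen n k)
  · have e : cen n k - 2 * j = cen n (k + 4 ^ n * (-2 * j)) := by
      rw [← cen_add_int]; push_cast; ring
    rw [e] at h
    obtain ⟨n', k', H⟩ := spine_family0 φ h.1 h.2
    refine ⟨n', cen n' k' + 2 * j, (isCen_cen _ _).add_two_mul j, fun x hx => ?_⟩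
    have := spine_add_two_mul φ (cen n (k + 4 ^ n * (-2 * j)) + rad n * x) j
    rw [H x hx, ← e] at this
    rw [show cen n k + rad n * x = cen n k - 2 * j + rad n * x + 2 * j by ring, this]; ring
  · have e : 2 * j - cen n k = cen n (-k - 1 + 4 ^ n * (2 * j)) := by
      rw [← cen_add_int, ← cen_neg]; push_cast; ring
    rw [e] at h
    obtain ⟨n', k', H⟩ := spine_family0 φ h.1 h.2
    refine ⟨n', -cen n' k' + 2 * j, (isCen_cen _ _).neg.add_two_mul j, fun x hx => ?_⟩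
    have := spine_reflect φ j (cen n (-k - 1 + 4 ^ n * (2 * j)) + rad n * (-x))
    rw [H (-x) (by rwa [abs_neg]), ← e] at this
    rw [show cen n k + rad n * x = 2 * j - (2 * j - cen n k + rad n * (-x)) by ring, this]; ring

def Pres (F : Lift) : Prop := ∀ p ∈ Lam, Prod.map (desc F) (desc F) p ∈ Lam

lemma pres_spine_aux (φ : Gap0 ≃o Gap0) (i : ℤ) {x : ℝ} (hx : x ∈ KK) (hx0 : 0 < x)
    (hx1 : x ≤ 1) : (EE (spine φ (i - rad 0 * x)), EE (spine φ (i + rad 0 * x))) ∈ Lam := by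
  rw [rad_zero]
  have hy : 1 / 4 * x ∈ KK := by
    refine KK_of_four_mul (by convert hx using 1; ring) 0 ?_
    rw [abs_le]; constructor <;> push_cast <;> linarith
  have h1 : (i : ℝ) + 1 / 4 * x ∈ KK := by rw [add_comm]; exact KK_add_int hy i
  have h2 := KK_sub_int (spine_mem_KK φ h1) i
  have h3 : spine φ i < spine φ (i + 1 / 4 * x) := (spine φ).strictMono (by linarith)
  have h4 : spine φ (i + 1 / 4 * x) < spine φ ((i + 1 : ℤ) : ℝ) :=
    (spine φ).strictMono (by push_cast; linarith)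
  rw [spine_int] at h3 h4
  push_cast at h4
  have := sym_mem_Lam i h2 (by linarith) (by linarith)
  have e := spine_reflect φ i (i + 1 / 4 * x)
  rw [show 2 * (i : ℝ) - (i + 1 / 4 * x) = i - 1 / 4 * x by ring] at e
  rw [e]
  convert this using 3 <;> ring

lemma pres_spine (φ : Gap0 ≃o Gap0) : Pres (spineHom φ) := by
  rintro _ ⟨n, c, x, h, hx, hx0, hx1, rfl⟩
  simp only [Prod.map, desc_EE, spineHom_apply]
  obtain ⟨k, rfl | ⟨rfl, rfl⟩⟩ := h
  · obtain ⟨n', c', h', H⟩ := spine_family φ n k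
    have e1 := H x hx1
    have e2 := H (-x) (by rwa [abs_neg])
    rw [mul_neg, mul_neg, ← sub_eq_add_neg, ← sub_eq_add_neg] at e2
    rw [e1, e2]
    exact mem_Lam h' hx hx0 hx1
  · rcases lt_or_gt_of_ne hx0 with hneg | hpos
    · have := Lam_swap (pres_spine_aux φ k (KK_neg hx) (by linarith)
        (by linarith [(abs_le.1 hx1).1]))
      simpa [sub_eq_add_neg] using this
    · exact pres_spine_aux φ k hx hpos (abs_le.1 hx1).2

/-- The quarter turn. -/
noncomputable def RR : Lift := ⟨OrderIso.addRight (1 / 2), fun x => by simp; ring⟩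

lemma RR_apply (x : ℝ) : RR.1 x = x + 1 / 2 := rfl

lemma RR_inv_apply (x : ℝ) : (RR⁻¹).1 x = x - 1 / 2 := by
  apply RR.1.injective
  change RR.1 (RR.1⁻¹ x) = _
  rw [RelIso.apply_inv_self, RR_apply]; ring

lemma pres_RR : Pres RR := by
  rintro _ ⟨n, c, x, h, hx, hx0, hx1, rfl⟩
  simp only [Prod.map, desc_EE, RR_apply]
  have := mem_Lam (h.add_half 1) hx hx0 hx1
  convert this using 3 <;> push_cast <;> ring

lemma pres_RR_inv : Pres RR⁻¹ := by
  rintro _ ⟨n, c, x, h, hx, hx0, hx1, rfl⟩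
  simp only [Prod.map, desc_EE, RR_inv_apply]
  have := mem_Lam (h.add_half (-1)) hx hx0 hx1
  convert this using 3 <;> push_cast <;> ring

lemma Pres.mul {F G : Lift} (hF : Pres F) (hG : Pres G) : Pres (F * G) := by
  intro p hp
  have := hF _ (hG p hp)
  rw [map_mul]; exact this

/-- The lifts preserving the lamination. -/
def Stab : Subgroup Lift where
  carrier := {F | Pres F ∧ Pres F⁻¹}
  one_mem' := by
    have : Pres 1 := fun p hp => by rw [map_one]; exact hp
    exact ⟨this, by rwa [inv_one]⟩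
  mul_mem' := by
    intro F G hF hG
    exact ⟨hF.1.mul hG.1, by rw [mul_inv_rev]; exact hG.2.mul hF.2⟩
  inv_mem' := by
    intro F hF
    exact ⟨hF.2, by rw [inv_inv]; exact hF.1⟩

lemma spineHom_mem_Stab (φ : Gap0 ≃o Gap0) : spineHom φ ∈ Stab :=
  ⟨pres_spine φ, by rw [← map_inv]; exact pres_spine _⟩

lemma RR_mem_Stab : RR ∈ Stab := ⟨pres_RR, pres_RR_inv⟩

lemma image_Lam_of_mem_Stab {F : Lift} (hF : F ∈ Stab) :
    Prod.map (desc F) (desc F) '' Lam = Lam := by
  apply Subset.antisymm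
  · rintro _ ⟨p, hp, rfl⟩
    exact hF.1 p hp
  · intro p hp
    refine ⟨_, hF.2 p hp, ?_⟩
    rw [map_inv]
    ext <;> simp [Homeomorph.inv_apply]

end Pool.Agent.MP_939d63_gt

end

-- part MP_939d63_gt.Trap
section

/-! Plane geometry of an inscribed isosceles trapezoid. -/

set_option autoImplicit false

namespace Pool.Agent.MP_939d63_gt

open Set Real

noncomputable def XX (c : ℝ) (z : ℂ) : ℝ := z.re * cos (π * c) + z.im * sin (π * c)

noncomputable def YY (c : ℝ) (z : ℂ) : ℝ := z.im * cos (π * c) - z.re * sin (π * c)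

lemma XX_EE (c s : ℝ) : XX c (EE s) = cos (π * (s - c)) := by
  unfold XX; rw [EE_re, EE_im, mul_sub, cos_sub]

lemma YY_EE (c s : ℝ) : YY c (EE s) = sin (π * (s - c)) := by
  unfold YY; rw [EE_re, EE_im, mul_sub, sin_sub]

lemma XX_add (c d : ℝ) (z : ℂ) : XX (c + d) z = XX c z * cos (π * d) + YY c z * sin (π * d) := by
  unfold XX YY; rw [mul_add π, cos_add, sin_add]; ring

lemma XX_sub (c d : ℝ) (z : ℂ) : XX (c - d) z = XX c z * cos (π * d) - YY c z * sin (π * d) := by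
  unfold XX YY; rw [mul_sub π, cos_sub, sin_sub]; ring

lemma XX_sq_add (c : ℝ) (z : ℂ) : XX c z ^ 2 + YY c z ^ 2 = ‖z‖ ^ 2 := by
  unfold XX YY
  rw [Complex.sq_norm, Complex.normSq_apply]
  have := sin_sq_add_cos_sq (π * c)
  linear_combination (z.re ^ 2 + z.im ^ 2) * this

lemma XX_le_norm (c : ℝ) (z : ℂ) : |XX c z| ≤ ‖z‖ := by
  apply abs_le_of_sq_le_sq _ (norm_nonneg z)
  nlinarith [XX_sq_add c z, sq_nonneg (YY c z)]

lemma ext_XY {c : ℝ} {z w : ℂ} (h1 : XX c z = XX c w) (h2 : YY c z = YY c w) : z = w := by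
  unfold XX at h1
  unfold YY at h2
  have := sin_sq_add_cos_sq (π * c)
  apply Complex.ext
  · linear_combination cos (π * c) * h1 - sin (π * c) * h2 - (z.re - w.re) * this
  · linear_combination sin (π * c) * h1 + cos (π * c) * h2 - (z.im - w.im) * this

lemma XX_comb (c a b : ℝ) (z w : ℂ) : XX c (a • z + b • w) = a * XX c z + b * XX c w := by
  unfold XX; simp; ring

lemma YY_comb (c a b : ℝ) (z w : ℂ) : YY c (a • z + b • w) = a * YY c z + b * YY c w := by
  unfold YY; simp; ring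

lemma continuous_XX (c : ℝ) : Continuous (XX c) := by unfold XX; fun_prop

def Qo (c r₁ r₂ : ℝ) : Set ℂ :=
  {z | XX c z < cos (π * r₁) ∧ cos (π * r₂) < XX c z ∧
    XX (c + (r₁ + r₂) / 2) z < cos (π * ((r₂ - r₁) / 2)) ∧
    XX (c - (r₁ + r₂) / 2) z < cos (π * ((r₂ - r₁) / 2))}

def Qc (c r₁ r₂ : ℝ) : Set ℂ :=
  {z | XX c z ≤ cos (π * r₁) ∧ cos (π * r₂) ≤ XX c z ∧
    XX (c + (r₁ + r₂) / 2) z ≤ cos (π * ((r₂ - r₁) / 2)) ∧
    XX (c - (r₁ + r₂) / 2) z ≤ cos (π * ((r₂ - r₁) / 2))}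

lemma isOpen_Qo (c r₁ r₂ : ℝ) : IsOpen (Qo c r₁ r₂) :=
  (isOpen_lt (continuous_XX _) continuous_const).inter
    ((isOpen_lt continuous_const (continuous_XX _)).inter
      ((isOpen_lt (continuous_XX _) continuous_const).inter
        (isOpen_lt (continuous_XX _) continuous_const)))

lemma isClosed_Qc (c r₁ r₂ : ℝ) : IsClosed (Qc c r₁ r₂) :=
  (isClosed_le (continuous_XX _) continuous_const).inter
    ((isClosed_le continuous_const (continuous_XX _)).inter
      ((isClosed_le (continuous_XX _) continuous_const).inter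
        (isClosed_le (continuous_XX _) continuous_const)))

lemma Qo_subset_Qc (c r₁ r₂ : ℝ) : Qo c r₁ r₂ ⊆ Qc c r₁ r₂ :=
  fun _ h => ⟨h.1.le, h.2.1.le, h.2.2.1.le, h.2.2.2.le⟩

lemma comb_mem_Qo {c r₁ r₂ : ℝ} {z w : ℂ} (hz : z ∈ Qo c r₁ r₂) (hw : w ∈ Qc c r₁ r₂) {a b : ℝ}
    (ha : 0 < a) (hb : 0 ≤ b) (hab : a + b = 1) : a • z + b • w ∈ Qo c r₁ r₂ := by
  obtain ⟨h1, h2, h3, h4⟩ := hz
  obtain ⟨g1, g2, g3, g4⟩ := hw
  obtain rfl : b = 1 - a := by linarith
  refine ⟨?_, ?_, ?_, ?_⟩ <;> rw [XX_comb] <;> nlinarith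

lemma convex_Qo (c r₁ r₂ : ℝ) : Convex ℝ (Qo c r₁ r₂) := by
  intro z hz w hw a b ha hb hab
  rcases ha.eq_or_lt with rfl | ha'
  · obtain rfl : b = 1 := by linarith
    simpa using hw
  · exact comb_mem_Qo hz (Qo_subset_Qc _ _ _ hw) ha' hb hab

lemma convex_Qc (c r₁ r₂ : ℝ) : Convex ℝ (Qc c r₁ r₂) := by
  rintro z ⟨h1, h2, h3, h4⟩ w ⟨g1, g2, g3, g4⟩ a b ha hb hab
  obtain rfl : b = 1 - a := by linarith
  refine ⟨?_, ?_, ?_, ?_⟩ <;> rw [XX_comb] <;> nlinarith

lemma cos_le_cos_of_abs_le {x σ : ℝ} (h : |x| ≤ σ) (hσ : σ ≤ 1) : cos (π * σ) ≤ cos (π * x) := by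
  have hpi := pi_pos
  rw [← cos_abs (π * x), abs_mul, abs_of_pos hpi]
  apply cos_le_cos_of_nonneg_of_le_pi (by positivity) (by nlinarith)
  exact mul_le_mul_of_nonneg_left h hpi.le

lemma cos_le_cos_of_le_abs {x σ : ℝ} (h : σ ≤ |x|) (hσ : 0 ≤ σ) (hx : |x| ≤ 1) :
    cos (π * x) ≤ cos (π * σ) := by
  have hpi := pi_pos
  rw [← cos_abs (π * x), abs_mul, abs_of_pos hpi]
  apply cos_le_cos_of_nonneg_of_le_pi (by positivity) (by nlinarith)
  exact mul_le_mul_of_nonneg_left h hpi.le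

lemma cos_lt_cos_pi {x y : ℝ} (hx : 0 ≤ x) (hxy : x < y) (hy : y ≤ 1) :
    cos (π * y) < cos (π * x) := by
  have hpi := pi_pos
  apply cos_lt_cos_of_nonneg_of_le_pi (by positivity) (by nlinarith)
  exact mul_lt_mul_of_pos_left hxy hpi

lemma sin_pi_mul_pos {x : ℝ} (h0 : 0 < x) (h1 : x < 1) : 0 < sin (π * x) := by
  have hpi := pi_pos
  exact sin_pos_of_pos_of_lt_pi (by positivity) (by nlinarith)

section
variable {c r₁ r₂ : ℝ} (h0 : 0 < r₁) (h12 : r₁ < r₂) (h1 : r₂ < 1)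
include h0 h12 h1

omit h0 h12 h1 in
lemma trap_id₁ : cos (π * r₁) * cos (π * ((r₁ + r₂) / 2)) + sin (π * r₁) * sin (π * ((r₁ + r₂) / 2))
    = cos (π * ((r₂ - r₁) / 2)) := by
  rw [← cos_sub, ← cos_neg]; congr 1; ring

omit h0 h12 h1 in
lemma trap_id₂ : cos (π * r₂) * cos (π * ((r₁ + r₂) / 2)) + sin (π * r₂) * sin (π * ((r₁ + r₂) / 2))
    = cos (π * ((r₂ - r₁) / 2)) := by
  rw [← cos_sub]; congr 1; ring

lemma trap_param {z : ℂ} (hz : z ∈ Qc c r₁ r₂) :
    ∃ l m : ℝ, 0 ≤ l ∧ l ≤ 1 ∧ 0 ≤ m ∧ m ≤ 1 ∧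
      z = (1 - m) • ((1 - l) • (EE (c + r₁) : ℂ) + l • (EE (c + r₂) : ℂ)) +
        m • ((1 - l) • (EE (c - r₁) : ℂ) + l • (EE (c - r₂) : ℂ)) ∧
      (z ∉ Qo c r₁ r₂ → l = 0 ∨ l = 1 ∨ m = 0 ∨ m = 1) := by
  obtain ⟨g1, g2, g3, g4⟩ := hz
  have hA : cos (π * r₂) < cos (π * r₁) := cos_lt_cos_pi h0.le h12 h1.le
  have hS1 := sin_pi_mul_pos h0 (h12.trans h1)
  have hS2 := sin_pi_mul_pos (h0.trans h12) h1
  have hSd := sin_pi_mul_pos (x := (r₁ + r₂) / 2) (by linarith) (by linarith)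
  have i1 := trap_id₁ (r₁ := r₁) (r₂ := r₂)
  have i2 := trap_id₂ (r₁ := r₁) (r₂ := r₂)
  rw [XX_add] at g3
  rw [XX_sub] at g4
  set A1 := cos (π * r₁) with hA1
  set A2 := cos (π * r₂) with hA2
  set S1 := sin (π * r₁) with hS1'
  set S2 := sin (π * r₂) with hS2'
  set Cd := cos (π * ((r₁ + r₂) / 2)) with hCd
  set Sd := sin (π * ((r₁ + r₂) / 2)) with hSd'
  set Cs := cos (π * ((r₂ - r₁) / 2)) with hCs
  have hd : 0 < A1 - A2 := by linarith
  set l := (A1 - XX c z) / (A1 - A2) with hl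
  have hl0 : 0 ≤ l := div_nonneg (by linarith) hd.le
  have hl1 : l ≤ 1 := (div_le_one hd).2 (by linarith)
  have hX : XX c z = (1 - l) * A1 + l * A2 := by rw [hl]; field_simp; ring
  set T := (1 - l) * S1 + l * S2 with hT
  have hT0 : 0 < T := by
    rcases hl0.eq_or_lt with h | h
    · rw [hT, ← h]; linarith
    · rw [hT]; nlinarith
  have hid : XX c z * Cd + T * Sd = Cs := by
    rw [hX, hT]; linear_combination (1 - l) * i1 + l * i2
  have hY1 : YY c z ≤ T := by
    by_contra hc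
    push Not at hc
    nlinarith
  have hY2 : -T ≤ YY c z := by
    by_contra hc
    push Not at hc
    nlinarith
  set m := (T - YY c z) / (2 * T) with hm
  have hY : YY c z = (1 - m) * T + m * (-T) := by rw [hm]; field_simp; ring
  refine ⟨l, m, hl0, hl1, div_nonneg (by linarith) (by linarith),
    (div_le_one (by linarith)).2 (by linarith), ?_, ?_⟩
  · apply ext_XY (c := c)
    · rw [XX_comb, XX_comb, XX_comb, XX_EE, XX_EE, XX_EE, XX_EE]
      simp only [add_sub_cancel_left, sub_sub_cancel_left, mul_neg, cos_neg]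
      rw [hX]; ring
    · rw [YY_comb, YY_comb, YY_comb, YY_EE, YY_EE, YY_EE, YY_EE]
      simp only [add_sub_cancel_left, sub_sub_cancel_left, mul_neg, sin_neg]
      rw [hY, hT]; ring
  · intro hz
    by_contra hc
    push Not at hc
    obtain ⟨c1, c2, c3, c4⟩ := hc
    apply hz
    refine ⟨lt_of_le_of_ne g1 ?_, lt_of_le_of_ne g2 ?_, ?_, ?_⟩
    · intro h; apply c1; rw [hl, h, sub_self, zero_div]
    · intro h; apply c2; rw [hl, ← h, div_self hd.ne']
    · rw [XX_add]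
      refine lt_of_le_of_ne g3 fun h => c3 ?_
      have : YY c z = T := by
        have : (YY c z - T) * Sd = 0 := by linear_combination h - hid
        rcases mul_eq_zero.1 this with h | h
        · linarith
        · linarith
      rw [hm, this, sub_self, zero_div]
    · rw [XX_sub]
      refine lt_of_le_of_ne g4 fun h => c4 ?_
      have : YY c z = -T := by
        have : (YY c z + T) * Sd = 0 := by linear_combination hid - h
        rcases mul_eq_zero.1 this with h | h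
        · linarith
        · linarith
      rw [hm, this]; field_simp; ring

lemma vertices_mem_Qc : (EE (c + r₁) : ℂ) ∈ Qc c r₁ r₂ ∧ (EE (c + r₂) : ℂ) ∈ Qc c r₁ r₂ ∧
    (EE (c - r₁) : ℂ) ∈ Qc c r₁ r₂ ∧ (EE (c - r₂) : ℂ) ∈ Qc c r₁ r₂ := by
  have hA : cos (π * r₂) < cos (π * r₁) := cos_lt_cos_pi h0.le h12 h1.le
  have hS1 := sin_pi_mul_pos h0 (h12.trans h1)
  have hS2 := sin_pi_mul_pos (h0.trans h12) h1
  have hSd := sin_pi_mul_pos (x := (r₁ + r₂) / 2) (by linarith) (by linarith)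
  have i1 := trap_id₁ (r₁ := r₁) (r₂ := r₂)
  have i2 := trap_id₂ (r₁ := r₁) (r₂ := r₂)
  have p1 := mul_pos hS1 hSd
  have p2 := mul_pos hS2 hSd
  simp only [Qc, mem_ofPred_eq, XX_add, XX_sub, XX_EE, YY_EE, add_sub_cancel_left,
    sub_sub_cancel_left, mul_neg, cos_neg, sin_neg]
  refine ⟨⟨?_, ?_, ?_, ?_⟩, ⟨?_, ?_, ?_, ?_⟩, ⟨?_, ?_, ?_, ?_⟩, ⟨?_, ?_, ?_, ?_⟩⟩ <;> linarith

lemma Qc_eq_convexHull : Qc c r₁ r₂ = convexHull ℝ
    {(EE (c + r₁) : ℂ), (EE (c + r₂) : ℂ), (EE (c - r₁) : ℂ), (EE (c - r₂) : ℂ)} := by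
  apply Subset.antisymm
  · intro z hz
    obtain ⟨l, m, hl0, hl1, hm0, hm1, rfl, -⟩ := trap_param h0 h12 h1 hz
    have hcv := convex_convexHull ℝ
      ({(EE (c + r₁) : ℂ), (EE (c + r₂) : ℂ), (EE (c - r₁) : ℂ), (EE (c - r₂) : ℂ)} : Set ℂ)
    refine hcv (hcv (subset_convexHull _ _ (by simp)) (subset_convexHull _ _ (by simp))
      (by linarith) hl0 (by ring)) (hcv (subset_convexHull _ _ (by simp))
      (subset_convexHull _ _ (by simp)) (by linarith) hl0 (by ring)) (by linarith) hm0 (by ring)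
  · apply convexHull_min _ (convex_Qc _ _ _)
    obtain ⟨a, b, d, e⟩ := vertices_mem_Qc (c := c) h0 h12 h1
    rintro z (rfl | rfl | rfl | rfl) <;> assumption

lemma Qo_nonempty : (Qo c r₁ r₂).Nonempty := by
  by_contra hc
  have hA : cos (π * r₂) < cos (π * r₁) := cos_lt_cos_pi h0.le h12 h1.le
  have hS1 := sin_pi_mul_pos h0 (h12.trans h1)
  have hS2 := sin_pi_mul_pos (h0.trans h12) h1
  have hSd := sin_pi_mul_pos (x := (r₁ + r₂) / 2) (by linarith) (by linarith)
  have i1 := trap_id₁ (r₁ := r₁) (r₂ := r₂)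
  have i2 := trap_id₂ (r₁ := r₁) (r₂ := r₂)
  have p1 := mul_pos hS1 hSd
  have p2 := mul_pos hS2 hSd
  apply hc
  refine ⟨(1 / 2 : ℝ) • (EE (c + r₁) : ℂ) + (1 / 2 : ℝ) • (EE (c - r₂) : ℂ), ?_⟩
  simp only [Qo, mem_ofPred_eq, XX_add, XX_sub, XX_comb, YY_comb, XX_EE, YY_EE, add_sub_cancel_left,
    sub_sub_cancel_left, mul_neg, cos_neg, sin_neg]
  refine ⟨?_, ?_, ?_, ?_⟩ <;> linarith

lemma closure_Qo : closure (Qo c r₁ r₂) = Qc c r₁ r₂ := by
  apply Subset.antisymm (closure_minimal (Qo_subset_Qc _ _ _) (isClosed_Qc _ _ _))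
  intro w hw
  obtain ⟨z, hz⟩ := Qo_nonempty (c := c) h0 h12 h1
  have h2 : openSegment ℝ z w ⊆ Qo c r₁ r₂ := by
    rintro _ ⟨a, b, ha, hb, hab, rfl⟩
    exact comb_mem_Qo hz hw ha hb.le hab
  exact closure_mono h2 (segment_subset_closure_openSegment (right_mem_segment ℝ z w))

lemma Qo_subset_ball : Qo c r₁ r₂ ⊆ Metric.ball 0 1 := by
  rw [← interior_closedBall (0 : ℂ) one_ne_zero]
  apply interior_maximal _ (isOpen_Qo _ _ _)
  refine (Qo_subset_Qc _ _ _).trans ?_
  rw [Qc_eq_convexHull h0 h12 h1]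
  apply convexHull_min _ (convex_closedBall _ _)
  rintro z (rfl | rfl | rfl | rfl) <;> simp

/-- Both points lie on one of the four closed arcs. -/
def SameArc (c r₁ r₂ : ℝ) (z w : ℂ) : Prop :=
  (cos (π * r₁) ≤ XX c z ∧ cos (π * r₁) ≤ XX c w) ∨
  (XX c z ≤ cos (π * r₂) ∧ XX c w ≤ cos (π * r₂)) ∨
  (cos (π * ((r₂ - r₁) / 2)) ≤ XX (c + (r₁ + r₂) / 2) z ∧
    cos (π * ((r₂ - r₁) / 2)) ≤ XX (c + (r₁ + r₂) / 2) w) ∨
  (cos (π * ((r₂ - r₁) / 2)) ≤ XX (c - (r₁ + r₂) / 2) z ∧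
    cos (π * ((r₂ - r₁) / 2)) ≤ XX (c - (r₁ + r₂) / 2) w)

lemma Qo_subset_offLeaves {L : Set (Circle × Circle)}
    (hl : ∀ p ∈ L, SameArc c r₁ r₂ p.1 p.2) : Qo c r₁ r₂ ⊆ OffLeaves L := by
  intro z hz
  refine ⟨Qo_subset_ball h0 h12 h1 hz, ?_⟩
  simp only [mem_iUnion, not_exists]
  rintro p hp ⟨a, b, ha, hb, hab, rfl⟩
  obtain ⟨g1, g2, g3, g4⟩ := hz
  rw [XX_comb] at g1 g2 g3 g4
  obtain rfl : b = 1 - a := by linarith
  rcases hl p hp with h | h | h | h <;> nlinarith [h.1, h.2]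

lemma component_eq_Qo {L : Set (Circle × Circle)}
    (hl : ∀ p ∈ L, SameArc c r₁ r₂ p.1 p.2)
    (s1 : (EE (c + r₁), EE (c - r₁)) ∈ L) (s2 : (EE (c + r₂), EE (c - r₂)) ∈ L)
    (s3 : (EE (c + r₁), EE (c + r₂)) ∈ L) (s4 : (EE (c - r₁), EE (c - r₂)) ∈ L)
    {z : ℂ} (hz : z ∈ Qo c r₁ r₂) : connectedComponentIn (OffLeaves L) z = Qo c r₁ r₂ := by
  have hsub := Qo_subset_offLeaves h0 h12 h1 hl
  apply Subset.antisymm
  · have hpc : IsPreconnected (connectedComponentIn (OffLeaves L) z) :=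
      isPreconnected_connectedComponentIn
    refine hpc.subset_left_of_subset_union (isOpen_Qo _ _ _) (isClosed_Qc c r₁ r₂).isOpen_compl
      (disjoint_compl_right.mono_left (Qo_subset_Qc _ _ _)) ?_
      ⟨z, mem_connectedComponentIn (hsub hz), hz⟩
    intro w hw
    have hw' := (connectedComponentIn_subset _ _ hw).2
    by_contra hc
    simp only [mem_union, mem_compl_iff, not_or, not_not] at hc
    obtain ⟨l, m, hl0, hl1, hm0, hm1, e, h⟩ := trap_param h0 h12 h1 hc.2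
    apply hw'
    simp only [mem_iUnion]
    rcases h hc.1 with rfl | rfl | rfl | rfl
    · exact ⟨_, s1, 1 - m, m, by linarith, hm0, by ring, by rw [e]; simp⟩
    · exact ⟨_, s2, 1 - m, m, by linarith, hm0, by ring, by rw [e]; simp⟩
    · exact ⟨_, s3, 1 - l, l, by linarith, hl0, by ring, by rw [e]; simp⟩
    · exact ⟨_, s4, 1 - l, l, by linarith, hl0, by ring, by rw [e]; simp⟩
  · exact (convex_Qo _ _ _).isPreconnected.subset_connectedComponentIn hz hsub

/-- If no vertex lies strictly between `s` and `t`, both lie on one of the four arcs. -/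
lemma sameArc_of_no_vertex {s t : ℝ} (hst : s ≤ t)
    (hv : ∀ (j : ℤ) (e : ℝ), e = r₁ ∨ e = r₂ ∨ e = -r₁ ∨ e = -r₂ →
      ¬ (s < c + e + 2 * j ∧ c + e + 2 * j < t)) :
    SameArc c r₁ r₂ (EE s) (EE t) := by
  set j := ⌊(s - c + r₂) / 2⌋ with hj
  have f1 : (j : ℝ) ≤ (s - c + r₂) / 2 := Int.floor_le _
  have f2 : (s - c + r₂) / 2 < j + 1 := Int.lt_floor_add_one _
  have es : EE s = EE (s - 2 * j) := EE_eq_iff.2 ⟨j, by ring⟩
  have et : EE t = EE (t - 2 * j) := EE_eq_iff.2 ⟨j, by ring⟩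
  rw [es, et]
  unfold SameArc
  simp only [XX_EE]
  have v1 := hv j (-r₁) (by simp)
  have v2 := hv j r₁ (by simp)
  have v3 := hv j r₂ (by simp)
  have v4 := hv (j + 1) (-r₂) (by simp)
  push_cast at v4
  push Not at v1 v2 v3 v4
  by_cases a1 : s < c + -r₁ + 2 * j
  · have := v1 a1
    right; right; right
    constructor <;> apply cos_le_cos_of_abs_le _ (by linarith) <;> rw [abs_le] <;>
      constructor <;> linarith
  by_cases a2 : s < c + r₁ + 2 * j
  · have := v2 a2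
    left
    constructor <;> apply cos_le_cos_of_abs_le _ (by linarith) <;> rw [abs_le] <;>
      constructor <;> linarith
  by_cases a3 : s < c + r₂ + 2 * j
  · have := v3 a3
    right; right; left
    constructor <;> apply cos_le_cos_of_abs_le _ (by linarith) <;> rw [abs_le] <;>
      constructor <;> linarith
  · have := v4 (by linarith)
    right; left
    have key : ∀ x : ℝ, r₂ ≤ x → x ≤ 2 - r₂ → cos (π * x) ≤ cos (π * r₂) := by
      intro x hx1 hx2
      have h3 := cos_le_cos_of_abs_le (x := x - 1) (σ := 1 - r₂)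
        (by rw [abs_le]; constructor <;> linarith) (by linarith)
      rw [mul_sub, mul_sub, mul_one, cos_pi_sub, cos_sub_pi] at h3
      linarith
    constructor <;> apply key <;> linarith

/-- A point outside the inner big arc. -/
lemma XX_le_of_outside {s : ℝ} (hs : ∀ j : ℤ, ¬ |s - (c + 2 * j)| < r₂) :
    XX c (EE s) ≤ cos (π * r₂) := by
  obtain ⟨j, hj⟩ : ∃ j : ℤ, |s - (c + 2 * j)| ≤ 1 := by
    refine ⟨⌊(s - c + 1) / 2⌋, ?_⟩
    have f1 := Int.floor_le ((s - c + 1) / 2)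
    have f2 := Int.lt_floor_add_one ((s - c + 1) / 2)
    rw [abs_le]; constructor <;> linarith
  have es : EE s = EE (s - 2 * j) := EE_eq_iff.2 ⟨j, by ring⟩
  rw [es, XX_EE, show s - 2 * j - c = s - (c + 2 * j) by ring]
  exact cos_le_cos_of_le_abs (not_lt.1 (hs j)) (by linarith) hj

end

end Pool.Agent.MP_939d63_gt

end

-- part MP_939d63_gt.Square
section

/-! The gaps of the lamination are quadrilaterals. -/

set_option autoImplicit false

namespace Pool.Agent.MP_939d63_gt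

open Set Real

def IsSq (c r₁ r₂ : ℝ) : Prop :=
  (c = 0 ∧ r₁ = 1 / 4 ∧ r₂ = 3 / 4) ∨
    ∃ (n : ℕ) (q : Gap0), IsCen n c ∧ r₁ = rad n * (q.c - q.r) ∧ r₂ = rad n * (q.c + q.r)

lemma IsSq.bounds {c r₁ r₂ : ℝ} (h : IsSq c r₁ r₂) : 0 < r₁ ∧ r₁ < r₂ ∧ r₂ < 1 := by
  rcases h with ⟨-, rfl, rfl⟩ | ⟨n, q, -, rfl, rfl⟩
  · norm_num
  · have := rad_pos n
    have := rad_le n
    have := q.sub_pos
    have := q.r_pos
    have := q.add_lt_one
    refine ⟨by positivity, by nlinarith, by nlinarith⟩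

lemma IsCen.child {n : ℕ} {c : ℝ} (h : IsCen n c) (ν : ℕ) (κ : ℤ) :
    ∃ κ' : ℤ, c + rad n * cen ν κ = cen (n + 1 + ν) κ' := by
  obtain ⟨j, hj⟩ := h.even
  refine ⟨κ + 2 * j * 4 ^ ν, ?_⟩
  have h4 : (0 : ℝ) < 4 ^ (n + 1) := by positivity
  have hc : c = 2 * j / 4 ^ (n + 1) := by rw [← hj]; field_simp
  rw [hc]
  unfold rad cen
  push_cast
  rw [pow_add 4 (n + 1) ν]; field_simp; ring

lemma IsCen.child_add {n : ℕ} {c : ℝ} (h : IsCen n c) (q : Gap0) :
    IsCen (n + 1 + q.1.1) (c + rad n * q.c) := by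
  obtain ⟨κ, hκ⟩ := h.child q.1.1 q.1.2
  exact ⟨κ, Or.inl hκ⟩

lemma IsCen.child_sub {n : ℕ} {c : ℝ} (h : IsCen n c) (q : Gap0) :
    IsCen (n + 1 + q.1.1) (c - rad n * q.c) := by
  have := (h.neg.child_add q).neg
  convert this using 1; ring

lemma rad_child (n : ℕ) (q : Gap0) : rad (n + 1 + q.1.1) = rad n * q.r := (rad_mul_rad _ _).symm

lemma neg_one_mem_KK : (-1 : ℝ) ∈ KK := KK_neg one_mem_KK

lemma IsSq.sides {c r₁ r₂ : ℝ} (h : IsSq c r₁ r₂) :
    (EE (c + r₁), EE (c - r₁)) ∈ Lam ∧ (EE (c + r₂), EE (c - r₂)) ∈ Lam ∧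
      (EE (c + r₁), EE (c + r₂)) ∈ Lam ∧ (EE (c - r₁), EE (c - r₂)) ∈ Lam := by
  rcases h with ⟨rfl, rfl, rfl⟩ | ⟨n, q, h, rfl, rfl⟩
  · refine ⟨?_, ?_, ?_, ?_⟩
    · have := mem_Lam (isCen_zero_iff.2 ⟨0, rfl⟩) neg_one_mem_KK (by norm_num) (by norm_num)
      rw [rad_zero] at this
      convert this using 3 <;> norm_num
    · have := mem_Lam (isCen_zero_iff.2 ⟨2, rfl⟩) one_mem_KK (by norm_num) (by norm_num)
      rw [rad_zero] at this
      convert this using 2
      · congr 1; norm_num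
      · rw [← EE_add_two]; congr 1; norm_num
    · have := mem_Lam (isCen_zero_iff.2 ⟨1, rfl⟩) one_mem_KK (by norm_num) (by norm_num)
      rw [rad_zero] at this
      convert this using 3 <;> norm_num
    · have := mem_Lam (isCen_zero_iff.2 ⟨-1, rfl⟩) neg_one_mem_KK (by norm_num) (by norm_num)
      rw [rad_zero] at this
      convert this using 3 <;> norm_num
  · have := q.sub_pos
    have := q.r_pos
    have := q.add_lt_one
    refine ⟨?_, ?_, ?_, ?_⟩
    · have := mem_Lam h (KK_neg q.sub_mem) (by linarith)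
        (by rw [abs_le]; constructor <;> linarith)
      convert this using 3 <;> ring
    · have := mem_Lam h (KK_neg q.add_mem) (by linarith)
        (by rw [abs_le]; constructor <;> linarith)
      convert this using 3 <;> ring
    · have := mem_Lam (h.child_add q) one_mem_KK (by norm_num) (by norm_num)
      rw [rad_child] at this
      convert this using 3 <;> ring
    · have := mem_Lam (h.child_sub q) neg_one_mem_KK (by norm_num) (by norm_num)
      rw [rad_child] at this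
      convert this using 3 <;> ring

lemma SameArc.symm {c r₁ r₂ : ℝ} {z w : ℂ} (h : SameArc c r₁ r₂ z w) : SameArc c r₁ r₂ w z := by
  unfold SameArc at h ⊢
  tauto

lemma IsSq.sameArc_pos {c r₁ r₂ : ℝ} (h : IsSq c r₁ r₂) {m : ℕ} {c' x' : ℝ} (h' : IsCen m c')
    (hx' : x' ∈ KK) (hx0 : 0 < x') (hx1 : x' ≤ 1) :
    SameArc c r₁ r₂ (EE (c' - rad m * x')) (EE (c' + rad m * x')) := by
  obtain ⟨b0, b1, b2⟩ := h.bounds
  have hr := rad_pos m
  have hy := mul_pos hr hx0
  have habs : |x'| = x' := abs_of_pos hx0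
  have hx1' : |x'| ≤ 1 := by rwa [habs]
  rcases h with ⟨rfl, rfl, rfl⟩ | ⟨n, q, h, rfl, rfl⟩
  · apply sameArc_of_no_vertex b0 b1 b2 (by linarith)
    intro j e he
    have key : ∀ i : ℤ, ¬ |(i : ℝ) / 2 + rad 0 * 1 - c'| < rad m * |x'| := fun i =>
      endpoint_not_inside (isCen_zero_iff.2 ⟨i, rfl⟩) h' one_mem_KK (by norm_num) hx1' (by
        rcases Nat.eq_zero_or_pos m with h | h
        · right; exact ⟨h.symm, by simpa using hx1'⟩
        · left; exact h)
    simp only [rad_zero, habs, abs_lt] at key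
    rintro ⟨a1, a2⟩
    rcases he with rfl | rfl | rfl | rfl
    · apply key (4 * j); push_cast; constructor <;> linarith
    · apply key (4 * j + 1); push_cast; constructor <;> linarith
    · apply key (4 * j - 1); push_cast; constructor <;> linarith
    · apply key (4 * j - 2); push_cast; constructor <;> linarith
  · have q1 := q.sub_pos
    have q2 := q.r_pos
    have q3 := q.add_lt_one
    by_cases hle : n < m ∨ (n = m ∧ x' ≤ q.c - q.r)
    · apply sameArc_of_no_vertex b0 b1 b2 (by linarith)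
      intro j e he
      have key : ∀ x ∈ KK, q.c - q.r ≤ |x| → |x| ≤ 1 →
          ¬ |c + 2 * j + rad n * x - c'| < rad m * |x'| := fun x hx g1 g2 =>
        endpoint_not_inside (h.add_two_mul j) h' hx g2 hx1' (by
          rcases hle with h | h
          · left; exact h
          · right; exact ⟨h.1, by rw [habs]; linarith [h.2]⟩)
      simp only [habs, abs_lt] at key
      rintro ⟨a1, a2⟩
      rcases he with rfl | rfl | rfl | rfl
      · apply key _ q.sub_mem (le_abs_self _) (by rw [abs_le]; constructor <;> linarith)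
        constructor <;> linarith
      · apply key _ q.add_mem (by linarith [le_abs_self (q.c + q.r)])
          (by rw [abs_le]; constructor <;> linarith)
        constructor <;> linarith
      · apply key _ (KK_neg q.sub_mem) (by rw [abs_neg]; exact le_abs_self _)
          (by rw [abs_le]; constructor <;> linarith)
        constructor <;> linarith
      · apply key _ (KK_neg q.add_mem) (by rw [abs_neg]; linarith [le_abs_self (q.c + q.r)])
          (by rw [abs_le]; constructor <;> linarith)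
        constructor <;> linarith
    · have hle' : m < n ∨ (m = n ∧ q.c + q.r ≤ x') := by
        push Not at hle
        rcases lt_or_eq_of_le hle.1 with h3 | h3
        · exact Or.inl h3
        · right
          refine ⟨h3, ?_⟩
          have h4 := hle.2 h3.symm
          by_contra h5
          push Not at h5
          exact q.not_mem (by rw [abs_lt]; constructor <;> linarith) hx'
      have key : ∀ x ∈ KK, |x| = x' → XX c (EE (c' + rad m * x)) ≤ cos (π * (rad n * (q.c + q.r))) := by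
        intro x hx e
        apply XX_le_of_outside b0 b1 b2
        intro j
        have := endpoint_not_inside h' (h.add_two_mul j) hx (by rwa [e]) (x' := q.c + q.r)
          (by rw [abs_le]; constructor <;> linarith) (by
            rcases hle' with h | h
            · left; exact h
            · right; exact ⟨h.1, by rw [e, abs_of_pos (by linarith)]; exact h.2⟩)
        rwa [abs_of_pos (show 0 < q.c + q.r by linarith)] at this
      right; left
      refine ⟨?_, key x' hx' habs⟩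
      have := key (-x') (KK_neg hx') (by rw [abs_neg, habs])
      rwa [mul_neg, ← sub_eq_add_neg] at this

lemma IsSq.sameArc {c r₁ r₂ : ℝ} (h : IsSq c r₁ r₂) : ∀ p ∈ Lam, SameArc c r₁ r₂ p.1 p.2 := by
  rintro _ ⟨m, c', x', h', hx', hx0, hx1, rfl⟩
  rcases lt_or_gt_of_ne hx0 with hneg | hpos
  · have := (h.sameArc_pos h' (KK_neg hx') (by linarith) (by linarith [(abs_le.1 hx1).1])).symm
    simpa [sub_eq_add_neg] using this
  · exact h.sameArc_pos h' hx' hpos (abs_le.1 hx1).2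

lemma IsSq.subset {c r₁ r₂ : ℝ} (h : IsSq c r₁ r₂) : Qo c r₁ r₂ ⊆ OffLeaves Lam :=
  Qo_subset_offLeaves h.bounds.1 h.bounds.2.1 h.bounds.2.2 h.sameArc

lemma IsSq.closure_component {c r₁ r₂ : ℝ} (h : IsSq c r₁ r₂) {z : ℂ} (hz : z ∈ Qo c r₁ r₂) :
    closure (connectedComponentIn (OffLeaves Lam) z) = Qc c r₁ r₂ := by
  obtain ⟨b0, b1, b2⟩ := h.bounds
  obtain ⟨s1, s2, s3, s4⟩ := h.sides
  rw [component_eq_Qo b0 b1 b2 h.sameArc s1 s2 s3 s4 hz, closure_Qo b0 b1 b2]

lemma IsSq.isGap {c r₁ r₂ : ℝ} (h : IsSq c r₁ r₂) : IsGap Lam (Qc c r₁ r₂) := by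
  obtain ⟨b0, b1, b2⟩ := h.bounds
  obtain ⟨z, hz⟩ := Qo_nonempty (c := c) b0 b1 b2
  exact ⟨z, h.subset hz, (h.closure_component hz).symm⟩

lemma mem_segment_of_XX {c y : ℝ} {z : ℂ} (hz : ‖z‖ ≤ 1) (h0 : 0 < y) (h1 : y < 1)
    (h : XX c z = cos (π * y)) : z ∈ segment ℝ (EE (c - y) : ℂ) (EE (c + y)) := by
  have hS := sin_pi_mul_pos h0 h1
  have hY : |YY c z| ≤ sin (π * y) := by
    apply abs_le_of_sq_le_sq _ hS.le
    have := XX_sq_add c z
    have h2 := sin_sq_add_cos_sq (π * y)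
    have h3 : ‖z‖ ^ 2 ≤ 1 := by nlinarith [norm_nonneg z]
    rw [h] at this
    linarith
  rw [abs_le] at hY
  refine ⟨(sin (π * y) - YY c z) / (2 * sin (π * y)), (sin (π * y) + YY c z) / (2 * sin (π * y)),
    div_nonneg (by linarith) (by linarith), div_nonneg (by linarith) (by linarith),
    by field_simp; ring, ?_⟩
  apply ext_XY (c := c)
  · rw [XX_comb, XX_EE, XX_EE, h]
    simp only [add_sub_cancel_left, sub_sub_cancel_left, mul_neg, cos_neg]
    field_simp; ring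
  · rw [YY_comb, YY_EE, YY_EE]
    simp only [add_sub_cancel_left, sub_sub_cancel_left, mul_neg, sin_neg]
    field_simp; ring

lemma search_step {z : ℂ} (hz : z ∈ OffLeaves Lam) {n : ℕ} {c : ℝ} (h : IsCen n c)
    (hX : cos (π * rad n) ≤ XX c z) :
    (∃ r₁ r₂, IsSq c r₁ r₂ ∧ z ∈ Qo c r₁ r₂) ∨
      ∃ n' c', n < n' ∧ IsCen n' c' ∧ cos (π * rad n') ≤ XX c' z := by
  have hpi := pi_pos
  have hn : ‖z‖ < 1 := by simpa using hz.1
  have hX1 := abs_le.1 (XX_le_norm c z)
  have hr := rad_pos n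
  have hr' := rad_le n
  set y := arccos (XX c z) / π with hy
  have e : XX c z = cos (π * y) := by
    rw [hy, mul_div_cancel₀ _ hpi.ne', cos_arccos (by linarith) (by linarith)]
  have hy0 : 0 < y := div_pos (arccos_pos.2 (by linarith)) hpi
  have hy1 : y ≤ 1 := (div_le_one hpi).2 (arccos_le_pi _)
  have hyr : y ≤ rad n := by
    by_contra hc
    push Not at hc
    have := cos_lt_cos_pi hr.le hc hy1
    linarith
  have hx : y / rad n ∉ KK := by
    intro hx
    apply hz.2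
    simp only [mem_iUnion]
    refine ⟨_, mem_Lam h hx (div_pos hy0 hr).ne' (by
      rw [abs_of_pos (div_pos hy0 hr)]; exact (div_le_one hr).2 hyr), ?_⟩
    rw [mul_div_cancel₀ _ hr.ne']
    exact mem_segment_of_XX hn.le hy0 (by linarith) e
  obtain ⟨q, hq⟩ := Gap0.exists_of_not_mem hx (div_pos hy0 hr).le ((div_le_one hr).2 hyr)
  rw [abs_lt] at hq
  have q1 := q.sub_pos
  have q2 := q.r_pos
  have q3 := q.add_lt_one
  have a1 : rad n * (q.c - q.r) < y := by
    have : q.c - q.r < y / rad n := by linarith [hq.1]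
    rw [lt_div_iff₀ hr] at this; linarith
  have a2 : y < rad n * (q.c + q.r) := by
    have : y / rad n < q.c + q.r := by linarith [hq.2]
    rw [div_lt_iff₀ hr] at this; linarith
  have hsq : IsSq c (rad n * (q.c - q.r)) (rad n * (q.c + q.r)) := Or.inr ⟨n, q, h, rfl, rfl⟩
  obtain ⟨b0, b1, b2⟩ := hsq.bounds
  by_cases hQ : z ∈ Qo c (rad n * (q.c - q.r)) (rad n * (q.c + q.r))
  · exact Or.inl ⟨_, _, hsq, hQ⟩
  · right
    have g1 : XX c z < cos (π * (rad n * (q.c - q.r))) := by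
      rw [e]; exact cos_lt_cos_pi b0.le a1 hy1
    have g2 : cos (π * (rad n * (q.c + q.r))) < XX c z := by
      rw [e]; exact cos_lt_cos_pi hy0.le a2 b2.le
    have e1 : (rad n * (q.c - q.r) + rad n * (q.c + q.r)) / 2 = rad n * q.c := by ring
    have e2 : (rad n * (q.c + q.r) - rad n * (q.c - q.r)) / 2 = rad (n + 1 + q.1.1) := by
      rw [rad_child]; ring
    simp only [Qo, mem_ofPred_eq, g1, g2, true_and, e1, e2, not_and_or, not_lt] at hQ
    rcases hQ with hQ | hQ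
    · exact ⟨_, _, by omega, h.child_add q, hQ⟩
    · exact ⟨_, _, by omega, h.child_sub q, hQ⟩

lemma exists_sq {z : ℂ} (hz : z ∈ OffLeaves Lam) :
    ∃ c r₁ r₂, IsSq c r₁ r₂ ∧ z ∈ Qo c r₁ r₂ := by
  have hpi := pi_pos
  have hn : ‖z‖ < 1 := by simpa using hz.1
  obtain ⟨N, hN⟩ : ∃ N : ℕ, ∀ n, N ≤ n → ‖z‖ < cos (π * rad n) := by
    have h1 : 0 < arccos ‖z‖ / π := div_pos (arccos_pos.2 hn) hpi
    obtain ⟨N, hN⟩ := exists_rad_lt h1
    refine ⟨N, fun n hn' => ?_⟩
    have := cos_lt_cos_pi (rad_pos n).le (hN n hn') ((div_le_one hpi).2 (arccos_le_pi _))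
    rwa [mul_div_cancel₀ _ hpi.ne', cos_arccos (by linarith [norm_nonneg z]) hn.le] at this
  have key : ∀ d : ℕ, ∀ n c, N ≤ n + d → IsCen n c → cos (π * rad n) ≤ XX c z →
      ∃ c r₁ r₂, IsSq c r₁ r₂ ∧ z ∈ Qo c r₁ r₂ := by
    intro d
    induction d with
    | zero =>
      intro n c hle _ hX
      have := hN n hle
      linarith [(abs_le.1 (XX_le_norm c z)).2]
    | succ d ih =>
      intro n c hle h hX
      rcases search_step hz h hX with ⟨r₁, r₂, h⟩ | ⟨n', c', hlt, h', hX'⟩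
      · exact ⟨c, r₁, r₂, h⟩
      · exact ih n' c' (by omega) h' hX'
  by_cases hQ : z ∈ Qo 0 (1 / 4) (3 / 4)
  · exact ⟨_, _, _, Or.inl ⟨rfl, rfl, rfl⟩, hQ⟩
  · have e1 : ((1 : ℝ) / 4 + 3 / 4) / 2 = 1 / 2 := by norm_num
    have e2 : ((3 : ℝ) / 4 - 1 / 4) / 2 = 1 / 4 := by norm_num
    simp only [Qo, mem_ofPred_eq, e1, e2, not_and_or, not_lt] at hQ
    rcases hQ with hQ | hQ | hQ | hQ
    · exact key N 0 0 (by omega) (isCen_zero_iff.2 ⟨0, by simp⟩) (by rwa [rad_zero])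
    · refine key N 0 (0 + 1) (by omega) (isCen_zero_iff.2 ⟨2, by simp⟩) ?_
      rw [rad_zero, XX_add, mul_one, cos_pi, sin_pi]
      have : cos (π * (3 / 4)) = -cos (π * (1 / 4)) := by
        rw [← cos_pi_sub]; congr 1; ring
      linarith
    · exact key N 0 (0 + 1 / 2) (by omega) (isCen_zero_iff.2 ⟨1, by simp⟩) (by rwa [rad_zero])
    · exact key N 0 (0 - 1 / 2) (by omega) (isCen_zero_iff.2 ⟨-1, by norm_num⟩)
        (by rwa [rad_zero])

lemma EE_ne_of_lt {x y : ℝ} (h1 : x < y) (h2 : y < x + 2) : EE x ≠ EE y := by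
  intro h
  obtain ⟨m, hm⟩ := EE_eq_iff.1 h
  have a1 : (m : ℝ) < 0 := by linarith
  have a2 : (-1 : ℝ) < m := by linarith
  have a1' : m < 0 := by exact_mod_cast a1
  have a2' : -1 < m := by exact_mod_cast a2
  omega

theorem veryFull_Lam : VeryFull Lam := by
  classical
  rintro P ⟨z, hz, rfl⟩
  obtain ⟨c, r₁, r₂, h, hQ⟩ := exists_sq hz
  obtain ⟨b0, b1, b2⟩ := h.bounds
  refine ⟨{EE (c + r₁), EE (c + r₂), EE (c - r₁), EE (c - r₂)}, ?_, ?_⟩
  · have n1 : EE (c + r₁) ≠ EE (c + r₂) := EE_ne_of_lt (by linarith) (by linarith)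
    have n2 : EE (c - r₁) ≠ EE (c + r₁) := EE_ne_of_lt (by linarith) (by linarith)
    have n3 : EE (c - r₁) ≠ EE (c + r₂) := EE_ne_of_lt (by linarith) (by linarith)
    have : ({EE (c + r₁), EE (c + r₂), EE (c - r₁)} : Finset Circle).card = 3 :=
      Finset.card_eq_three.2 ⟨_, _, _, n1, n2.symm, n3.symm, rfl⟩
    rw [← this]
    apply Finset.card_le_card
    intro a; simp; tauto
  · rw [h.closure_component hQ, Qc_eq_convexHull b0 b1 b2]
    congr 1
    simp [image_insert_eq]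

end Pool.Agent.MP_939d63_gt

end

-- part MP_939d63_gt.Loose
section

/-! The lamination is loose and its gaps are dense. -/

set_option autoImplicit false

namespace Pool.Agent.MP_939d63_gt

open Set Real

lemma IsSq.vertex_mem {c r₁ r₂ : ℝ} (h : IsSq c r₁ r₂) {s : ℝ}
    (hs : s = c + r₁ ∨ s = c + r₂ ∨ s = c - r₁ ∨ s = c - r₂) : (EE s : ℂ) ∈ Qc c r₁ r₂ := by
  obtain ⟨b0, b1, b2⟩ := h.bounds
  obtain ⟨v1, v2, v3, v4⟩ := vertices_mem_Qc (c := c) b0 b1 b2
  rcases hs with rfl | rfl | rfl | rfl <;> assumption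

lemma isSq_central : IsSq 0 (1 / 4) (3 / 4) := Or.inl ⟨rfl, rfl, rfl⟩

lemma central_vertex_mem (j : ℤ) : (EE (j / 2 + 1 / 4) : ℂ) ∈ Qc 0 (1 / 4) (3 / 4) := by
  obtain ⟨m, hm⟩ : ∃ m : ℤ, j = 4 * m ∨ j = 4 * m + 1 ∨ j = 4 * m - 1 ∨ j = 4 * m - 2 :=
    ⟨(j + 2) / 4, by omega⟩
  have e : EE (j / 2 + 1 / 4) = EE (j / 2 + 1 / 4 - 2 * m) := EE_eq_iff.2 ⟨m, by ring⟩
  rw [e]
  apply isSq_central.vertex_mem
  rcases hm with rfl | rfl | rfl | rfl <;> push_cast
  · left; ring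
  · right; left; ring
  · right; right; left; ring
  · right; right; right; ring

lemma central_vertex_mem' {s : ℝ} (j : ℤ) (h : s = j / 2 + 1 / 4) :
    (EE s : ℂ) ∈ Qc 0 (1 / 4) (3 / 4) := h ▸ central_vertex_mem j

lemma loose_core {n n' : ℕ} {c c' x x' : ℝ} (h : IsCen n c) (h' : IsCen n' c')
    (hx : x ∈ KK) (hx0 : x ≠ 0) (hx1 : |x| ≤ 1) (hx1' : |x'| ≤ 1) (hle : n ≤ n')
    (e : c + rad n * x = c' + rad n' * x') (hne : c - rad n * x ≠ c' - rad n' * x') :
    ∃ P, IsGap Lam P ∧ (EE (c + rad n * x) : ℂ) ∈ P ∧ (EE (c - rad n * x) : ℂ) ∈ P ∧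
      (EE (c' - rad n' * x') : ℂ) ∈ P := by
  have hr := rad_pos n
  rcases hle.eq_or_lt with rfl | hlt
  · have hc : c ≠ c' := by
      rintro rfl
      apply hne; linarith
    have h2 := h.sep h' hc
    rw [show c - c' = rad n * (x' - x) by linarith, abs_mul, abs_of_pos hr] at h2
    have h3 : 2 ≤ |x' - x| := by
      by_contra hc
      push Not at hc
      nlinarith
    have hb := abs_le.1 hx1
    have hb' := abs_le.1 hx1'
    have h4 : (x = 1 ∧ x' = -1) ∨ (x = -1 ∧ x' = 1) := by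
      rcases le_abs.1 h3 with h3 | h3
      · right; constructor <;> linarith
      · left; constructor <;> linarith
    rcases n with _ | n
    · obtain ⟨i, rfl⟩ := isCen_zero_iff.1 h
      refine ⟨_, isSq_central.isGap, ?_⟩
      rw [rad_zero] at e ⊢
      rcases h4 with ⟨rfl, rfl⟩ | ⟨rfl, rfl⟩
      · refine ⟨?_, ?_, ?_⟩
        · exact central_vertex_mem' i (by ring)
        · exact central_vertex_mem' (i - 1) (by push_cast; ring)
        · exact central_vertex_mem' (i + 1) (by push_cast; linarith)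
      · refine ⟨?_, ?_, ?_⟩
        · exact central_vertex_mem' (i - 1) (by push_cast; ring)
        · exact central_vertex_mem' i (by ring)
        · exact central_vertex_mem' (i - 2) (by push_cast; linarith)
    · exfalso
      obtain ⟨k, rfl | ⟨h0, -⟩⟩ := h
      swap; · omega
      obtain ⟨k', rfl | ⟨h0, -⟩⟩ := h'
      swap; · omega
      have e2 := congrArg (fun y => 4 ^ (n + 1) * y) e
      simp only [mul_add, pow_mul_cen, ← mul_assoc, pow_mul_rad] at e2
      rcases h4 with ⟨rfl, rfl⟩ | ⟨rfl, rfl⟩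
      · have : ((2 * k + 1 : ℤ) : ℝ) = ((2 * k' : ℤ) : ℝ) := by push_cast; linarith
        have : 2 * k + 1 = 2 * k' := by exact_mod_cast this
        omega
      · have : ((2 * k : ℤ) : ℝ) = ((2 * k' + 1 : ℤ) : ℝ) := by push_cast; linarith
        have : 2 * k = 2 * k' + 1 := by exact_mod_cast this
        omega
  · have hr' := rad_pos n'
    have h2 := h'.not_inside (n := n + 1) hlt (by omega) (h.endpoint_mem hx)
    rw [e, add_sub_cancel_left, abs_mul, abs_of_pos hr'] at h2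
    have h3 : |x'| = 1 := by
      apply le_antisymm hx1'
      by_contra hc
      push Not at hc
      apply h2; nlinarith
    have h4 : x' = 1 ∨ x' = -1 := by
      rcases abs_choice x' with h | h <;> rw [h] at h3
      · left; exact h3
      · right; linarith
    obtain ⟨ν, rfl⟩ : ∃ ν, n' = n + 1 + ν := ⟨n' - n - 1, by omega⟩
    obtain ⟨k', rfl | ⟨h0, -⟩⟩ := h'
    swap; · omega
    obtain ⟨j, hj⟩ := h.even
    set κ := k' - 2 * j * 4 ^ ν with hκ
    have e1 : cen (n + 1 + ν) k' = c + rad n * cen ν κ := by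
      have h4 : (0 : ℝ) < 4 ^ (n + 1) := by positivity
      have hc : c = 2 * j / 4 ^ (n + 1) := by rw [← hj]; field_simp
      rw [hc, hκ]
      unfold rad cen
      push_cast
      rw [pow_add 4 (n + 1) ν]; field_simp; ring
    rw [e1, ← rad_mul_rad] at e ⊢
    have e2 : x = cen ν κ + rad ν * x' := by
      apply mul_left_cancel₀ hr.ne'; linarith
    have e3 : 4 ^ ν * x = κ + 1 / 2 + x' / 4 := by
      rw [e2, mul_add, pow_mul_cen, ← mul_assoc, pow_mul_rad]; ring
    have hb' := abs_le.1 hx1'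
    have hb := abs_le.1 hx1
    have hg : Good ν κ := good_of_mem hx (by rw [e3]; linarith) (by rw [e3]; linarith)
    have h5 : (0 : ℝ) < 4 ^ ν := by positivity
    have hc0 : ¬ |0 - cen ν κ| < rad ν := fun hh => not_mem_KK_of_abs_lt hh zero_mem_KK
    have hc1 : ¬ |1 - cen ν κ| < rad ν := fun hh => not_mem_KK_of_abs_lt hh one_mem_KK
    have hc2 : ¬ |-1 - cen ν κ| < rad ν := fun hh => not_mem_KK_of_abs_lt hh neg_one_mem_KK
    have hrν := rad_pos ν
    have hrν' := rad_le ν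
    rw [abs_lt] at hc0 hc1 hc2
    push Not at hc0 hc1 hc2
    have hne1 := endpoints_ne ν 0 κ
    rcases lt_or_gt_of_ne hx0 with hneg | hpos
    · have hg' : Good ν (-κ - 1) := by
        intro m hm
        obtain ⟨i, hi⟩ := hg m hm
        refine ⟨-i, ?_⟩
        rw [← cen_neg, ← abs_neg]; convert hi using 2; push_cast; ring
      have p0 : cen ν κ < 0 := by
        by_contra hc
        push Not at hc
        have := hc0 (by nlinarith)
        linarith
      have p1 : -1 < cen ν κ := by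
        by_contra hc
        push Not at hc
        have h6 := hc2 (by linarith)
        have h7 : x' = 1 := by nlinarith
        have h8 : x = -1 := by nlinarith
        rw [h7, h8] at e3
        have : ((-(4 ^ (ν + 1)) : ℤ) : ℝ) = ((4 * κ + 3 : ℤ) : ℝ) := by
          push_cast; rw [pow_succ]; linarith
        have : (-(4 ^ (ν + 1)) : ℤ) = 4 * κ + 3 := by exact_mod_cast this
        rw [pow_succ] at this
        omega
      let q : Gap0 := ⟨(ν, -κ - 1), hg', by simp only; rw [← cen_neg]; linarith,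
        by simp only; rw [← cen_neg]; linarith⟩
      have qc : q.c = -cen ν κ := (cen_neg ν κ).symm
      have qr : q.r = rad ν := rfl
      have hsq : IsSq c (rad n * (q.c - q.r)) (rad n * (q.c + q.r)) := Or.inr ⟨n, q, h, rfl, rfl⟩
      refine ⟨_, hsq.isGap, hsq.vertex_mem ?_, hsq.vertex_mem ?_, hsq.vertex_mem ?_⟩ <;>
        rw [qc, qr] <;> rcases h4 with rfl | rfl
      · right; right; left; rw [e2]; ring
      · right; right; right; rw [e2]; ring
      · left; rw [e2]; ring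
      · right; left; rw [e2]; ring
      · right; right; right; ring
      · right; right; left; ring
    · have p0 : 0 < cen ν κ := by
        by_contra hc
        push Not at hc
        have := hc0 (by linarith)
        nlinarith
      have p1 : cen ν κ < 1 := by
        by_contra hc
        push Not at hc
        by_cases h9 : -rad ν < 1 - cen ν κ
        · have := hc1 h9; linarith
        push Not at h9
        have h7 : x' = -1 := by nlinarith
        have h8 : x = 1 := by nlinarith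
        rw [h7, h8] at e3
        have : ((4 ^ (ν + 1) : ℤ) : ℝ) = ((4 * κ + 1 : ℤ) : ℝ) := by
          push_cast; rw [pow_succ]; linarith
        have : (4 ^ (ν + 1) : ℤ) = 4 * κ + 1 := by exact_mod_cast this
        rw [pow_succ] at this
        omega
      let q : Gap0 := ⟨(ν, κ), hg, p0, p1⟩
      have qc : q.c = cen ν κ := rfl
      have qr : q.r = rad ν := rfl
      have hsq : IsSq c (rad n * (q.c - q.r)) (rad n * (q.c + q.r)) := Or.inr ⟨n, q, h, rfl, rfl⟩
      refine ⟨_, hsq.isGap, hsq.vertex_mem ?_, hsq.vertex_mem ?_, hsq.vertex_mem ?_⟩ <;>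
        rw [qc, qr] <;> rcases h4 with rfl | rfl
      · right; left; rw [e2]; ring
      · left; rw [e2]; ring
      · right; right; right; rw [e2]; ring
      · right; right; left; rw [e2]; ring
      · left; ring
      · right; left; ring

theorem loose_Lam : Loose Lam := by
  intro a b b' h1 h2 hne
  obtain ⟨n, c, x, h, hx, hx0, hx1, e⟩ := Lam_swap h1
  obtain ⟨n', c', x', h', hx', hx0', hx1', e'⟩ := Lam_swap h2
  simp only [Prod.swap, Prod.mk.injEq] at e e'
  obtain ⟨rfl, rfl⟩ := e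
  obtain ⟨rfl, e'⟩ := e'
  obtain ⟨m, hm⟩ := EE_eq_iff.1 e'
  have e2 : EE (c' - rad n' * x') = EE (c' + 2 * m - rad n' * x') :=
    (EE_eq_iff.2 ⟨m, by ring⟩).symm
  rw [e2] at hne ⊢
  have hne' : c - rad n * x ≠ c' + 2 * m - rad n' * x' := fun h => hne (by rw [h])
  rcases le_total n n' with hle | hle
  · exact loose_core h (h'.add_two_mul m) hx hx0 hx1 hx1' hle (by linarith) hne'
  · obtain ⟨P, hP, p1, p2, p3⟩ := loose_core (h'.add_two_mul m) h hx' hx0' hx1' hx1 hle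
      (by linarith) hne'.symm
    refine ⟨P, hP, ?_, p3, p2⟩
    rwa [show c + rad n * x = c' + 2 * m + rad n' * x' by linarith]

/-- The closed set of points on the lines carrying one family of leaves. -/
def Lines (n : ℕ) (c : ℝ) : Set ℂ := {z | ∃ x ∈ KK ∩ Icc (0 : ℝ) 1, XX c z = cos (π * (rad n * x))}

lemma isClosed_Lines (n : ℕ) (c : ℝ) : IsClosed (Lines n c) := by
  have hc : IsCompact ((fun x : ℝ => cos (π * (rad n * x))) '' (KK ∩ Icc (0 : ℝ) 1)) :=
    (isCompact_Icc.inter_left isClosed_KK).image (by fun_prop)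
  have := hc.isClosed.preimage (continuous_XX c)
  convert this using 1
  ext z
  simp only [Lines, mem_ofPred_eq, mem_preimage, mem_image]
  exact ⟨fun ⟨x, hx, e⟩ => ⟨x, hx, e.symm⟩, fun ⟨x, hx, e⟩ => ⟨x, hx, e.symm⟩⟩

lemma dense_compl_Lines (n : ℕ) (c : ℝ) : Dense (Lines n c)ᶜ := by
  rw [← interior_eq_empty_iff_dense_compl, eq_empty_iff_forall_notMem]
  intro z hz
  rw [mem_interior_iff_mem_nhds, Metric.mem_nhds_iff] at hz
  obtain ⟨ε, hε, hsub⟩ := hz
  have hr := rad_pos n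
  have hr' := rad_le n
  have key : ∀ τ : ℝ, 0 ≤ τ → τ ≤ ε / 2 →
      ∃ x ∈ KK ∩ Icc (0 : ℝ) 1, XX c z + τ = cos (π * (rad n * x)) := by
    intro τ h0 h1
    have : (1 : ℝ) • z + τ • (EE c : ℂ) ∈ Metric.ball z ε := by
      rw [Metric.mem_ball, dist_eq_norm, one_smul, add_sub_cancel_left, norm_smul,
        Circle.norm_coe, Real.norm_eq_abs, abs_of_nonneg h0]
      linarith
    obtain ⟨x, hx, e⟩ := hsub this
    refine ⟨x, hx, ?_⟩
    rw [← e, XX_comb, XX_EE]; simp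
  obtain ⟨a, ha, ea⟩ := key 0 le_rfl (by linarith)
  obtain ⟨b, hb, eb⟩ := key (ε / 2) (by linarith) le_rfl
  have anti : ∀ x y : ℝ, 0 ≤ x → x < y → y ≤ 1 →
      cos (π * (rad n * y)) < cos (π * (rad n * x)) := fun x y h0 hxy h1 =>
    cos_lt_cos_pi (by positivity) (by nlinarith) (by nlinarith)
  have hba : b < a := by
    by_contra hc
    push Not at hc
    rcases hc.eq_or_lt with h | h
    · rw [h] at ea; linarith
    · have := anti a b ha.2.1 h hb.2.2; linarith
  obtain ⟨x, hx1, hx2, hx⟩ := exists_not_mem_between hba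
  have t1 := anti b x hb.2.1 hx1 (by linarith [ha.2.2])
  have t2 := anti x a (by linarith [hb.2.1]) hx2 ha.2.2
  obtain ⟨x', hx', e⟩ := key (cos (π * (rad n * x)) - XX c z) (by linarith) (by linarith)
  rcases lt_trichotomy x x' with h | h | h
  · have := anti x x' (by linarith [hb.2.1]) h hx'.2.2; linarith
  · exact hx (h ▸ hx'.1)
  · have := anti x' x hx'.2.1 h (by linarith [ha.2.2]); linarith

theorem ball_subset_closure_offLeaves : Metric.ball (0 : ℂ) 1 ⊆ closure (OffLeaves Lam) := by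
  have hd : Dense (⋂ a : ℕ × ℤ, (Lines a.1 (2 * a.2 / 4 ^ (a.1 + 1)))ᶜ) :=
    dense_iInter_of_isOpen (fun a => (isClosed_Lines _ _).isOpen_compl)
      (fun a => dense_compl_Lines _ _)
  refine (hd.open_subset_closure_inter Metric.isOpen_ball).trans (closure_mono ?_)
  rintro z ⟨hz, hz'⟩
  refine ⟨hz, ?_⟩
  simp only [mem_iUnion, not_exists]
  rintro _ ⟨n, c, x, h, hx, hx0, hx1, rfl⟩ ⟨a, b, ha, hb, hab, rfl⟩
  obtain ⟨j, hj⟩ := h.even
  have h4 : (0 : ℝ) < 4 ^ (n + 1) := by positivity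
  have hc : 2 * j / 4 ^ (n + 1) = c := by rw [← hj]; field_simp
  have := mem_iInter.1 hz' (n, j)
  apply this
  simp only [hc]
  refine ⟨|x|, ⟨KK_abs hx, abs_nonneg x, hx1⟩, ?_⟩
  rw [XX_comb, XX_EE, XX_EE]
  simp only [add_sub_cancel_left, sub_sub_cancel_left, mul_neg, cos_neg]
  rw [← add_mul, hab, one_mul, ← cos_abs (π * (rad n * x)), abs_mul, abs_mul, abs_of_pos pi_pos,
    abs_of_pos (rad_pos n)]

end Pool.Agent.MP_939d63_gt

end
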