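import Mathlib
import Pool.Agent.MP_939d63_gt.Mg.Loose

-- part MP_939d63_gt.BS
section

/-! A two-generated group of real-analytic diffeomorphisms of the line that is not residually
finite (a quotient of the Baumslag-Solitar group BS(2,3)). -/

set_option autoImplicit false

namespace Pool.Agent.MP_939d63_gt

open Set Real
open scoped commutatorElement

noncomputable def tfun (x : ℝ) : ℝ := 3 / 2 * x + sin x / 4

lemma tfun_sub_ge {x y : ℝ} (h : x ≤ y) : 5 / 4 * (y - x) ≤ tfun y - tfun x := by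
  unfold tfun
  have := abs_sin_sub_sin_le y x
  rw [abs_of_nonneg (show 0 ≤ y - x by linarith)] at this
  linarith [(abs_le.1 this).1]

lemma tfun_strictMono : StrictMono tfun := fun x y h => by linarith [tfun_sub_ge h.le]

lemma tfun_continuous : Continuous tfun := by unfold tfun; fun_prop

lemma tfun_surjective : Function.Surjective tfun := by
  intro y
  have h1 : tfun (-|y| - 1) ≤ y := by
    unfold tfun; linarith [sin_le_one (-|y| - 1), neg_abs_le y, abs_nonneg y]
  have h2 : y ≤ tfun (|y| + 1) := by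
    unfold tfun; linarith [neg_one_le_sin (|y| + 1), le_abs_self y, abs_nonneg y]
  obtain ⟨x, -, hx⟩ := intermediate_value_Icc (show -|y| - 1 ≤ |y| + 1 by linarith [abs_nonneg y])
    tfun_continuous.continuousOn ⟨h1, h2⟩
  exact ⟨x, hx⟩

noncomputable def tt : ℝ ≃o ℝ := tfun_strictMono.orderIsoOfSurjective tfun tfun_surjective

lemma tt_apply (x : ℝ) : tt x = tfun x := rfl

noncomputable def aa : ℝ ≃o ℝ := OrderIso.addRight π

lemma aa_apply (x : ℝ) : aa x = x + π := rfl

lemma aa_inv_apply (x : ℝ) : aa⁻¹ x = x - π := by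
  apply aa.injective
  rw [RelIso.apply_inv_self, aa_apply]; ring

lemma aa_zpow_apply (j : ℤ) (x : ℝ) : (aa ^ j) x = x + j * π := by
  induction j using Int.induction_on generalizing x with
  | zero => simp
  | succ n ih => rw [zpow_add_one, RelIso.mul_apply, ih, aa_apply]; push_cast; ring
  | pred n ih => rw [zpow_sub_one, RelIso.mul_apply, ih, aa_inv_apply]; push_cast; ring

lemma bs_relation : tt * aa ^ 2 * tt⁻¹ = aa ^ 3 := by
  rw [mul_inv_eq_iff_eq_mul]
  ext x
  simp only [pow_succ, pow_zero, one_mul, RelIso.mul_apply, aa_apply, tt_apply, tfun]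
  rw [show x + π + π = x + 2 * π by ring, sin_add_two_pi]; ring

lemma not_commute : ¬ Commute (tt * aa * tt⁻¹) aa := by
  intro h
  have h1 := congrArg (fun F : ℝ ≃o ℝ => F (tt 0)) h.eq
  simp only [RelIso.mul_apply, RelIso.inv_apply_self, aa_apply] at h1
  set x := tt⁻¹ (tt 0 + π) with hx
  have h2 : tt x = tt 0 + π := by rw [hx, RelIso.apply_inv_self]
  simp only [tt_apply, tfun, sin_add_pi, sin_zero] at h1 h2
  have h3 : sin x = 0 := by linarith
  have h4 : x = 2 / 3 * π := by linarith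
  have hpi := pi_pos
  have := sin_pos_of_pos_of_lt_pi (x := x) (by linarith) (by linarith)
  linarith

noncomputable def gen : Bool → (ℝ ≃o ℝ) := fun b => if b then aa else tt

noncomputable def HH : Subgroup (ℝ ≃o ℝ) := (FreeGroup.lift gen).range

lemma aa_mem : aa ∈ HH := ⟨FreeGroup.of true, by simp [gen]⟩

lemma tt_mem : tt ∈ HH := ⟨FreeGroup.of false, by simp [gen]⟩

instance : Countable HH := (FreeGroup.lift gen).rangeRestrict_surjective.countable

instance : Group.FG HH := Group.fg_range _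

lemma commute_of_finite {Q : Type*} [Group Q] [Finite Q] {a t : Q}
    (h : t * a ^ 2 * t⁻¹ = a ^ 3) : Commute (t * a * t⁻¹) a := by
  have h1 : orderOf (a ^ 2) = orderOf (a ^ 3) := by
    rw [← h]
    exact ((MulAut.conj t).orderOf_eq (a ^ 2)).symm
  have hn : 0 < orderOf a := orderOf_pos a
  rw [orderOf_pow' a two_ne_zero, orderOf_pow' a three_ne_zero] at h1
  have hodd : Odd (orderOf a) := by
    by_contra hc
    rw [Nat.not_odd_iff_even] at hc
    have g2 : (orderOf a).gcd 2 = 2 := Nat.gcd_eq_right hc.two_dvd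
    have g3 : (orderOf a).gcd 3 = 1 ∨ (orderOf a).gcd 3 = 3 :=
      (Nat.dvd_prime Nat.prime_three).1 (Nat.gcd_dvd_right _ _)
    rw [g2] at h1
    rcases g3 with g3 | g3
    · rw [g3] at h1; omega
    · have : 3 ∣ orderOf a := g3 ▸ Nat.gcd_dvd_left _ _
      rw [g3] at h1
      obtain ⟨m, hm⟩ := this
      obtain ⟨m', hm'⟩ := hc
      omega
  obtain ⟨m, hm⟩ := hodd
  have h2 : a = (a ^ 2) ^ (m + 1) := by
    rw [← pow_mul, show 2 * (m + 1) = orderOf a + 1 by omega, pow_succ, pow_orderOf_eq_one, one_mul]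
  have h3 : t * a * t⁻¹ = (a ^ 3) ^ (m + 1) := by
    rw [← h, conj_pow, ← h2]
  rw [h3]
  exact ((Commute.refl a).pow_left 3).pow_left _

theorem HH_not_residuallyFinite : ¬ Group.ResiduallyFinite HH := by
  intro hRF
  let a : HH := ⟨aa, aa_mem⟩
  let t : HH := ⟨tt, tt_mem⟩
  have hne : ⁅t * a * t⁻¹, a⁆ ≠ 1 := by
    intro h
    rw [commutatorElement_eq_one_iff_commute] at h
    exact not_commute (h.map HH.subtype)
  obtain ⟨N, hN⟩ := Group.exists_finiteIndexNormalSubgroup_notMem _ hne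
  apply hN
  have hrel : t * a ^ 2 * t⁻¹ = a ^ 3 := Subtype.ext bs_relation
  have h1 := congrArg (QuotientGroup.mk' N.toSubgroup) hrel
  simp only [map_mul, map_pow, map_inv] at h1
  have h2 := commute_of_finite h1
  rw [← commutatorElement_eq_one_iff_commute] at h2
  have h3 : QuotientGroup.mk' N.toSubgroup ⁅t * a * t⁻¹, a⁆ = 1 := by
    rw [map_commutatorElement, map_mul, map_mul, map_inv]; exact h2
  exact (QuotientGroup.eq_one_iff _).1 h3

lemma contDiff_tt : ContDiff ℝ ⊤ (tt : ℝ → ℝ) := by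
  change ContDiff ℝ ⊤ tfun
  unfold tfun
  exact (contDiff_const.mul contDiff_id).add (contDiff_sin.div_const _)

lemma contDiff_tt_inv : ContDiff ℝ ⊤ (tt⁻¹ : ℝ ≃o ℝ) := by
  have := tt.toHomeomorph.contDiff_symm_deriv (n := ⊤) (f' := fun x => 3 / 2 + cos x / 4)
    (fun x => by linarith [neg_one_le_cos x]) (fun x => by
      change HasDerivAt tfun _ x
      unfold tfun
      have := ((hasDerivAt_id x).const_mul (3 / 2)).add ((hasDerivAt_sin x).div_const 4)
      rw [mul_one] at this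
      exact this) contDiff_tt
  exact this

lemma contDiff_of_mem {h : ℝ ≃o ℝ} (hh : h ∈ HH) : ContDiff ℝ ⊤ (h : ℝ → ℝ) := by
  obtain ⟨w, rfl⟩ := hh
  induction w using FreeGroup.induction_on with
  | C1 => rw [map_one]; exact contDiff_id
  | of b =>
    rcases b with _ | _
    · simpa [gen] using contDiff_tt
    · simp only [FreeGroup.lift_apply_of, gen, if_true]
      exact contDiff_id.add contDiff_const
  | inv_of b _ =>
    rw [map_inv]
    rcases b with _ | _
    · simpa [gen] using contDiff_tt_inv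
    · simp only [FreeGroup.lift_apply_of, gen, if_true]
      have : ((aa⁻¹ : ℝ ≃o ℝ) : ℝ → ℝ) = fun x => x - π := funext aa_inv_apply
      rw [this]
      exact contDiff_id.sub contDiff_const
  | mul x y hx hy => rw [map_mul]; exact hx.comp hy

lemma countable_fix (h : HH) (hne : h ≠ 1) : {x : ℝ | h.1 x = x}.Countable := by
  have ha : AnalyticOnNhd ℝ (h.1 : ℝ → ℝ) univ :=
    contDiff_omega_iff_analyticOnNhd.1 (contDiff_of_mem h.2)
  rcases ha.eqOn_or_eventually_ne_of_preconnected analyticOnNhd_id isPreconnected_univ with h1 | h1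
  · exact absurd (Subtype.ext (RelIso.ext fun x => h1 (mem_univ x))) hne
  · have h2 : IsDiscrete ({x : ℝ | h.1 x = x} ∩ univ) := isDiscrete_of_codiscreteWithin h1
    rw [inter_univ] at h2
    have := h2.to_subtype
    exact countable_of_Lindelof_of_discrete (X := {x : ℝ | h.1 x = x})

lemma exists_free : ∃ p : ℝ, ∀ h : HH, h.1 p = p → h = 1 := by
  have hc : (⋃ h : {h : HH // h ≠ 1}, {x : ℝ | h.1.1 x = x}).Countable :=
    countable_iUnion fun h => countable_fix h.1 h.2
  obtain ⟨p, hp⟩ := (hc.dense_compl ℝ).nonempty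
  refine ⟨p, fun h hh => ?_⟩
  by_contra hne
  exact hp (mem_iUnion.2 ⟨⟨h, hne⟩, hh⟩)

lemma tt_pow_sub_ge {x y : ℝ} (h : x ≤ y) (k : ℕ) :
    (5 / 4) ^ k * (y - x) ≤ (tt ^ k) y - (tt ^ k) x := by
  induction k with
  | zero => simp
  | succ k ih =>
    rw [pow_succ' tt, RelIso.mul_apply, RelIso.mul_apply, tt_apply, tt_apply, pow_succ']
    have := tfun_sub_ge ((tt ^ k).monotone h)
    linarith

lemma orbit_between (p : ℝ) {x y : ℝ} (h : x < y) : ∃ g : HH, x < g.1 p ∧ g.1 p < y := by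
  have hpi := pi_pos
  obtain ⟨k, hk⟩ := pow_unbounded_of_one_lt (π / (y - x)) (show (1 : ℝ) < 5 / 4 by norm_num)
  rw [div_lt_iff₀ (by linarith)] at hk
  have h1 := tt_pow_sub_ge h.le k
  set j := ⌊((tt ^ k) x - (tt ^ k) p) / π⌋ + 1 with hj
  have f1 : ((tt ^ k) x - (tt ^ k) p) / π < j := by rw [hj]; push_cast; exact Int.lt_floor_add_one _
  have f2 : (j : ℝ) - 1 ≤ ((tt ^ k) x - (tt ^ k) p) / π := by
    rw [hj]; push_cast; linarith [Int.floor_le (((tt ^ k) x - (tt ^ k) p) / π)]
  rw [div_lt_iff₀ hpi] at f1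
  rw [le_div_iff₀ hpi] at f2
  refine ⟨⟨(tt ^ k)⁻¹ * aa ^ j * tt ^ k, HH.mul_mem (HH.mul_mem (HH.inv_mem (HH.pow_mem tt_mem k))
    (HH.zpow_mem aa_mem j)) (HH.pow_mem tt_mem k)⟩, ?_, ?_⟩
  · rw [← (tt ^ k).lt_iff_lt]
    simp only [RelIso.mul_apply, RelIso.apply_inv_self, aa_zpow_apply]
    linarith
  · rw [← (tt ^ k).lt_iff_lt]
    simp only [RelIso.mul_apply, RelIso.apply_inv_self, aa_zpow_apply]
    linarith

lemma orderIso_pow_ne_one {h : ℝ ≃o ℝ} (hne : h ≠ 1) (n : ℕ) : h ^ (n + 1) ≠ 1 := by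
  obtain ⟨x, hx⟩ : ∃ x, h x ≠ x := by
    by_contra hc
    push Not at hc
    exact hne (RelIso.ext hc)
  intro h1
  have h2 : (h ^ (n + 1)) x = x := by rw [h1]; rfl
  rcases lt_or_gt_of_ne hx with hlt | hlt
  · have : ∀ m : ℕ, (h ^ (m + 1)) x < x := by
      intro m
      induction m with
      | zero => simpa using hlt
      | succ m ih =>
        rw [pow_succ' h, RelIso.mul_apply]
        exact (h.strictMono ih).trans hlt
    exact (this n).ne h2
  · have : ∀ m : ℕ, x < (h ^ (m + 1)) x := by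
      intro m
      induction m with
      | zero => simpa using hlt
      | succ m ih =>
        rw [pow_succ' h, RelIso.mul_apply]
        exact hlt.trans (h.strictMono ih)
    exact (this n).ne' h2

lemma HH_pow_ne_one {h : HH} (hne : h ≠ 1) (n : ℕ) : h ^ (n + 1) ≠ 1 := by
  intro h1
  exact orderIso_pow_ne_one (h := h.1) (fun h2 => hne (Subtype.ext h2)) n (congrArg Subtype.val h1)

end Pool.Agent.MP_939d63_gt

end

-- part MP_939d63_gt.Theta
section

/-! The simply transitive action of the group on the ordered set of gaps. -/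

set_option autoImplicit false

namespace Pool.Agent.MP_939d63_gt

open Set

noncomputable def pp : ℝ := exists_free.choose

lemma pp_free (h : HH) (hh : h.1 pp = pp) : h = 1 := exists_free.choose_spec h hh

def Orb : Type := HH

noncomputable def Orb.val (g : Orb) : ℝ := (show HH from g).1 pp

lemma Orb.val_inj : Function.Injective Orb.val := by
  intro (g : HH) (g' : HH) h
  change g.1 pp = g'.1 pp at h
  have : g'⁻¹ * g = 1 := by
    apply pp_free
    change g'.1⁻¹ (g.1 pp) = pp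
    rw [h, RelIso.inv_apply_self]
  exact (inv_mul_eq_one.1 this).symm

noncomputable instance : LinearOrder Orb := LinearOrder.lift' Orb.val Orb.val_inj

instance : Countable Orb := inferInstanceAs (Countable HH)

instance : Nonempty Orb := ⟨(1 : HH)⟩

instance : DenselyOrdered Orb := ⟨fun _ _ h => orbit_between pp h⟩

instance : NoMinOrder Orb := ⟨fun g => by
  obtain ⟨g', -, h⟩ := orbit_between pp (show g.val - 1 < g.val by linarith)
  exact ⟨g', h⟩⟩

instance : NoMaxOrder Orb := ⟨fun g => by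
  obtain ⟨g', h, -⟩ := orbit_between pp (show g.val < g.val + 1 by linarith)
  exact ⟨g', h⟩⟩

noncomputable def iota : Orb ≃o Gap0 := (Order.iso_of_countable_dense Orb Gap0).some

noncomputable def Orb.mul (h : HH) : Orb ≃o Orb where
  toEquiv := (Equiv.mulLeft h : HH ≃ HH)
  map_rel_iff' := by
    intro (g : HH) (g' : HH)
    change h.1 (g.1 pp) ≤ h.1 (g'.1 pp) ↔ g.1 pp ≤ g'.1 pp
    exact h.1.le_iff_le

noncomputable def theta : HH →* (Gap0 ≃o Gap0) :=
  MonoidHom.mk' (fun h => (iota.symm.trans (Orb.mul h)).trans iota) (by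
    intro h h'
    ext q
    change iota (show HH from (h * h') * (show HH from iota.symm q)) =
      iota (show HH from h * (show HH from iota.symm
        (iota (show HH from h' * (show HH from iota.symm q)))))
    rw [OrderIso.symm_apply_apply, mul_assoc])

lemma theta_apply (h : HH) (q : Gap0) : theta h q = iota (Orb.mul h (iota.symm q)) := rfl

noncomputable def kap (q : Gap0) : ℝ := (iota.symm q).val

lemma kap_strictMono : StrictMono kap := fun _ _ h => iota.symm.strictMono h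

lemma kap_theta (h : HH) (q : Gap0) : kap (theta h q) = h.1 (kap q) := by
  unfold kap
  rw [theta_apply, OrderIso.symm_apply_apply]; rfl

lemma theta_free {h : HH} {q : Gap0} (hq : theta h q = q) : h = 1 := by
  rw [theta_apply, ← OrderIso.eq_symm_apply] at hq
  exact mul_eq_right.1 (show h * (show HH from iota.symm q) = (show HH from iota.symm q) from hq)

lemma theta_trans (q q' : Gap0) : ∃ h : HH, theta h q = q' := by
  refine ⟨(show HH from iota.symm q') * (show HH from iota.symm q)⁻¹, ?_⟩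
  rw [theta_apply, ← OrderIso.eq_symm_apply]
  exact inv_mul_cancel_right (show HH from iota.symm q') (show HH from iota.symm q)

lemma exists_gap_between {h : HH} (hne : h ≠ 1) {x y : ℝ} (h0 : 0 ≤ x) (hxy : x < y) (h1 : y ≤ 1)
    (hy : spine (theta h) y = y) : ∃ q : Gap0, x < q.c + q.r ∧ q.c + q.r < y := by
  obtain ⟨z, hz1, hz2, hz⟩ := exists_not_mem_between hxy
  obtain ⟨q, hq⟩ := Gap0.exists_of_not_mem hz (by linarith) (by linarith)
  rw [abs_lt] at hq
  refine ⟨q, by linarith, ?_⟩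
  by_contra hc
  push Not at hc
  have hr := q.r_pos
  have hs : (y - q.c) / q.r ∈ Icc (-1 : ℝ) 1 := by
    rw [mem_Icc, ← abs_le, abs_div, abs_of_pos hr, div_le_one hr, abs_le]
    constructor <;> linarith
  have e : y = uu q ((y - q.c) / q.r) := by unfold uu; field_simp; ring
  rw [e, spine_uu _ _ hs] at hy
  apply hne
  apply theta_free (q := q)
  rcases lt_trichotomy (theta h q) q with h2 | h2 | h2
  · exact absurd hy ((uu_lt_iff hs hs).2 (Or.inl h2)).ne
  · exact h2
  · exact absurd hy ((uu_lt_iff hs hs).2 (Or.inl h2)).ne'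

lemma countable_fix_unit {h : HH} (hne : h ≠ 1) :
    {y : ℝ | spine (theta h) y = y ∧ 0 < y ∧ y < 1}.Countable := by
  let S : ℝ → Set ℝ := fun y => kap '' {q | q.c + q.r < y}
  have hne' : ∀ y, spine (theta h) y = y → 0 < y → y < 1 → (S y).Nonempty := by
    intro y hy h0 h1
    obtain ⟨q, -, hq⟩ := exists_gap_between hne le_rfl h0 h1.le hy
    exact ⟨_, q, hq, rfl⟩
  have hub : ∀ y (q : Gap0), y < q.c + q.r → kap q ∈ upperBounds (S y) := by
    rintro y q hq _ ⟨q', hq', rfl⟩
    apply kap_strictMono.monotone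
    by_contra hc
    push Not at hc
    have := Gap0.sep hc
    simp only [mem_ofPred_eq] at hq'
    linarith [q'.r_pos]
  have hbdd : ∀ y, 0 < y → y < 1 → BddAbove (S y) := by
    intro y h0 h1
    obtain ⟨q, hq, -⟩ := exists_gap_between hne h0.le h1 le_rfl
      (by simpa using spine_int (theta h) 1)
    exact ⟨_, hub y q hq⟩
  have hend : ∀ q : Gap0, spine (theta h) (q.c + q.r) = (theta h q).c + (theta h q).r := by
    intro q
    have := spine_uu (theta h) q (s := 1) (by simp)
    simpa [uu] using this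
  refine MapsTo.countable_of_injOn (f := fun y => sSup (S y)) (t := {x : ℝ | h.1 x = x}) ?_ ?_
    (countable_fix h hne)
  · rintro y ⟨hy, h0, h1⟩
    change h.1 (sSup (S y)) = sSup (S y)
    rw [h.1.map_csSup' (hne' y hy h0 h1) (hbdd y h0 h1)]
    congr 1
    ext x
    constructor
    · rintro ⟨_, ⟨q, hq, rfl⟩, rfl⟩
      refine ⟨theta h q, ?_, kap_theta h q⟩
      change (theta h q).c + (theta h q).r < y
      rw [← hend, ← hy]
      exact (spine _).strictMono hq
    · rintro ⟨q, hq, rfl⟩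
      obtain ⟨q', rfl⟩ := (theta h).surjective q
      refine ⟨_, ⟨q', ?_, rfl⟩, (kap_theta h q').symm⟩
      change (theta h q').c + (theta h q').r < y at hq
      rw [← hend, ← hy] at hq
      exact (spine _).lt_iff_lt.1 hq
  · have key : ∀ y y', spine (theta h) y = y → 0 < y → y < 1 → spine (theta h) y' = y' → y' < 1 →
        y < y' → sSup (S y) < sSup (S y') := by
      intro y y' hy h0 h1 hy' h1' hlt
      obtain ⟨q, hq1, hq2⟩ := exists_gap_between hne h0.le hlt h1'.le hy'
      obtain ⟨q', hq1', hq2'⟩ := exists_gap_between hne (by linarith) hq2 h1'.le hy'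
      have hqq : q < q' := by
        by_contra hc
        push Not at hc
        rcases hc.eq_or_lt with h3 | h3
        · rw [h3] at hq1'; exact lt_irrefl _ hq1'
        · have := Gap0.sep h3
          linarith [q.r_pos]
      calc sSup (S y) ≤ kap q := csSup_le (hne' y hy h0 h1) (hub y q hq1)
        _ < kap q' := kap_strictMono hqq
        _ ≤ sSup (S y') := le_csSup (hbdd y' (h0.trans hlt) h1') ⟨q', hq2', rfl⟩
    rintro y ⟨hy, h0, h1⟩ y' ⟨hy', h0', h1'⟩ e
    rcases lt_trichotomy y y' with hlt | heq | hlt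
    · exact absurd e (key y y' hy h0 h1 hy' h1' hlt).ne
    · exact heq
    · exact absurd e (key y' y hy' h0' h1' hy h1 hlt).ne'

lemma countable_fix_spine {h : HH} (hne : h ≠ 1) : {y : ℝ | spine (theta h) y = y}.Countable := by
  have h1 := (countable_fix_unit hne).union (toFinite ({0, 1} : Set ℝ)).countable
  set T := {y : ℝ | spine (theta h) y = y ∧ 0 < y ∧ y < 1} ∪ ({0, 1} : Set ℝ) with hT
  have hmem : ∀ y, spine (theta h) y = y → 0 ≤ y → y ≤ 1 → y ∈ T := by
    intro y hy h0 h1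
    rcases h0.eq_or_lt with h0 | h0
    · right; left; exact h0.symm
    rcases h1.eq_or_lt with h1 | h1
    · right; right; exact h1
    · left; exact ⟨hy, h0, h1⟩
  refine (countable_iUnion fun j : ℤ => (h1.image (fun y => y + 2 * (j : ℝ))).union
    (h1.image (fun y => 2 * (j : ℝ) - y))).mono ?_
  intro x hx
  simp only [mem_ofPred_eq] at hx
  obtain ⟨j, hj | hj⟩ := exists_reduce x
  · refine mem_iUnion.2 ⟨j, Or.inl ⟨x - 2 * j, hmem _ ?_ hj.1 hj.2, by simp⟩⟩
    have := spine_add_two_mul (theta h) (x - 2 * j) j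
    rw [sub_add_cancel, hx] at this
    linarith
  · refine mem_iUnion.2 ⟨j, Or.inr ⟨2 * j - x, hmem _ ?_ hj.1 hj.2, by simp⟩⟩
    rw [spine_reflect, hx]

end Pool.Agent.MP_939d63_gt

end

-- part MP_939d63_gt.Ping
section

/-! Ping-pong for the group generated by the horizontal and the vertical copy. -/

set_option autoImplicit false

namespace Pool.Agent.MP_939d63_gt

open Set Real

noncomputable def alpha : HH →* Lift := spineHom.comp theta

noncomputable def beta : HH →* Lift := (MulAut.conj RR).toMonoidHom.comp alpha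

noncomputable def letter (b : Bool) : HH →* Lift := if b then beta else alpha

lemma alpha_apply (h : HH) (x : ℝ) : (alpha h).1 x = spine (theta h) x := rfl

lemma beta_eq (h : HH) : beta h = RR * alpha h * RR⁻¹ := rfl

lemma beta_apply (h : HH) (x : ℝ) : (beta h).1 x = spine (theta h) (x - 1 / 2) + 1 / 2 := by
  rw [beta_eq]
  change RR.1 ((alpha h).1 ((RR⁻¹).1 x)) = _
  rw [RR_apply, RR_inv_apply, alpha_apply]

def InA (i : ℤ) (x : ℝ) : Prop := |x - i / 2| ≤ 1 / 4

def Par (b : Bool) (i : ℤ) : Prop := i % 2 = if b then 0 else 1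

def Hop (F : Lift) (b : Bool) (c : ℤ) : Prop :=
  ∀ i, Par b i → ∃ j : ℤ, (∀ x, InA i x → InA (c + 4 * j) (F.1 x)) ∧
    ∀ x y, InA i x → InA i y → |F.1 x - F.1 y| ≤ |x - y| / 2

lemma spine_mid (φ : Gap0 ≃o Gap0) (i : ℤ) {x : ℝ} (hx : |x - (i + 1 / 2)| ≤ 1 / 4) :
    spine φ x = (if Even i then i + (φ Gap0.mid).c else i + 1 - (φ Gap0.mid).c) +
      4 * (φ Gap0.mid).r * (x - (i + 1 / 2)) := by
  rw [abs_le] at hx
  split_ifs with he
  · have := spine_jj φ i Gap0.mid ⟨4 * (x - (i + 1 / 2)), by constructor <;> linarith⟩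
    simp only [jj, he, if_true, uu, Gap0.mid_c, Gap0.mid_r] at this
    rw [show x = i + (1 / 2 + 4 * (x - (i + 1 / 2)) * (1 / 4)) by ring, this]; ring
  · have := spine_jj φ i Gap0.mid ⟨-4 * (x - (i + 1 / 2)), by constructor <;> linarith⟩
    simp only [jj, he, if_false, uu, Gap0.mid_c, Gap0.mid_r] at this
    rw [show x = i + 1 - (1 / 2 + -4 * (x - (i + 1 / 2)) * (1 / 4)) by ring, this]; ring

lemma hop_spine_aux (φ : Gap0 ≃o Gap0) (i : ℤ) (hr : (φ Gap0.mid).r ≤ 1 / 8) {x y : ℝ}
    (hx : |x - (i + 1 / 2)| ≤ 1 / 4) (hy : |y - (i + 1 / 2)| ≤ 1 / 4) :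
    |spine φ x - spine φ y| ≤ |x - y| / 2 := by
  rw [spine_mid φ i hx, spine_mid φ i hy, add_sub_add_left_eq_sub, ← mul_sub,
    sub_sub_sub_cancel_right, abs_mul, abs_of_pos (by linarith [(φ Gap0.mid).r_pos])]
  nlinarith [abs_nonneg (x - y)]

lemma hop_alpha_lt {h : HH} (hlt : theta h Gap0.mid < Gap0.mid) : Hop (alpha h) false 0 := by
  intro i hi
  obtain ⟨i', rfl⟩ : ∃ i', i = 2 * i' + 1 := ⟨i / 2, by simp [Par] at hi; omega⟩
  have h1 := Gap0.sep hlt
  rw [Gap0.mid_c, Gap0.mid_r] at h1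
  have h2 := (theta h Gap0.mid).sub_pos
  have h3 := (theta h Gap0.mid).r_pos
  have e : ∀ x, InA (2 * i' + 1) x → |x - (i' + 1 / 2)| ≤ 1 / 4 := by
    intro x hx; unfold InA at hx; convert hx using 2; push_cast; ring
  rcases Int.even_or_odd' i' with ⟨j, rfl | rfl⟩
  · refine ⟨j, fun x hx => ?_, fun x y hx hy => hop_spine_aux _ _ (by linarith) (e x hx) (e y hy)⟩
    have := abs_le.1 (e x hx)
    unfold InA
    rw [alpha_apply, spine_mid _ _ (e x hx), if_pos (by simp), abs_le]
    push_cast at this ⊢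
    constructor <;> nlinarith
  · refine ⟨j + 1, fun x hx => ?_,
      fun x y hx hy => hop_spine_aux _ _ (by linarith) (e x hx) (e y hy)⟩
    have := abs_le.1 (e x hx)
    unfold InA
    rw [alpha_apply, spine_mid _ _ (e x hx), if_neg (by simp), abs_le]
    push_cast at this ⊢
    constructor <;> nlinarith

lemma hop_alpha_gt {h : HH} (hlt : Gap0.mid < theta h Gap0.mid) : Hop (alpha h) false 2 := by
  intro i hi
  obtain ⟨i', rfl⟩ : ∃ i', i = 2 * i' + 1 := ⟨i / 2, by simp [Par] at hi; omega⟩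
  have h1 := Gap0.sep hlt
  rw [Gap0.mid_c, Gap0.mid_r] at h1
  have h2 := (theta h Gap0.mid).add_lt_one
  have h3 := (theta h Gap0.mid).r_pos
  have e : ∀ x, InA (2 * i' + 1) x → |x - (i' + 1 / 2)| ≤ 1 / 4 := by
    intro x hx; unfold InA at hx; convert hx using 2; push_cast; ring
  rcases Int.even_or_odd' i' with ⟨j, rfl | rfl⟩
  · refine ⟨j, fun x hx => ?_, fun x y hx hy => hop_spine_aux _ _ (by linarith) (e x hx) (e y hy)⟩
    have := abs_le.1 (e x hx)
    unfold InA
    rw [alpha_apply, spine_mid _ _ (e x hx), if_pos (by simp), abs_le]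
    push_cast at this ⊢
    constructor <;> nlinarith
  · refine ⟨j, fun x hx => ?_,
      fun x y hx hy => hop_spine_aux _ _ (by linarith) (e x hx) (e y hy)⟩
    have := abs_le.1 (e x hx)
    unfold InA
    rw [alpha_apply, spine_mid _ _ (e x hx), if_neg (by simp), abs_le]
    push_cast at this ⊢
    constructor <;> nlinarith

lemma hop_beta {h : HH} {c : ℤ} (H : Hop (alpha h) false c) : Hop (beta h) true (c + 1) := by
  intro i hi
  obtain ⟨j, h1, h2⟩ := H (i - 1) (by simp [Par] at hi ⊢; omega)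
  have e : ∀ x, InA i x → InA (i - 1) (x - 1 / 2) := by
    intro x hx; unfold InA at hx ⊢; convert hx using 2; push_cast; ring
  refine ⟨j, fun x hx => ?_, fun x y hx hy => ?_⟩
  · have := h1 _ (e x hx)
    unfold InA at this ⊢
    rw [beta_apply]; rw [alpha_apply] at this
    convert this using 2; push_cast; ring
  · have := h2 _ _ (e x hx) (e y hy)
    rw [beta_apply, beta_apply]; rw [alpha_apply, alpha_apply] at this
    convert this using 2 <;> ring_nf

lemma hop_letter (b : Bool) {h : HH} (hne : h ≠ 1) : ∃ c, Par (!b) c ∧ Hop (letter b h) b c := by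
  have : theta h Gap0.mid ≠ Gap0.mid := fun e => hne (theta_free e)
  rcases lt_or_gt_of_ne this with hlt | hlt <;> rcases b with _ | _
  · exact ⟨0, by simp [Par], hop_alpha_lt hlt⟩
  · exact ⟨0 + 1, by simp [Par], hop_beta (hop_alpha_lt hlt)⟩
  · exact ⟨2, by simp [Par], hop_alpha_gt hlt⟩
  · exact ⟨2 + 1, by simp [Par], hop_beta (hop_alpha_gt hlt)⟩

lemma exists_hop_letter (b : Bool) {c : ℤ} (hc : Par (!b) c) :
    ∃ (h : HH) (c' j : ℤ), c = c' + 4 * j ∧ Hop (letter b h) b c' := by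
  obtain ⟨q1, hq1⟩ := exists_lt Gap0.mid
  obtain ⟨q2, hq2⟩ := exists_gt Gap0.mid
  obtain ⟨h1, rfl⟩ := theta_trans Gap0.mid q1
  obtain ⟨h2, rfl⟩ := theta_trans Gap0.mid q2
  rcases b with _ | _
  · simp [Par] at hc
    by_cases h4 : c % 4 = 0
    · exact ⟨h1, 0, c / 4, by omega, hop_alpha_lt hq1⟩
    · exact ⟨h2, 2, c / 4, by omega, hop_alpha_gt hq2⟩
  · simp [Par] at hc
    by_cases h4 : c % 4 = 1
    · exact ⟨h1, 0 + 1, c / 4, by omega, hop_beta (hop_alpha_lt hq1)⟩
    · exact ⟨h2, 2 + 1, c / 4, by omega, hop_beta (hop_alpha_gt hq2)⟩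

lemma Hop.comp {F F' : Lift} {b b' : Bool} {c c' : ℤ} (H : Hop F b c) (H' : Hop F' b' c')
    (hp : Par b c') : Hop (F * F') b' c := by
  intro i hi
  obtain ⟨j', h1', h2'⟩ := H' i hi
  obtain ⟨j, h1, h2⟩ := H (c' + 4 * j') (by unfold Par at hp ⊢; omega)
  refine ⟨j, fun x hx => h1 _ (h1' x hx), fun x y hx hy => ?_⟩
  have a := h2 _ _ (h1' x hx) (h1' y hy)
  have b := h2' x y hx hy
  change |F.1 (F'.1 x) - F.1 (F'.1 y)| ≤ _
  linarith [abs_nonneg (x - y)]

lemma XX_sub_right (c : ℝ) (z w : ℂ) : XX c (z - w) = XX c z - XX c w := by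
  unfold XX; simp; ring

lemma Hop.far {F : Lift} {b : Bool} {c : ℤ} (H : Hop F b c) : ∃ z, 1 ≤ dist (desc F z) z := by
  obtain ⟨i, hi, hv⟩ : ∃ i, Par b i ∧ InA i (c / 2 + 3 / 4) := by
    by_cases h : Par b (c + 1)
    · exact ⟨c + 1, h, by unfold InA; push_cast; rw [abs_le]; constructor <;> linarith⟩
    · refine ⟨c + 2, ?_, by unfold InA; push_cast; rw [abs_le]; constructor <;> linarith⟩
      unfold Par at h ⊢
      rcases b with _ | _ <;> simp at h ⊢ <;> omega
  obtain ⟨j, h1, -⟩ := H i hi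
  have h2 := h1 _ hv
  refine ⟨EE (c / 2 + 3 / 4), ?_⟩
  rw [desc_EE, circle_dist_eq]
  refine le_trans ?_ (XX_le_norm (c / 2 + 3 / 4) _)
  have e : EE (F.1 (c / 2 + 3 / 4)) = EE (F.1 (c / 2 + 3 / 4) - 2 * j) := EE_eq_iff.2 ⟨j, by ring⟩
  rw [e, XX_sub_right, XX_EE, XX_EE, sub_self, mul_zero, cos_zero]
  unfold InA at h2
  push_cast at h2
  rw [abs_le] at h2
  have h3 := cos_le_cos_of_le_abs (x := F.1 (c / 2 + 3 / 4) - 2 * j - (c / 2 + 3 / 4))
    (σ := 1 / 2) (by rw [abs_of_neg (by linarith)]; linarith) (by norm_num)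
    (by rw [abs_le]; constructor <;> linarith)
  rw [show π * (1 / 2) = π / 2 by ring, cos_pi_div_two] at h3
  rw [abs_of_neg (by linarith)]; linarith

lemma Hop.ne_one {F : Lift} {b : Bool} {c : ℤ} (H : Hop F b c) : desc F ≠ 1 := by
  intro h
  obtain ⟨z, hz⟩ := H.far
  rw [h] at hz
  simp at hz
  linarith

lemma Hop.pow {F : Lift} {b : Bool} {c : ℤ} (H : Hop F b c) (hp : Par b c) (n : ℕ) :
    Hop (F ^ (n + 1)) b c := by
  induction n with
  | zero => simpa using H
  | succ n ih => rw [pow_succ']; exact H.comp ih hp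

lemma Hop.fix_subsingleton {F : Lift} {b : Bool} {c : ℤ} (H : Hop F b c) (hp : Par b c) :
    {z | desc F z = z ∧ ∃ i x, Par b i ∧ InA i x ∧ z = EE x}.Subsingleton := by
  have key : ∀ z, desc F z = z → (∃ i x, Par b i ∧ InA i x ∧ z = EE x) →
      ∃ x, InA c x ∧ z = EE x := by
    rintro z hz ⟨i, x, hi, hx, rfl⟩
    obtain ⟨j, h1, -⟩ := H i hi
    refine ⟨F.1 x - 2 * j, ?_, ?_⟩
    · have := h1 x hx
      unfold InA at this ⊢
      convert this using 2; push_cast; ring
    · rw [← hz, desc_EE]; exact EE_eq_iff.2 ⟨j, by ring⟩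
  rintro z ⟨hz, hz'⟩ w ⟨hw, hw'⟩
  obtain ⟨x, hx, rfl⟩ := key z hz hz'
  obtain ⟨y, hy, rfl⟩ := key w hw hw'
  obtain ⟨j, h1, h2⟩ := H c hp
  have key2 : ∀ x, InA c x → desc F (EE x) = EE x → F.1 x = x + 2 * j := by
    intro x hx hfix
    rw [desc_EE] at hfix
    obtain ⟨m, hm⟩ := EE_eq_iff.1 hfix
    have := h1 x hx
    unfold InA at this hx
    rw [hm] at this
    push_cast at this
    rw [abs_le] at this hx
    have a1 : (m : ℝ) < j + 1 := by linarith
    have a2 : (j : ℝ) < m + 1 := by linarith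
    have a1' : m < j + 1 := by exact_mod_cast a1
    have a2' : j < m + 1 := by exact_mod_cast a2
    obtain rfl : m = j := by omega
    exact hm
  have h3 := h2 x y hx hy
  rw [key2 x hx hz, key2 y hy hw, add_sub_add_right_eq_sub] at h3
  have : |x - y| ≤ 0 := by linarith
  rw [abs_nonpos_iff, sub_eq_zero] at this
  rw [this]

/-- Nonempty alternating words: first type, last type, length minus one, value. -/
inductive Alt : Bool → Bool → ℕ → Lift → Prop
  | single (b : Bool) (h : HH) (hne : h ≠ 1) : Alt b b 0 (letter b h)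
  | cons (b : Bool) (h : HH) (hne : h ≠ 1) {b' : Bool} {n : ℕ} {F : Lift} :
      Alt (!b) b' n F → Alt b b' (n + 1) (letter b h * F)

lemma Alt.hop {b b' : Bool} {n : ℕ} {F : Lift} (H : Alt b b' n F) :
    ∃ c, Par (!b) c ∧ Hop F b' c := by
  induction H with
  | single b h hne => exact hop_letter b hne
  | cons b h hne _ ih =>
    obtain ⟨c', hc', H'⟩ := ih
    obtain ⟨c, hc, H⟩ := hop_letter b hne
    exact ⟨c, hc, H.comp H' (by simpa using hc')⟩

lemma Alt.hop_inv {b b' : Bool} {n : ℕ} {F : Lift} (H : Alt b b' n F) :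
    ∃ c, Par (!b') c ∧ Hop F⁻¹ b c := by
  induction H with
  | single b h hne => rw [← map_inv]; exact hop_letter b (inv_ne_one.2 hne)
  | cons b h hne _ ih =>
    obtain ⟨c', hc', H'⟩ := ih
    obtain ⟨c, hc, H⟩ := hop_letter b (inv_ne_one.2 hne)
    refine ⟨c', hc', ?_⟩
    rw [mul_inv_rev, ← map_inv]
    exact H'.comp H hc

lemma Alt.snoc {b b' : Bool} {n : ℕ} {F : Lift} (H : Alt b b' n F) {h : HH} (hne : h ≠ 1) :
    Alt b (!b') (n + 1) (F * letter (!b') h) := by
  induction H with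
  | single b h' hne' => exact Alt.cons b h' hne' (Alt.single _ h hne)
  | cons b h' hne' _ ih => rw [mul_assoc]; exact Alt.cons b h' hne' ih

lemma Alt.exists_snoc {b b' : Bool} {n : ℕ} {F : Lift} (H : Alt b b' n F) :
    (n = 0 ∧ b = b') ∨ ∃ (m : ℕ) (F' : Lift) (h : HH), n = m + 1 ∧ h ≠ 1 ∧ Alt b (!b') m F' ∧
      F = F' * letter b' h := by
  induction H with
  | single b h hne => exact Or.inl ⟨rfl, rfl⟩
  | @cons b h hne b' n F H ih =>
    right
    rcases ih with ⟨rfl, rfl⟩ | ⟨m, F', h', rfl, hne', H', rfl⟩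
    · cases H with
      | single _ h' hne' =>
        exact ⟨0, letter b h, h', rfl, hne', by simpa using Alt.single b h hne, rfl⟩
    · exact ⟨m + 1, letter b h * F', h', rfl, hne', Alt.cons b h hne H', (mul_assoc _ _ _).symm⟩

noncomputable def GG : Subgroup Lift := alpha.range ⊔ beta.range

lemma letter_mem (b : Bool) (h : HH) : letter b h ∈ GG := by
  rcases b with _ | _
  · exact Subgroup.mem_sup_left ⟨h, rfl⟩
  · exact Subgroup.mem_sup_right ⟨h, rfl⟩

lemma alt_mul (b : Bool) (h : HH) {F : Lift} (H : F = 1 ∨ ∃ b₁ b₂ n, Alt b₁ b₂ n F) :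
    letter b h * F = 1 ∨ ∃ b₁ b₂ n, Alt b₁ b₂ n (letter b h * F) := by
  by_cases hne : h = 1
  · subst hne; simpa using H
  rcases H with rfl | ⟨b₁, b₂, n, H⟩
  · right; exact ⟨b, b, 0, by simpa using Alt.single b h hne⟩
  by_cases hb : b₁ = !b
  · subst hb; right; exact ⟨_, _, _, Alt.cons b h hne H⟩
  obtain rfl : b₁ = b := by simpa using hb
  cases H with
  | single _ h' hne' =>
    rw [← map_mul]
    by_cases h1 : h * h' = 1
    · left; rw [h1, map_one]
    · right; exact ⟨_, _, _, Alt.single _ _ h1⟩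
  | cons _ h' hne' H' =>
    rw [← mul_assoc, ← map_mul]
    by_cases h1 : h * h' = 1
    · right; rw [h1, map_one, one_mul]; exact ⟨_, _, _, H'⟩
    · right; exact ⟨_, _, _, Alt.cons _ _ h1 H'⟩

lemma alt_of_mem {F : Lift} (hF : F ∈ GG) : F = 1 ∨ ∃ b₁ b₂ n, Alt b₁ b₂ n F := by
  unfold GG at hF
  rw [Subgroup.sup_eq_closure] at hF
  induction hF using Subgroup.closure_induction_left with
  | one => exact Or.inl rfl
  | mul_left x hx y _ ih =>
    rcases hx with ⟨h, rfl⟩ | ⟨h, rfl⟩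
    · exact alt_mul false h ih
    · exact alt_mul true h ih
  | inv_mul_cancel x hx y _ ih =>
    rcases hx with ⟨h, rfl⟩ | ⟨h, rfl⟩
    · rw [← map_inv]; exact alt_mul false h⁻¹ ih
    · rw [← map_inv]; exact alt_mul true h⁻¹ ih

/-- Infinite order and countably many fixed points on the circle. -/
def Nice (F : Lift) : Prop :=
  (∀ n : ℕ, desc F ^ (n + 1) ≠ 1) ∧ {z | desc F z = z}.Countable

lemma Nice.conj {F : Lift} (H : Nice F) (G : Lift) : Nice (G * F * G⁻¹) := by
  constructor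
  · intro n hn
    rw [map_mul, map_mul, map_inv, conj_pow, conj_eq_one_iff] at hn
    exact H.1 n hn
  · refine (H.2.image (desc G)).mono ?_
    intro z hz
    simp only [mem_ofPred_eq, map_mul, map_inv, Homeomorph.mul_apply, Homeomorph.inv_apply] at hz
    refine ⟨(desc G).symm z, ?_, by simp⟩
    apply (desc G).injective
    simpa using hz

lemma nice_alpha {h : HH} (hne : h ≠ 1) : Nice (alpha h) := by
  constructor
  · intro n
    rw [← map_pow, ← map_pow]
    obtain ⟨c, -, H⟩ := hop_letter false (HH_pow_ne_one hne n)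
    exact H.ne_one
  · refine ((countable_fix_spine hne).image EE).mono ?_
    intro z hz
    obtain ⟨x, rfl⟩ := EE_surjective z
    refine ⟨x, ?_, rfl⟩
    simp only [mem_ofPred_eq, desc_EE, alpha_apply] at hz ⊢
    obtain ⟨m, hm⟩ := EE_eq_iff.1 hz
    have f1 : (⌊x⌋ : ℝ) ≤ x := Int.floor_le _
    have f2 : x < ((⌊x⌋ + 1 : ℤ) : ℝ) := by push_cast; exact Int.lt_floor_add_one _
    have g1 := (spine (theta h)).monotone f1
    have g2 := (spine (theta h)).strictMono f2
    rw [spine_int] at g1 g2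
    push_cast at f2 g2
    have a1 : (m : ℝ) < 1 := by linarith
    have a2 : (-1 : ℝ) < m := by linarith
    have a1' : m < 1 := by exact_mod_cast a1
    have a2' : -1 < m := by exact_mod_cast a2
    obtain rfl : m = 0 := by omega
    simpa using hm

lemma nice_letter (b : Bool) {h : HH} (hne : h ≠ 1) : Nice (letter b h) := by
  rcases b with _ | _
  · exact nice_alpha hne
  · exact (nice_alpha hne).conj RR

lemma exists_InA (x : ℝ) : ∃ i, InA i x := by
  refine ⟨⌊2 * x + 1 / 2⌋, ?_⟩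
  have f1 := Int.floor_le (2 * x + 1 / 2)
  have f2 := Int.lt_floor_add_one (2 * x + 1 / 2)
  unfold InA
  rw [abs_le]; constructor <;> linarith

lemma Alt.nice_of_ne {b : Bool} {n : ℕ} {F : Lift} (H : Alt b (!b) n F) : Nice F := by
  obtain ⟨c, hc, H1⟩ := H.hop
  obtain ⟨c', hc', H2⟩ := H.hop_inv
  rw [Bool.not_not] at hc'
  constructor
  · intro n
    rw [← map_pow]
    exact (H1.pow hc n).ne_one
  · refine ((H1.fix_subsingleton hc).countable.union (H2.fix_subsingleton hc').countable).mono ?_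
    intro z hz
    obtain ⟨x, rfl⟩ := EE_surjective z
    obtain ⟨i, hi⟩ := exists_InA x
    by_cases hp : Par b i
    · right
      refine ⟨?_, i, x, hp, hi, rfl⟩
      rw [map_inv, Homeomorph.inv_apply, Homeomorph.symm_apply_eq]
      exact Eq.symm hz
    · left
      refine ⟨hz, i, x, ?_, hi, rfl⟩
      unfold Par at hp ⊢
      rcases b with _ | _ <;> simp at hp ⊢ <;> omega

lemma Alt.nice {n : ℕ} : ∀ {b b' : Bool} {F : Lift}, Alt b b' n F → Nice F := by
  induction n using Nat.strong_induction_on with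
  | _ n ih =>
    intro b b' F H
    by_cases hb : b' = !b
    · subst hb; exact H.nice_of_ne
    obtain rfl : b' = b := by simpa using hb
    cases H with
    | single _ h hne => exact nice_letter _ hne
    | @cons _ h hne _ n F H =>
      rcases H.exists_snoc with ⟨-, h2⟩ | ⟨m, F', h', rfl, hne', H', rfl⟩
      · simp at h2
      · have e : letter b' h * (F' * letter b' h') =
            letter b' h * (F' * letter b' (h' * h)) * (letter b' h)⁻¹ := by
          rw [map_mul]; group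
        rw [e]
        apply Nice.conj
        by_cases h1 : h' * h = 1
        · rw [h1, map_one, mul_one]; exact ih m (by omega) H'
        · have := H'.snoc h1
          rw [Bool.not_not] at this
          exact ih (m + 1) (by omega) this

end Pool.Agent.MP_939d63_gt

end

-- part MP_939d63_gt.Trans
section

/-! Every family of leaves can be moved to a standard arc; the action is minimal. -/

set_option autoImplicit false

namespace Pool.Agent.MP_939d63_gt

open Set Real

lemma good_neg {ν : ℕ} {κ : ℤ} (hg : Good ν κ) : Good ν (-κ - 1) := by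
  intro m hm
  obtain ⟨i, hi⟩ := hg m hm
  refine ⟨-i, ?_⟩
  rw [← cen_neg, ← abs_neg]; convert hi using 2; push_cast; ring

lemma good_add_int {ν : ℕ} {κ : ℤ} (hg : Good ν κ) (i : ℤ) : Good ν (κ + 4 ^ ν * i) := by
  intro m hm
  obtain ⟨j, hj⟩ := hg m hm
  refine ⟨j + 4 ^ m * i, ?_⟩
  rw [← cen_add_int]; convert hj using 2; push_cast; ring

lemma cen_ne_int (ν : ℕ) (κ i : ℤ) : cen ν κ ≠ i := fun h =>
  not_mem_KK_of_abs_lt (x := i) (n := ν) (k := κ) (by rw [h]; simpa using rad_pos ν) (int_mem_KK i)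

lemma good_to_std0 {ν : ℕ} {κ : ℤ} (hg : Good ν κ) (h0 : 0 ≤ cen ν κ) (h1 : cen ν κ ≤ 1) :
    ∃ h : HH, ∀ s : ℝ, |s| ≤ 1 → spine (theta h) (cen ν κ + rad ν * s) = 1 / 2 + s / 4 := by
  let q : Gap0 := ⟨(ν, κ), hg, lt_of_le_of_ne h0 (by simpa using (cen_ne_int ν κ 0).symm),
    lt_of_le_of_ne h1 (by simpa using cen_ne_int ν κ 1)⟩
  obtain ⟨h, hh⟩ := theta_trans q Gap0.mid
  refine ⟨h, fun s hs => ?_⟩
  have := spine_uu (theta h) q (s := s) (abs_le.1 hs)
  rw [hh] at this
  simp only [uu, Gap0.mid_c, Gap0.mid_r] at this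
  rw [mul_comm (rad ν)]
  exact this.trans (by ring)

lemma good_to_std {ν : ℕ} {κ : ℤ} (hg : Good ν κ) :
    ∃ (h : HH) (i : ℤ), ∀ s : ℝ, |s| ≤ 1 →
      spine (theta h) (cen ν κ + rad ν * s) = i + 1 / 2 + s / 4 := by
  obtain ⟨j, h | h⟩ := exists_reduce (cen ν κ)
  · have e : cen ν κ - 2 * j = cen ν (κ + 4 ^ ν * (-2 * j)) := by
      rw [← cen_add_int]; push_cast; ring
    rw [e] at h
    obtain ⟨g, H⟩ := good_to_std0 (good_add_int hg _) h.1 h.2
    refine ⟨g, 2 * j, fun x hx => ?_⟩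
    have := spine_add_two_mul (theta g) (cen ν (κ + 4 ^ ν * (-2 * j)) + rad ν * x) j
    rw [H x hx, ← e] at this
    rw [show cen ν κ + rad ν * x = cen ν κ - 2 * j + rad ν * x + 2 * j by ring, this]
    push_cast; ring
  · have e : 2 * j - cen ν κ = cen ν (-κ - 1 + 4 ^ ν * (2 * j)) := by
      rw [← cen_add_int, ← cen_neg]; push_cast; ring
    rw [e] at h
    obtain ⟨g, H⟩ := good_to_std0 (good_add_int (good_neg hg) _) h.1 h.2
    refine ⟨g, 2 * j - 1, fun x hx => ?_⟩
    have := spine_reflect (theta g) j (cen ν (-κ - 1 + 4 ^ ν * (2 * j)) + rad ν * (-x))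
    rw [H (-x) (by rwa [abs_neg]), ← e] at this
    rw [show cen ν κ + rad ν * x = 2 * j - (2 * j - cen ν κ + rad ν * (-x)) by ring, this]
    push_cast; ring

lemma abs_cen_add_le {ν : ℕ} {κ : ℤ} (h1 : |cen ν κ| ≤ 1) {s : ℝ} (hs : |s| ≤ 1) :
    |cen ν κ + rad ν * s| ≤ 1 := by
  have hc1 : ¬ |1 - cen ν κ| < rad ν := fun hh => not_mem_KK_of_abs_lt hh one_mem_KK
  have hc2 : ¬ |-1 - cen ν κ| < rad ν := fun hh => not_mem_KK_of_abs_lt hh neg_one_mem_KK
  have hr := rad_pos ν
  rw [abs_le] at h1 hs ⊢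
  rw [abs_of_nonneg (by linarith)] at hc1
  rw [abs_of_nonpos (by linarith)] at hc2
  push Not at hc1 hc2
  constructor <;> nlinarith

lemma good_quarter {ν : ℕ} {κ : ℤ} (hg : Good ν κ) (h1 : |cen ν κ| ≤ 1) : Good (ν + 1) κ := by
  have e1 : cen (ν + 1) κ = cen ν κ / 4 := by unfold cen; rw [pow_succ]; field_simp
  intro m hm
  rcases m with _ | m
  · refine ⟨0, ?_⟩
    rw [e1, abs_le] at *
    constructor <;> simp <;> linarith
  · obtain ⟨j, hj⟩ := hg m (by omega)
    refine ⟨j, ?_⟩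
    rw [e1]; convert hj using 2; rw [pow_succ]; ring

lemma exists_parent {n : ℕ} (hn : 0 < n) (k : ℤ) :
    ∃ (m ν : ℕ) (c₀ : ℝ) (κ : ℤ), IsCen m c₀ ∧ n = m + 1 + ν ∧ cen n k = c₀ + rad m * cen ν κ ∧
      Good ν κ ∧ |cen ν κ| ≤ 1 := by
  classical
  let P : ℕ → Prop := fun m => ∃ c₀, IsCen m c₀ ∧ |cen n k - c₀| ≤ rad m
  have h0 : P 0 := by
    obtain ⟨i, hi⟩ := exists_InA (cen n k)
    exact ⟨i / 2, isCen_zero_iff.2 ⟨i, rfl⟩, by rw [rad_zero]; exact hi⟩
  set m := Nat.findGreatest P (n - 1) with hm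
  have hP : P m := Nat.findGreatest_spec (Nat.zero_le _) h0
  have hle : m ≤ n - 1 := Nat.findGreatest_le _
  have hmax : ∀ m', m < m' → m' ≤ n - 1 → ¬ P m' := fun m' h1 h2 =>
    Nat.findGreatest_is_greatest h1 h2
  obtain ⟨c₀, hc, hd⟩ := hP
  obtain ⟨ν, hν⟩ : ∃ ν, n = m + 1 + ν := ⟨n - m - 1, by omega⟩
  obtain ⟨j, hj⟩ := hc.even
  have hr := rad_pos m
  have e1 : cen n k = c₀ + rad m * cen ν (k - 2 * j * 4 ^ ν) := by
    have h4 : (0 : ℝ) < 4 ^ (m + 1) := by positivity
    have hc : c₀ = 2 * j / 4 ^ (m + 1) := by rw [← hj]; field_simp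
    rw [hc, hν]
    unfold rad cen
    push_cast
    rw [pow_add 4 (m + 1) ν]; field_simp; ring
  set κ := k - 2 * j * 4 ^ ν with hκ
  refine ⟨m, ν, c₀, κ, hc, hν, e1, ?_, ?_⟩
  · intro l hl
    by_contra hcon
    push Not at hcon
    set k' := ⌊4 ^ l * cen ν κ⌋ with hk'
    have f1 : (k' : ℝ) ≤ 4 ^ l * cen ν κ := Int.floor_le _
    have f2 : 4 ^ l * cen ν κ < k' + 1 := Int.lt_floor_add_one _
    have g1 := hcon k'
    have g2 := hcon (k' + 1)
    rw [abs_of_nonneg (by linarith)] at g1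
    push_cast at g2
    rw [abs_of_neg (by linarith)] at g2
    have h4 : (0 : ℝ) < 4 ^ l := by positivity
    have h5 : |cen ν κ - cen l k'| ≤ rad l := by
      have : |4 ^ l * cen ν κ - 4 ^ l * cen l k'| ≤ 4 ^ l * rad l := by
        rw [pow_mul_cen, pow_mul_rad, abs_le]; constructor <;> linarith
      rw [← mul_sub, abs_mul, abs_of_pos h4] at this
      exact le_of_mul_le_mul_left this h4
    obtain ⟨κ', hκ'⟩ := hc.child l k'
    apply hmax (m + 1 + l) (by omega) (by omega)
    refine ⟨_, isCen_cen _ κ', ?_⟩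
    rw [← hκ', e1, ← rad_mul_rad, add_sub_add_left_eq_sub, ← mul_sub, abs_mul, abs_of_pos hr]
    exact mul_le_mul_of_nonneg_left h5 hr.le
  · rw [e1, add_sub_cancel_left, abs_mul, abs_of_pos hr] at hd
    by_contra hc
    push Not at hc
    nlinarith

lemma fam_to_std (n : ℕ) : ∀ c, IsCen n c → ∃ F ∈ GG, ∃ i : ℤ, ∀ s : ℝ, |s| ≤ 1 →
    F.1 (c + rad n * s) = i / 2 + s / 4 := by
  induction n using Nat.strong_induction_on with
  | _ n ih =>
    intro c hc
    rcases Nat.eq_zero_or_pos n with rfl | hn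
    · obtain ⟨i, rfl⟩ := isCen_zero_iff.1 hc
      refine ⟨1, GG.one_mem, i, fun s _ => ?_⟩
      rw [rad_zero]
      change (i : ℝ) / 2 + 1 / 4 * s = _
      ring
    obtain ⟨k, rfl | ⟨h0, -⟩⟩ := hc
    swap; · omega
    obtain ⟨m, ν, c₀, κ, hc₀, hν, e, hg, hb⟩ := exists_parent hn k
    obtain ⟨F, hF, i, H⟩ := ih m (by omega) c₀ hc₀
    have e1 : cen (ν + 1) κ = cen ν κ / 4 := by unfold cen; rw [pow_succ]; field_simp
    have e2 : rad (ν + 1) = rad ν / 4 := by unfold rad; rw [pow_succ]; field_simp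
    have H2 : ∀ s : ℝ, |s| ≤ 1 →
        F.1 (cen n k + rad n * s) = i / 2 + (cen (ν + 1) κ + rad (ν + 1) * s) := by
      intro s hs
      have := H _ (abs_cen_add_le hb hs)
      rw [e, hν, ← rad_mul_rad, e1, e2, add_assoc, mul_assoc, ← mul_add, this]; ring
    rcases Int.even_or_odd' i with ⟨i', rfl | rfl⟩
    · obtain ⟨h, i'', H3⟩ := good_to_std (good_add_int (good_quarter hg hb) i')
      refine ⟨alpha h * F, GG.mul_mem (letter_mem false h) hF, 2 * i'' + 1, fun s hs => ?_⟩
      change (alpha h).1 (F.1 _) = _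
      have := H3 s hs
      rw [← cen_add_int] at this
      rw [H2 s hs, alpha_apply]
      convert this using 1
      · congr 1; push_cast; ring
      · push_cast; ring
    · obtain ⟨h, i'', H3⟩ := good_to_std (good_add_int (good_quarter hg hb) i')
      refine ⟨beta h * F, GG.mul_mem (letter_mem true h) hF, 2 * i'' + 2, fun s hs => ?_⟩
      change (beta h).1 (F.1 _) = _
      have := H3 s hs
      rw [← cen_add_int] at this
      rw [H2 s hs, beta_apply, ← eq_sub_iff_add_eq]
      convert this using 1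
      · congr 1; push_cast; ring
      · push_cast; ring

lemma move_to_arc (x : ℝ) (c : ℤ) : ∃ F ∈ GG, ∃ j : ℤ, InA (c + 4 * j) (F.1 x) := by
  have key : ∀ (x : ℝ) (i c : ℤ), InA i x → (i + c) % 2 = 1 →
      ∃ F ∈ GG, ∃ j : ℤ, InA (c + 4 * j) (F.1 x) := by
    intro x i c hi hp
    obtain ⟨b, hb, hb'⟩ : ∃ b, Par b i ∧ Par (!b) c := by
      by_cases h : i % 2 = 0
      · exact ⟨true, by simpa [Par] using h, by simp [Par]; omega⟩
      · exact ⟨false, by simp [Par]; omega, by simp [Par]; omega⟩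
    obtain ⟨h, c', j, rfl, H⟩ := exists_hop_letter b hb'
    obtain ⟨j', h1, -⟩ := H i hb
    refine ⟨_, letter_mem b h, j' - j, ?_⟩
    convert h1 x hi using 1; ring
  obtain ⟨i, hi⟩ := exists_InA x
  by_cases hp : (i + c) % 2 = 1
  · exact key x i c hi hp
  · obtain ⟨F, hF, j, h1⟩ := key x i (c + 1) hi (by omega)
    obtain ⟨F', hF', j', h2⟩ := key _ _ c h1 (by omega)
    exact ⟨F' * F, GG.mul_mem hF' hF, j', h2⟩

lemma exists_orbit_between (x : ℝ) {a b : ℝ} (hab : a < b) :
    ∃ F ∈ GG, ∃ y, a < y ∧ y < b ∧ desc F (EE x) = EE y := by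
  obtain ⟨n, k, h1, h2⟩ := exists_cen_between hab
  obtain ⟨F, hF, i, H⟩ := fam_to_std n _ (isCen_cen n k)
  obtain ⟨F', hF', j, h3⟩ := move_to_arc x i
  unfold InA at h3
  push_cast at h3
  have hs : |4 * (F'.1 x - 2 * j - i / 2)| ≤ 1 := by
    rw [abs_le] at h3 ⊢; constructor <;> linarith
  have hr := rad_pos n
  have hs' := abs_le.1 hs
  refine ⟨F⁻¹ * F', GG.mul_mem (GG.inv_mem hF) hF', cen n k + rad n * (4 * (F'.1 x - 2 * j - i / 2)),
    by nlinarith, by nlinarith, ?_⟩
  rw [map_mul, map_inv, Homeomorph.mul_apply, Homeomorph.inv_apply, Homeomorph.symm_apply_eq,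
    desc_EE, desc_EE, H _ hs]
  exact EE_eq_iff.2 ⟨j, by ring⟩

theorem dense_orbit (z : Circle) : Dense {w | ∃ g ∈ GG.map desc, g z = w} := by
  obtain ⟨x, rfl⟩ := EE_surjective z
  rw [dense_iff_inter_open]
  rintro U hU ⟨w, hw⟩
  obtain ⟨y, rfl⟩ := EE_surjective w
  obtain ⟨ε, hε, hsub⟩ := Metric.isOpen_iff.1 (hU.preimage continuous_EE) y hw
  obtain ⟨F, hF, y', h1, h2, e⟩ := exists_orbit_between x (show y < y + ε by linarith)
  refine ⟨EE y', hsub ?_, desc F, ⟨F, hF, rfl⟩, e⟩
  rw [Metric.mem_ball, Real.dist_eq, abs_lt]; constructor <;> linarith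

lemma GG_le_Stab : GG ≤ Stab := by
  apply sup_le
  · rintro _ ⟨h, rfl⟩
    exact spineHom_mem_Stab _
  · rintro _ ⟨h, rfl⟩
    rw [beta_eq]
    exact Stab.mul_mem (Stab.mul_mem RR_mem_Stab (spineHom_mem_Stab _)) (Stab.inv_mem RR_mem_Stab)

lemma fg_map_GG : (GG.map desc).FG := by
  unfold GG
  rw [Subgroup.map_sup, MonoidHom.map_range, MonoidHom.map_range]
  exact ((Group.fg_iff_subgroup_fg _).1 (Group.fg_range _)).sup
    ((Group.fg_iff_subgroup_fg _).1 (Group.fg_range _))

lemma not_rf_map_GG : ¬ Group.ResiduallyFinite (GG.map desc) := by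
  intro hRF
  apply HH_not_residuallyFinite
  let f : HH →* (GG.map desc) := (desc.comp alpha).codRestrict _
    (fun h => ⟨alpha h, letter_mem false h, rfl⟩)
  rw [Group.residuallyFinite_iff_exists_finiteIndexNormalSubgroup]
  intro h hne
  have : f h ≠ 1 := by
    intro e
    obtain ⟨c, -, H⟩ := hop_letter false hne
    exact H.ne_one (congrArg Subtype.val e)
  obtain ⟨K, hK⟩ := Group.exists_finiteIndexNormalSubgroup_notMem _ this
  exact ⟨K.comap f, hK⟩

end Pool.Agent.MP_939d63_gt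

end
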